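import Mathlib

/-!
# Stage 3b: admissible mixed chains

`R` is the number of the edges, `a i` (`i ≤ R`) the number of the half twists in the vertex `i`,
`S i = true` if the edge between `i` and `i + 1` joins two vertices of the same sign.
-/

namespace Pool.Agent.S5

/-- Admissible mixed chains: what the absorption rule guarantees (see `exists_adm` in `S5/List`). -/
structure Adm (R : ℕ) (a : ℕ → ℕ) (S : ℕ → Bool) : Prop where
  hR : 1 ≤ R
  ha : ∀ i, i ≤ R → 2 ≤ a i
  hfst : S 0 = true → 3 ≤ a 0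
  hlst : ∀ i, i + 1 = R → S i = true → 3 ≤ a (i + 1)
  hmid : ∀ i, i + 1 < R → S i = true → S (i + 1) = true → 3 ≤ a (i + 1)
  /-- special `2`: the opposite sign neighbour is at most the same sign neighbour -/
  hspl : ∀ i, i + 1 < R → a (i + 1) = 2 → S i = true → a (i + 2) ≤ a i
  hspr : ∀ i, i + 1 < R → a (i + 1) = 2 → S (i + 1) = true → a i ≤ a (i + 2)
  /-- `2 S 2`: the other neighbours are special `2`'s too -/
  hss : ∀ i, i + 1 ≤ R → S i = true → a i = 2 → a (i + 1) = 2 →
    (2 ≤ i ∧ a (i - 1) = 2 ∧ S (i - 2) = true) ∧ (i + 3 ≤ R ∧ a (i + 2) = 2 ∧ S (i + 2) = true)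
  /-- no three inner `3`'s in a row with same sign edges on both sides -/
  no3 : ∀ i, i + 4 ≤ R → ¬ (S i = true ∧ S (i + 1) = true ∧ S (i + 2) = true ∧ S (i + 3) = true ∧
    a (i + 1) = 3 ∧ a (i + 2) = 3 ∧ a (i + 3) = 3)

end Pool.Agent.S5
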