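import Pool.Agent.S5.GeoD
import Pool.Agent.S5.E.BxZ
import Pool.Agent.S5.E.Str3

/-!
# Mixed chains: the bounds `BxG` at the critical point, from the solution of block E
-/

set_option autoImplicit false

namespace Pool.Agent.S5

open Complex
open Pool.Agent.S5.E
open Pool.Agent.S5.G (CrtM O3 O4 sy)

/-- The solution of block E. -/
structure Sol (R : ℕ) (a : ℕ → ℕ) (S : ℕ → Bool) (z ql qr : ℕ → ℂ) (zF : Fin (R + 1) → ℂ) :
    Prop where
  crt : CrtM R a S z ql qr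
  zr : Zr true (aF R a) (nlF R S) (nrF R S) (E.gC (aF R a) (nlF R S) (nrF R S)) 1 zF
  ez : ∀ i : Fin (R + 1), z i = zF i
  el : ∀ i : Fin (R + 1), ql i = as (bo true 1 zF (nlF R S i) * tan (zF i))
  er : ∀ i : Fin (R + 1), qr i = as (bo true 1 zF (nrF R S i) * tan (zF i))

namespace Sol

variable {R : ℕ} {a : ℕ → ℕ} {S fl : ℕ → Bool} {z ql qr : ℕ → ℂ} {zF : Fin (R + 1) → ℂ}

theorem in3 (h : Sol R a S z ql qr zF) (hA : Adm R a S) :
    E.In3 (aF R a) (nlF R S) (nrF R S) zF :=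
  h.zr.in3 (ch_of_adm hA) fun _ hi => aF_cases hi

/-- The slot of a vertex. -/
theorem l_im (h : Sol R a S z ql qr zF) (i : Fin (R + 1)) :
    (ql i).im = E.RS (bo true 1 zF (nlF R S i) * tan (zF i)) := by rw [h.el, as_im]

theorem r_im (h : Sol R a S z ql qr zF) (i : Fin (R + 1)) :
    (qr i).im = E.RS (bo true 1 zF (nrF R S i) * tan (zF i)) := by rw [h.er, as_im]

theorem tr (h : Sol R a S z ql qr zF) (hA : Adm R a S) (i : ℕ) (hi : i < R) (h2 : a i = 2) :
    0 < (qr i).im := by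
  rcases hS : S i with _ | _
  · exact h.crt.rimo i hi hS
  · obtain ⟨k, rfl⟩ : ∃ k, i = k + 1 := by
      refine ⟨i - 1, ?_⟩
      by_contra hc
      have h0 : i = 0 := by omega
      rw [h0] at hS h2
      have := hA.hfst hS
      omega
    have hk : S k = false := by
      rcases hk : S k with _ | _
      · rfl
      · have := hA.hmid k hi hk hS
        omega
    have hsp : E.B2.Sp (nlF R S) (nrF R S) (⟨k + 1, by omega⟩ : Fin (R + 1)) ⟨k, by omega⟩
        ⟨k + 2, by omega⟩ :=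
      Or.inl ⟨nlF_iff.2 ⟨rfl, hk.symm⟩, nrF_iff.2 ⟨rfl, hS.symm⟩⟩
    have h3 := h.zr.sp_pos (ch_of_adm hA) (h.in3 hA) (aF_two.2 h2) hsp
    have h4 := h.r_im (⟨k + 1, by omega⟩ : Fin (R + 1))
    have h5 : nrF R S (⟨k + 1, by omega⟩ : Fin (R + 1)) = some (⟨k + 2, by omega⟩, true) :=
      nrF_iff.2 ⟨rfl, hS.symm⟩
    rw [h5] at h4
    exact lt_of_lt_of_eq h3 h4.symm

theorem tl (h : Sol R a S z ql qr zF) (hA : Adm R a S) (i : ℕ) (hi : i < R)
    (h2 : a (i + 1) = 2) : 0 < (ql (i + 1)).im := by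
  rcases hS : S i with _ | _
  · exact h.crt.limo i hi hS
  · have hi1 : i + 1 < R := by
      by_contra hc
      have := hA.hlst i (by omega) hS
      omega
    have hk : S (i + 1) = false := by
      rcases hk : S (i + 1) with _ | _
      · rfl
      · have := hA.hmid i hi1 hS hk
        omega
    have hsp : E.B2.Sp (nlF R S) (nrF R S) (⟨i + 1, by omega⟩ : Fin (R + 1)) ⟨i + 2, by omega⟩
        ⟨i, by omega⟩ :=
      Or.inr ⟨nlF_iff.2 ⟨rfl, hS.symm⟩, nrF_iff.2 ⟨rfl, hk.symm⟩⟩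
    have h3 := h.zr.sp_pos (ch_of_adm hA) (h.in3 hA) (aF_two.2 h2) hsp
    have h4 := h.l_im (⟨i + 1, by omega⟩ : Fin (R + 1))
    have h5 : nlF R S (⟨i + 1, by omega⟩ : Fin (R + 1)) = some (⟨i, by omega⟩, true) :=
      nlF_iff.2 ⟨rfl, hS.symm⟩
    rw [h5] at h4
    exact lt_of_lt_of_eq h3 h4.symm

theorem sr (h : Sol R a S z ql qr zF) (hA : Adm R a S) (i : ℕ) (hi : i < R) (hS : S i = true) :
    (z i).re - (qr i).im < Real.pi / 2 := by
  rcases Nat.lt_or_ge (a i) 3 with h2 | h3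
  · have h2' : a i = 2 := by
      have := hA.ha i hi.le
      omega
    have h4 := h.tr hA i hi h2'
    have h5 := h.crt.eq_re i hi.le
    rw [h2'] at h5
    push_cast at h5
    have h6 : 0 ≤ (ql i).im := by
      rcases Nat.eq_zero_or_pos i with h0 | h0
      · rw [h0, h.crt.l0, zero_im]
      · obtain ⟨k, rfl⟩ : ∃ k, i = k + 1 := ⟨i - 1, by omega⟩
        exact (h.tl hA k (by omega) h2').le
    linarith
  · have h4 := (h.zr.sr_three (i := (⟨i, by omega⟩ : Fin (R + 1))) (three_aF.2 h3)).2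
    have h5 := h.r_im (⟨i, by omega⟩ : Fin (R + 1))
    have h6 := h.ez (⟨i, by omega⟩ : Fin (R + 1))
    rw [← h5, ← h6] at h4
    exact h4

theorem sl (h : Sol R a S z ql qr zF) (hA : Adm R a S) (i : ℕ) (hi : i < R) (hS : S i = true) :
    (z (i + 1)).re - (ql (i + 1)).im < Real.pi / 2 := by
  rcases Nat.lt_or_ge (a (i + 1)) 3 with h2 | h3
  · have h2' : a (i + 1) = 2 := by
      have := hA.ha (i + 1) hi
      omega
    have h4 := h.tl hA i hi h2'
    have h5 := h.crt.eq_re (i + 1) hi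
    rw [h2'] at h5
    push_cast at h5
    have h6 : 0 ≤ (qr (i + 1)).im := by
      rcases Nat.lt_or_ge (i + 1) R with h0 | h0
      · exact (h.tr hA (i + 1) h0 h2').le
      · have e : i + 1 = R := by omega
        rw [e, h.crt.rR, zero_im]
    linarith
  · have h4 := (h.zr.sr_three (i := (⟨i + 1, by omega⟩ : Fin (R + 1))) (three_aF.2 h3)).1
    have h5 := h.l_im (⟨i + 1, by omega⟩ : Fin (R + 1))
    have h6 := h.ez (⟨i + 1, by omega⟩ : Fin (R + 1))
    rw [← h5, ← h6] at h4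
    exact h4

theorem vr (h : Sol R a S z ql qr zF) (i : ℕ) (hi : i < R)
    (ha : 5 ≤ a i ∨ (a i = 4 ∧ i = 0)) :
    |(qr i).im| < Real.pi / 4 ∧ 0 < (sy (qr i) (z i) - z i / Real.pi).re := by
  have hp := h.crt.rre i hi
  have e1 := h.er (⟨i, by omega⟩ : Fin (R + 1))
  have e2 := h.ez (⟨i, by omega⟩ : Fin (R + 1))
  have ha' : 5 ≤ aF R a (⟨i, by omega⟩ : Fin (R + 1)) ∨
      (aF R a (⟨i, by omega⟩ : Fin (R + 1)) = 4 ∧ nlF R S (⟨i, by omega⟩ : Fin (R + 1)) = none) := by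
    rcases ha with ha | ⟨ha, h0⟩
    · left
      show (5 : ℝ) ≤ (a i : ℝ)
      exact_mod_cast ha
    · right
      refine ⟨?_, nlF_none.2 h0⟩
      show (a i : ℝ) = 4
      rw [ha]
      norm_num
  change qr i = _ at e1
  change z i = _ at e2
  rw [e1, as_re] at hp
  have h1 := h.zr.open_r ha' hp
  rw [← as_im, ← e1, ← e2] at h1
  exact h1

theorem vl (h : Sol R a S z ql qr zF) (i : ℕ) (hi : i < R)
    (ha : 5 ≤ a (i + 1) ∨ (a (i + 1) = 4 ∧ i + 1 = R)) :
    |(ql (i + 1)).im| < Real.pi / 4 ∧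
      0 < (sy (ql (i + 1)) (z (i + 1)) - z (i + 1) / Real.pi).re := by
  have hp := h.crt.lre i hi
  have e1 := h.el (⟨i + 1, by omega⟩ : Fin (R + 1))
  have e2 := h.ez (⟨i + 1, by omega⟩ : Fin (R + 1))
  have ha' : 5 ≤ aF R a (⟨i + 1, by omega⟩ : Fin (R + 1)) ∨
      (aF R a (⟨i + 1, by omega⟩ : Fin (R + 1)) = 4 ∧
        nrF R S (⟨i + 1, by omega⟩ : Fin (R + 1)) = none) := by
    rcases ha with ha | ⟨ha, h0⟩
    · left
      show (5 : ℝ) ≤ (a (i + 1) : ℝ)
      exact_mod_cast ha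
    · right
      refine ⟨?_, nrF_none.2 h0⟩
      show (a (i + 1) : ℝ) = 4
      rw [ha]
      norm_num
  change ql (i + 1) = _ at e1
  change z (i + 1) = _ at e2
  rw [e1, as_re] at hp
  have h1 := h.zr.open_l ha' hp
  rw [← as_im, ← e1, ← e2] at h1
  exact h1

/-- **The bounds at the critical point**, from those at the vertices with three or four half
twists. -/
theorem bx (h : Sol R a S z ql qr zF) (hA : Adm R a S) (f0 : a 0 = 3 → fl 0 = false)
    (fm : a R = 3 → fl R = true)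
    (three : ∀ i, i ≤ R → a i = 3 → O3 (qB' fl ql qr i) (qO' fl ql qr i))
    (four : ∀ i, 0 < i → i < R → a i = 4 → O4 (ql i) (qr i)) : BxG R a S fl z ql qr :=
  ⟨h.sr hA, h.sl hA, h.tl hA, h.tr hA, f0, fm, three, four, h.vr, h.vl⟩

end Sol

/-- **The solution of block E.** -/
theorem exists_sol {R : ℕ} {a : ℕ → ℕ} {S : ℕ → Bool} (h : Adm R a S)
    (harg : ∀ z, Zr true (aF R a) (nlF R S) (nrF R S) (E.gC (aF R a) (nlF R S) (nrF R S)) 1 z →
      ∀ i, aF R a i = 2 → -(cos (z i)).im < (cos (z i)).re) :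
    ∃ (z ql qr : ℕ → ℂ) (zF : Fin (R + 1) → ℂ), Sol R a S z ql qr zF := by
  obtain ⟨z, ql, qr, zF, h1, h2, h3, h4, h5⟩ := exists_crt'' h harg
  exact ⟨z, ql, qr, zF, h1, h2, h3, h4, h5⟩

end Pool.Agent.S5
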