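import Pool.Agent.S5.BxOf
import Pool.Agent.S5.I.Ori

/-!
# Mixed chains: the bounds `CBd.v` at the open nodes
-/

set_option autoImplicit false

namespace Pool.Agent.S5

open Real
open Pool.Agent.S5.E

/-- `R ≤ 0.8765`, `a ≥ 4`. -/
theorem E.Vx.R4 {a R I ρ₁ β₁ p₁ r₁ ρ₂ β₂ p₂ r₂ : ℝ}
    (h : E.Vx a R I ρ₁ β₁ p₁ r₁ ρ₂ β₂ p₂ r₂) (ha : 4 ≤ a) (i₁ : E.In ρ₁ β₁)
    (i₂ : E.In ρ₂ β₂) : R ≤ 0.8765 := by
  have hp' := pi_lt_d4
  rcases le_total (TT R I) 1.04 with hT | hT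
  · have h2 := h.aRG i₁ i₂ hT
    have h3 := h.GI hT
    have h4 : sin (2 * R) ≤ 1 := sin_le_one _
    rcases le_total 0 (R - GA (TT R I) * I) with h5 | h5
    · have := mul_le_mul_of_nonneg_right ha h5
      linarith only [this, h4, h3, h2, hp']
    · linarith only [h5, h4, h3]
  · have h1 := h.sl₁.r_nonneg h.R0 h.R1 h.I0 i₁ hT
    have h2 := h.sl₂.r_nonneg h.R0 h.R1 h.I0 i₂ hT
    have h3 := mul_le_mul_of_nonneg_right ha h.R0.le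
    linarith only [h.hR, h3, h2, h1, hp']

/-- The field `v` of `CBd`. -/
theorem Sol.v {R : ℕ} {a : ℕ → ℕ} {S : ℕ → Bool} {z ql qr : ℕ → ℂ} {zF : Fin (R + 1) → ℂ}
    (h : Sol R a S z ql qr zF) (i : ℕ) (hi : i ≤ R)
    (ha : 5 ≤ a i ∨ (a i = 4 ∧ (i = 0 ∨ i = R))) : (z i).re < x1O a i * π := by
  have hp := pi_gt_d4
  have e2 := h.ez (⟨i, by omega⟩ : Fin (R + 1))
  change z i = _ at e2
  have hv := h.zr.vx (⟨i, by omega⟩ : Fin (R + 1))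
  have i₁ := h.zr.in_slot (nlF R S (⟨i, by omega⟩ : Fin (R + 1)))
  have i₂ := h.zr.in_slot (nrF R S (⟨i, by omega⟩ : Fin (R + 1)))
  rw [← e2] at hv
  unfold x1O
  rcases ha with ha | ⟨ha, -⟩
  · rw [if_neg (by omega)]
    have h5 : (5 : ℝ) ≤ aF R a (⟨i, by omega⟩ : Fin (R + 1)) := by
      show (5 : ℝ) ≤ (a i : ℝ)
      exact_mod_cast ha
    have := hv.R5 h5 i₁ i₂
    linarith only [this, hp]
  · rw [if_pos ha]
    have h5 : (4 : ℝ) ≤ aF R a (⟨i, by omega⟩ : Fin (R + 1)) := by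
      show (4 : ℝ) ≤ (a i : ℝ)
      exact_mod_cast ha.ge
    have := hv.R4 h5 i₁ i₂
    linarith only [this, hp]

end Pool.Agent.S5
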