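import Pool.Agent.S5.G.Nd4
import Pool.Agent.S5.G.NdD
import Pool.Agent.S5.G.Vol
import Pool.Agent.S5.S.Defs

/-!
# Mixed chains: the critical point

`r : ℕ → ℤ` are the numbers of half twists (`c i = r i`), `z`, `ql`, `qr` the solution of block E.
Everything is defined in the frame of the vertex (`sy`, `zz3`, `zz4`, `z / π`) and transported by the
conjugation `sg` if `0 < r i`.
-/

set_option autoImplicit false

namespace Pool.Agent.S5

open Complex Pool.Agent.H63.VC3 Pool.Agent.S3 Pool.Agent.S5.G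
open scoped ComplexConjugate

/-- The type of the node `i`: closed if `|r i| = 2`; with a lattice variable if `|r i| = 3`, or
`|r i| = 4` inside; with an integration variable otherwise. -/
def tyG (m : ℕ) (r : ℕ → ℤ) (i : ℕ) : Ty :=
  if (r i).natAbs = 2 then Ty.cl
  else if (r i).natAbs = 3 ∨ ((r i).natAbs = 4 ∧ i ≠ 0 ∧ i ≠ m) then Ty.zn else Ty.vn

/-- The chain; `fl i = true` if the slot of the Bailey step is the right one. -/
def chG (m : ℕ) (r : ℕ → ℤ) (fl : ℕ → Bool) : Ch m where
  c i := r i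
  ty i := tyG m r i
  fl i := fl i

/-- Transport from the frame of a vertex: conjugation if `0 < s`. -/
noncomputable def sg (s : ℤ) (w : ℂ) : ℂ := if s < 0 then w else conj w

/-- The slot of the Bailey step. -/
noncomputable def qB' (fl : ℕ → Bool) (ql qr : ℕ → ℂ) (i : ℕ) : ℂ := if fl i then qr i else ql i

/-- The other slot. -/
noncomputable def qO' (fl : ℕ → Bool) (ql qr : ℕ → ℂ) (i : ℕ) : ℂ := if fl i then ql i else qr i

/-- The variables of the edges: `sy (qr j) (z j)` in the frame of the vertex `j`. -/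
noncomputable def ycG {m : ℕ} (r : ℕ → ℤ) (z qr : ℕ → ℂ) (j : Fin m) : ℂ :=
  sg (r j) (sy (qr j) (z j))

/-- The variables of the vertices: `z i / π` if `r i < 0`, `-conj (z i / π)` if `0 < r i`. -/
noncomputable def vcG (r : ℕ → ℤ) (z : ℕ → ℂ) (i : ℕ) : ℂ :=
  if r i < 0 then z i / Real.pi else -conj (z i / Real.pi)

/-- The own variables of the nodes. -/
noncomputable def ocG (m : ℕ) (r : ℕ → ℤ) (fl : ℕ → Bool) (z ql qr : ℕ → ℂ) (i : ℕ) : ℂ :=
  match tyG m r i with
  | .cl => 0
  | .zn => sg (r i) (if (r i).natAbs = 3 then zz3 (qB' fl ql qr i) (qO' fl ql qr i) (z i)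
      else zz4 (qB' fl ql qr i) (qO' fl ql qr i) (z i))
  | .vn => vcG r z i

/-- The constants of the nodes. -/
noncomputable def kcG (m : ℕ) (r : ℕ → ℤ) (i : ℕ) : ℂ :=
  match tyG m r i with
  | .cl => (r i).sign * Real.pi * I / 2
  | .zn => if (r i).natAbs = 3 then -((r i).sign * Real.pi * I / 4) else
      (r i).sign * Real.pi * I / 2
  | .vn => 0

/-- The bounds at the critical point, besides `CrtM`, which are used for the critical point of the
potential. -/
structure BxG (m : ℕ) (a : ℕ → ℕ) (S fl : ℕ → Bool) (z ql qr : ℕ → ℂ) : Prop where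
  /-- the slots of edges with equal signs -/
  sr : ∀ i, i < m → S i = true → (z i).re - (qr i).im < Real.pi / 2
  sl : ∀ i, i < m → S i = true → (z (i + 1)).re - (ql (i + 1)).im < Real.pi / 2
  /-- two half twists -/
  tl : ∀ i, i < m → a (i + 1) = 2 → 0 < (ql (i + 1)).im
  tr : ∀ i, i < m → a i = 2 → 0 < (qr i).im
  /-- three half twists -/
  f0 : a 0 = 3 → fl 0 = false
  fm : a m = 3 → fl m = true
  three : ∀ i, i ≤ m → a i = 3 → O3 (qB' fl ql qr i) (qO' fl ql qr i)
  /-- four half twists -/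
  four : ∀ i, 0 < i → i < m → a i = 4 → O4 (ql i) (qr i)
  /-- more half twists, and the ends with four half twists -/
  vr : ∀ i, i < m → 5 ≤ a i ∨ (a i = 4 ∧ i = 0) → |(qr i).im| < Real.pi / 4 ∧
    0 < (sy (qr i) (z i) - z i / Real.pi).re
  vl : ∀ i, i < m → 5 ≤ a (i + 1) ∨ (a (i + 1) = 4 ∧ i + 1 = m) →
    |(ql (i + 1)).im| < Real.pi / 4 ∧ 0 < (sy (ql (i + 1)) (z (i + 1)) - z (i + 1) / Real.pi).re

/-- The potential with integration variables at all the vertices. -/
noncomputable def WVG (m : ℕ) (r : ℕ → ℤ) (z qr : ℕ → ℂ) : ℂ :=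
  WV (fun i : Fin (m + 1) => (r i : ℝ) / 2) (ycG (m := m) r z qr) (fun i : Fin (m + 1) => vcG r z i)

end Pool.Agent.S5
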