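import Pool.Agent.S5.I.Ori
import Pool.Agent.S5.BxOf
import Pool.Agent.S5.E.T.Chain

/-!
# Stage 3b: the context of the statements of the nodes

`Ctx T R a S r z ql qr zF`: the chain is admissible, `z, ql, qr` is its critical point, and for every
edge the numbers `cos z` of its two vertices are in the regions of the table `T`. Every statement about
the nodes of a class is a theorem with the hypothesis `Ctx Tf R a S r z ql qr zF` (`Tf` the final table).

In the frame of the node `i` the right slot (`i < R`) has `κ = cos (z i)`, `b = kp (S i) (cos (z (i + 1)))`,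
`sinh (qr i) = b tan (z i)`, the variable `sy (qr i) (z i)` and the slope `2 (log b - log κ)`; the left slot
(`0 < i`) has `b = kp (S (i - 1)) (cos (z (i - 1)))`, `ql i`. The equation is
`a i * z i = π + I (ql i + qr i)`, with `ql 0 = 0`, `qr R = 0`.
-/

set_option autoImplicit false

namespace Pool.Agent.S5

open Complex
open Pool.Agent.S5.E (Vt kd aF nlF nrF nF vL vR)
open Pool.Agent.S5.E.B2 (InR)
open Pool.Agent.S5.G (kp Sd sy)

/-- The context of the bounds at the critical point. -/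
structure Pre (T : Vt → Vt → E.B2.Rg) (R : ℕ) (a : ℕ → ℕ) (S : ℕ → Bool)
    (z ql qr : ℕ → ℂ) (zF : Fin (R + 1) → ℂ) : Prop where
  adm : AdmS R a S
  ne : ¬(R = 1 ∧ a 0 = 2 ∧ a 1 = 2)
  sol : Sol R a S z ql qr zF
  tab : E.Tab T (nF R a) (nlF R S) (nrF R S) zF

/-- The context of the statements of the nodes. -/
structure Ctx (T : Vt → Vt → E.B2.Rg) (R : ℕ) (a : ℕ → ℕ) (S : ℕ → Bool) (r : ℕ → ℤ)
    (z ql qr : ℕ → ℂ) (zF : Fin (R + 1) → ℂ) : Prop extends Pre T R a S z ql qr zF where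
  hg : HG R a S (flO R a S) z ql qr r (KO R a S r z ql qr)
  cbd : CBd R a S z ql qr

namespace Pre

variable {T : Vt → Vt → E.B2.Rg} {R : ℕ} {a : ℕ → ℕ} {S : ℕ → Bool} {z ql qr : ℕ → ℂ}
  {zF : Fin (R + 1) → ℂ}

/-! ### The combinatorics -/

/-- The two ends of an edge. -/
theorem at_l {i : ℕ} (hi : i < R) : E.At (nlF R S) (nrF R S) (⟨i, by omega⟩ : Fin (R + 1))
    (some ((⟨i + 1, by omega⟩ : Fin (R + 1)), S i)) (nlF R S (⟨i, by omega⟩ : Fin (R + 1))) :=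
  Or.inr ⟨rfl, E.nrF_iff.2 ⟨rfl, rfl⟩⟩

theorem at_r {i : ℕ} (hi : i < R) : E.At (nlF R S) (nrF R S) (⟨i + 1, by omega⟩ : Fin (R + 1))
    (some ((⟨i, by omega⟩ : Fin (R + 1)), S i)) (nrF R S (⟨i + 1, by omega⟩ : Fin (R + 1))) :=
  Or.inl ⟨E.nlF_iff.2 ⟨rfl, rfl⟩, rfl⟩

theorem vR_eq' {i : ℕ} (hi : i < R) : (⟨nF R a (⟨i, by omega⟩ : Fin (R + 1)), S i,
    kd (nlF R S (⟨i, by omega⟩ : Fin (R + 1)))⟩ : Vt) = vR a S i :=
  E.vR_eq (i := ⟨i, by omega⟩)

theorem vL_eq' {i : ℕ} (hi : i < R) : (⟨nF R a (⟨i + 1, by omega⟩ : Fin (R + 1)), S i,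
    kd (nrF R S (⟨i + 1, by omega⟩ : Fin (R + 1)))⟩ : Vt) = vL R a S (i + 1) :=
  E.vL_eq (i := ⟨i + 1, by omega⟩)

theorem ok_r (h : Pre T R a S z ql qr zF) {i : ℕ} (hi : i < R) : (vR a S i).ok = true := by
  rw [← vR_eq' hi]
  exact (E.chT_of_adm h.adm).v _ _ _ _ (at_l hi)

theorem ok_l (h : Pre T R a S z ql qr zF) {i : ℕ} (hi : i < R) :
    (vL R a S (i + 1)).ok = true := by
  rw [← vL_eq' hi]
  exact (E.chT_of_adm h.adm).v _ _ _ _ (at_r hi)

theorem vL_inner {i : ℕ} (hi : i + 1 < R) : vL R a S (i + 1) = ⟨min (a (i + 1)) 8, S i,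
    some (S (i + 1))⟩ := by
  unfold E.vL
  rw [if_neg (by omega)]
  rfl

theorem vR_inner {i : ℕ} : vR a S (i + 1) = ⟨min (a (i + 1)) 8, S (i + 1), some (S i)⟩ := by
  unfold E.vR
  rw [if_neg (by omega)]
  rfl

/-- The neighbours of an inner node are admissible. -/
theorem adm_l (h : Pre T R a S z ql qr zF) {i : ℕ} (hi : i + 1 < R) :
    E.adm (vL R a S (i + 1)) (vR a S i) (vL R a S (i + 2)) = true := by
  have h1 := (E.chT_of_adm h.adm).d (⟨i + 1, by omega⟩ : Fin (R + 1)) ⟨i, by omega⟩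
    ⟨i + 2, by omega⟩ (S i) (S (i + 1)) _ _
    (Or.inl ⟨E.nlF_iff.2 ⟨rfl, rfl⟩, E.nrF_iff.2 ⟨rfl, rfl⟩⟩) (at_l (by omega)) (at_r hi)
  rw [vR_eq' (by omega : i < R), vL_eq' hi] at h1
  rw [vL_inner hi]
  exact h1

theorem adm_r (h : Pre T R a S z ql qr zF) {i : ℕ} (hi : i + 1 < R) :
    E.adm (vR a S (i + 1)) (vL R a S (i + 2)) (vR a S i) = true := by
  have h1 := (E.chT_of_adm h.adm).d (⟨i + 1, by omega⟩ : Fin (R + 1)) ⟨i + 2, by omega⟩
    ⟨i, by omega⟩ (S (i + 1)) (S i) _ _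
    (Or.inr ⟨E.nlF_iff.2 ⟨rfl, rfl⟩, E.nrF_iff.2 ⟨rfl, rfl⟩⟩) (at_r hi) (at_l (by omega))
  rw [vR_eq' (by omega : i < R), vL_eq' hi] at h1
  rw [vR_inner]
  exact h1

/-! ### The regions -/

/-- The right neighbour of the node `i`. -/
theorem rr (h : Pre T R a S z ql qr zF) {i : ℕ} (hi : i < R) :
    InR (T (vL R a S (i + 1)) (vR a S i)) (cos (z (i + 1))).re (-(cos (z (i + 1))).im) := by
  have e : z (i + 1) = zF ⟨i + 1, by omega⟩ := h.sol.ez ⟨i + 1, by omega⟩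
  rw [e]
  exact (h.tab.chain hi).2

/-- The left neighbour of the node `i + 1`. -/
theorem rl (h : Pre T R a S z ql qr zF) {i : ℕ} (hi : i < R) :
    InR (T (vR a S i) (vL R a S (i + 1))) (cos (z i)).re (-(cos (z i)).im) := by
  have e : z i = zF ⟨i, by omega⟩ := h.sol.ez ⟨i, by omega⟩
  rw [e]
  exact (h.tab.chain hi).1

end Pre

/-! ### The slots -/

namespace Ctx

variable {T : Vt → Vt → E.B2.Rg} {R : ℕ} {a : ℕ → ℕ} {S : ℕ → Bool} {r : ℕ → ℤ}
  {z ql qr : ℕ → ℂ} {zF : Fin (R + 1) → ℂ}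

/-- The data of the right slot. -/
theorem sdr (h : Ctx T R a S r z ql qr zF) {i : ℕ} (hi : i < R) :
    Sd (S i) (cos (z (i + 1))) (qr i) (z i) := h.hg.sdr i hi

/-- The data of the left slot. -/
theorem sdl (h : Ctx T R a S r z ql qr zF) {i : ℕ} (hi : i < R) :
    Sd (S i) (cos (z i)) (ql (i + 1)) (z (i + 1)) := h.hg.sdl i hi

theorem slR_mk {i : ℕ} (hi : i < R) : slR R a S z qr i =
    ⟨true, S i, ntG R a (i + 1), z1O R a S (i + 1), sy (qr i) (z i),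
      2 * (log (kp (S i) (cos (z (i + 1)))) - log (cos (z i)))⟩ := by
  unfold slR
  rw [decide_eq_true hi]

theorem slL_mk {i : ℕ} : slL R a S z ql (i + 1) =
    ⟨true, S i, ntG R a i, z1O R a S i, sy (ql (i + 1)) (z (i + 1)),
      2 * (log (kp (S i) (cos (z i))) - log (cos (z (i + 1))))⟩ := rfl

/-- The missing slots. -/
theorem slR_R (h : Ctx T R a S r z ql qr zF) : (slR R a S z qr R).ex = false ∧
    (slR R a S z qr R).ys = 1 / 2 :=
  ⟨decide_eq_false (lt_irrefl R), h.hg.slR_last⟩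

theorem slL_0 (h : Ctx T R a S r z ql qr zF) : (slL R a S z ql 0).ex = false ∧
    (slL R a S z ql 0).ys = 1 / 2 :=
  ⟨rfl, h.hg.slL_zero⟩

end Ctx

end Pool.Agent.S5
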