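import Pool.Agent.S5.GeoD
import Pool.Agent.S5.G.NodeT

/-!
# Mixed chains: the critical point of the potential
-/

set_option autoImplicit false

namespace Pool.Agent.S5

open Complex Pool.Agent.H63.VC Pool.Agent.H63.VC3 Pool.Agent.S3 Pool.Agent.S5.G Pool.Agent.H1TB
open Pool.Agent.S3.G (arg_up arg_quad pi_ne fe_lim_zero Yy sin_ne cos_ne fdo vsP dwr dsP)
open Pool.Agent.H63.VC7 (inc)
open scoped ComplexConjugate BigOperators

/-- The data of the critical point. -/
structure HG (m : ℕ) (a : ℕ → ℕ) (S fl : ℕ → Bool) (z ql qr : ℕ → ℂ) (r : ℕ → ℤ) (K : Cn m) :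
    Prop where
  crt : CrtM m a S z ql qr
  bx : BxG m a S fl z ql qr
  abs : ∀ i, i ≤ m → (r i).natAbs = a i
  sgn : ∀ i, i < m → (S i = true ↔ 0 < r i * r (i + 1))
  yc : K.yc = ycG r z qr
  oc : K.oc = fun i : Fin (m + 1) => ocG m r fl z ql qr (i : ℕ)

variable {m : ℕ} {a : ℕ → ℕ} {S fl : ℕ → Bool} {z ql qr : ℕ → ℂ} {r : ℕ → ℤ} {K : Cn m}

/-! ### The slots -/

theorem HG.sdr (h : HG m a S fl z ql qr r K) (i : ℕ) (hi : i < m) :
    Sd (S i) (cos (z (i + 1))) (qr i) (z i) := by
  obtain ⟨c1, c2, c3⟩ := h.crt.cosz (i + 1) hi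
  exact ⟨(h.crt.zre i hi.le).1, (h.crt.zre i hi.le).2, h.crt.zim i hi.le, c1, c2, c3,
    h.crt.sr i hi, h.crt.rre i hi, (h.crt.rim i hi).1, (h.crt.rim i hi).2, h.crt.rimo i hi,
    h.crt.ssr i hi, h.bx.sr i hi⟩

theorem HG.sdl (h : HG m a S fl z ql qr r K) (i : ℕ) (hi : i < m) :
    Sd (S i) (cos (z i)) (ql (i + 1)) (z (i + 1)) := by
  obtain ⟨c1, c2, c3⟩ := h.crt.cosz i hi.le
  exact ⟨(h.crt.zre (i + 1) hi).1, (h.crt.zre (i + 1) hi).2, h.crt.zim (i + 1) hi, c1, c2, c3,
    h.crt.sl i hi, h.crt.lre i hi, (h.crt.lim i hi).1, (h.crt.lim i hi).2, h.crt.limo i hi,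
    h.crt.ssl i hi, h.bx.sl i hi⟩

theorem HG.karg (h : HG m a S fl z ql qr r K) (s : Bool) (i : ℕ) (hi : i ≤ m) :
    -(Real.pi / 4) < (kp s (cos (z i))).arg ∧ (kp s (cos (z i))).arg < Real.pi / 4 := by
  have hpi := Real.pi_pos
  obtain ⟨h1, h2⟩ := h.crt.arg i hi
  cases s
  · rw [kp_false, arg_conj, if_neg (by linarith only [h2, hpi])]
    constructor <;> linarith
  · rw [kp_true]
    constructor <;> linarith

/-- `tan (π y)` in the frame of the left vertex of an edge. -/
theorem HG.tanr (h : HG m a S fl z ql qr r K) (i : ℕ) (hi : i < m) :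
    tan (Real.pi * sy (qr i) (z i)) = cosh (qr i) / kp (S i) (cos (z (i + 1))) ∧
      (cosh (qr i) / kp (S i) (cos (z (i + 1)))) ^ 2 =
        1 / (cos (z i)) ^ 2 + 1 / (kp (S i) (cos (z (i + 1)))) ^ 2 - 1 :=
  ⟨(h.sdr i hi).tan_eq, (h.sdr i hi).tan_sq⟩

/-- `tan (π y)` in the frame of the right vertex of an edge. -/
theorem HG.tanl (h : HG m a S fl z ql qr r K) (i : ℕ) (hi : i < m) :
    tan (Real.pi * sy (ql (i + 1)) (z (i + 1))) = cosh (ql (i + 1)) / kp (S i) (cos (z i)) ∧
      (cosh (ql (i + 1)) / kp (S i) (cos (z i))) ^ 2 =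
        1 / (cos (z (i + 1))) ^ 2 + 1 / (kp (S i) (cos (z i))) ^ 2 - 1 :=
  ⟨(h.sdl i hi).tan_eq, (h.sdl i hi).tan_sq⟩

theorem HG.r_ne (h : HG m a S fl z ql qr r K) (i : ℕ) (hi : i ≤ m) : r i ≠ 0 := by
  intro h0
  have h1 := h.abs i hi
  have h2 := h.crt.ha i hi
  rw [h0] at h1
  simp at h1
  omega

/-- The two slots of an edge. -/
theorem HG.sy_next (h : HG m a S fl z ql qr r K) (j : ℕ) (hj : j < m) :
    sy (ql (j + 1)) (z (j + 1)) = kp (S j) (sy (qr j) (z j)) := by
  have h1 := h.sdr j hj
  have h2 := h.sdl j hj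
  have e1 := h1.expY
  have e2 := h2.expY
  have p1 := h1.slot.sy_re
  have p2 := h2.slot.sy_re
  rcases hS : S j with _ | _
  · rw [kp_false]
    apply sy_unique _ p2.1 (by linarith only [p2.2, p1.2, p1.1]) (by rw [conj_re]; exact p1.1)
      (by rw [conj_re]; linarith only [p1.2])
    have e3 := h.crt.Y_opp j hj hS
    have e4 : exp (2 * Real.pi * I * conj (sy (qr j) (z j))) = (conj (YrM S z qr j))⁻¹ := by
      have : 2 * Real.pi * I * conj (sy (qr j) (z j)) =
          -conj (2 * Real.pi * I * sy (qr j) (z j)) := by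
        simp only [map_mul, conj_I, conj_ofReal, map_ofNat]
        ring
      rw [this, exp_neg, exp_conj, e1]
      rfl
    rw [e4, e2]
    exact eq_inv_of_mul_eq_one_left e3
  · rw [kp_true]
    apply sy_unique _ p2.1 (by linarith only [p2.2, p1.2, p1.1]) p1.1 (by linarith only [p1.2])
    have e3 := h.crt.Y_same j hj hS
    rw [e1, e2]
    exact e3

theorem HG.sg_next (h : HG m a S fl z ql qr r K) (j : ℕ) (hj : j < m) (w : ℂ) :
    sg (r (j + 1)) (kp (S j) w) = sg (r j) w := by
  have hs := h.sgn j hj
  have n1 := h.r_ne j hj.le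
  have n2 := h.r_ne (j + 1) hj
  unfold sg
  rcases hS : S j with _ | _
  · rw [kp_false]
    have hlt : ¬ 0 < r j * r (j + 1) := fun h0 => by
      have := hs.2 h0
      rw [hS] at this
      exact absurd this (by simp)
    by_cases hn : r j < 0
    · have hn' : ¬ r (j + 1) < 0 := fun h0 => hlt (mul_pos_of_neg_of_neg hn h0)
      rw [if_neg hn', if_pos hn, conj_conj]
    · have hn' : r (j + 1) < 0 := by
        by_contra h0
        exact hlt (mul_pos (by omega) (by omega))
      rw [if_pos hn', if_neg hn]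
  · rw [kp_true]
    have hlt := hs.1 hS
    by_cases hn : r j < 0
    · have hn' : r (j + 1) < 0 := by
        by_contra h0
        have := mul_nonpos_of_nonpos_of_nonneg hn.le (not_lt.1 h0)
        omega
      rw [if_pos hn', if_pos hn]
    · have hn' : ¬ r (j + 1) < 0 := fun h0 => by
        have := mul_nonpos_of_nonneg_of_nonpos (not_lt.1 hn) h0.le
        omega
      rw [if_neg hn', if_neg hn]

/-- The variable of an edge in the frame of its right vertex. -/
theorem HG.yc_next (h : HG m a S fl z ql qr r K) (j : Fin m) :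
    K.yc j = sg (r (j + 1)) (sy (ql (j + 1)) (z (j + 1))) := by
  rw [h.sy_next j j.isLt, h.sg_next j j.isLt, h.yc]
  rfl

theorem sg_re (s : ℤ) (w : ℂ) : (sg s w).re = w.re := by
  unfold sg
  by_cases h : s < 0
  · rw [if_pos h]
  · rw [if_neg h, conj_re]

theorem HG.yc_re (h : HG m a S fl z ql qr r K) (j : Fin m) :
    0 < (K.yc j).re ∧ (K.yc j).re < 1 / 2 := by
  have h1 := h.sdr j j.isLt
  rw [h.yc]
  unfold ycG
  rw [sg_re]
  exact ⟨h1.slot.sy_re.1, h1.re_lt⟩

/-! ### The nodes -/

theorem tyG_two {i : ℕ} (h : (r i).natAbs = 2) : tyG m r i = Ty.cl := if_pos h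

theorem tyG_three {i : ℕ} (h : (r i).natAbs = 3) : tyG m r i = Ty.zn := by
  unfold tyG
  rw [if_neg (by omega), if_pos (Or.inl h)]

theorem tyG_four {i : ℕ} (h : (r i).natAbs = 4) (h0 : i ≠ 0) (h1 : i ≠ m) :
    tyG m r i = Ty.zn := by
  unfold tyG
  rw [if_neg (by omega), if_pos (Or.inr ⟨h, h0, h1⟩)]

theorem tyG_vn {i : ℕ} (h : 3 < (r i).natAbs) (h0 : (r i).natAbs = 4 → i = 0 ∨ i = m) :
    tyG m r i = Ty.vn := by
  unfold tyG
  rw [if_neg (by omega), if_neg (by
    rintro (h2 | ⟨h2, h3, h4⟩)
    · omega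
    · rcases h0 h2 with h5 | h5
      · exact h3 h5
      · exact h4 h5)]

/-- The own variable in the frame of the vertex. -/
noncomputable def oF (m : ℕ) (r : ℕ → ℤ) (fl : ℕ → Bool) (z ql qr : ℕ → ℂ) (i : ℕ) : ℂ :=
  match tyG m r i with
  | .cl => 0
  | .zn => if (r i).natAbs = 3 then zz3 (qB' fl ql qr i) (qO' fl ql qr i) (z i)
      else zz4 (qB' fl ql qr i) (qO' fl ql qr i) (z i)
  | .vn => z i / Real.pi

/-- The constant in the frame of the vertex. -/
noncomputable def kF (m : ℕ) (r : ℕ → ℤ) (i : ℕ) : ℂ :=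
  match tyG m r i with
  | .cl => -(Real.pi * I / 2)
  | .zn => if (r i).natAbs = 3 then Real.pi * I / 4 else -(Real.pi * I / 2)
  | .vn => 0

/-- The nodes in the frame of the vertex. -/
theorem HG.frame (h : HG m a S fl z ql qr r K) (i : ℕ) (hi : i ≤ m) :
    SF (ql i) (z i) ∧ SF (qr i) (z i) ∧
      NodeF (-(a i : ℤ)) (tyG m r i) (fl i) (oF m r fl z ql qr i) (sy (ql i) (z i))
        (sy (qr i) (z i)) (z i / Real.pi) (kF m r i) := by
  have hpi := Real.pi_pos
  have hm := h.crt.hR
  have ha := h.crt.ha i hi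
  have hab := h.abs i hi
  have heq := h.crt.eq i hi
  have z0 := h.crt.zre i hi
  have z1 := h.crt.zim i hi
  rcases Nat.lt_or_ge (a i) 3 with h2 | h2
  · -- two half twists
    have ha2 : a i = 2 := by omega
    have ht : tyG m r i = Ty.cl := tyG_two (by omega)
    have hk : kF m r i = -(Real.pi * I / 2) := by
      unfold kF
      rw [ht]
    rw [ha2] at heq
    rw [hk, ht, ha2]
    rcases Nat.lt_or_ge i m with him | him
    · have hO : O2 (qr i) (ql i) := by
        refine ⟨h.crt.rre i him, h.bx.tr i him ha2, (h.crt.rim i him).2, ?_, ?_⟩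
        · rcases Nat.eq_zero_or_pos i with h0 | h0
          · left
            rw [h0]
            exact h.crt.l0
          · right
            obtain ⟨k, rfl⟩ : ∃ k, i = k + 1 := ⟨i - 1, by omega⟩
            exact ⟨h.crt.lre k (by omega), h.bx.tl k (by omega) ha2⟩
        · rcases Nat.eq_zero_or_pos i with h0 | h0
          · rw [h0, h.crt.l0, zero_im]
            linarith only [hpi]
          · obtain ⟨k, rfl⟩ : ∃ k, i = k + 1 := ⟨i - 1, by omega⟩
            exact (h.crt.lim k (by omega)).2
      have hz : 2 * z i = Real.pi + I * (qr i + ql i) := by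
        push_cast at heq
        linear_combination heq
      have hN := hO.N2 hz
      exact ⟨hN.sfr, hN.sfp, hO.node' hz _ _⟩
    · have him' : i = m := by omega
      obtain ⟨k, rfl⟩ : ∃ k, i = k + 1 := ⟨i - 1, by omega⟩
      have hO : O2 (ql (k + 1)) (qr (k + 1)) := by
        refine ⟨h.crt.lre k (by omega), h.bx.tl k (by omega) ha2, (h.crt.lim k (by omega)).2,
          Or.inl ?_, ?_⟩
        · rw [him']
          exact h.crt.rR
        · rw [him', h.crt.rR, zero_im]
          linarith only [hpi]
      have hz : 2 * z (k + 1) = Real.pi + I * (ql (k + 1) + qr (k + 1)) := by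
        push_cast at heq
        linear_combination heq
      have hN := hO.N2 hz
      exact ⟨hN.sfp, hN.sfr, hO.node hz _ _⟩
  rcases Nat.lt_or_ge (a i) 4 with h3 | h3
  · -- three half twists
    have ha3 : a i = 3 := by omega
    have hn3 : (r i).natAbs = 3 := by omega
    have ht : tyG m r i = Ty.zn := tyG_three hn3
    have hk : kF m r i = Real.pi * I / 4 := by
      unfold kF
      rw [ht]
      exact if_pos hn3
    have ho : oF m r fl z ql qr i = zz3 (qB' fl ql qr i) (qO' fl ql qr i) (z i) := by
      unfold oF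
      rw [ht]
      exact if_pos hn3
    have hO := h.bx.three i hi ha3
    rw [ha3] at heq
    rw [hk, ht, ha3, ho]
    unfold qB' qO' at hO ⊢
    cases hf : fl i
    · rw [hf] at hO
      simp only [Bool.false_eq_true, if_false] at hO ⊢
      have hz : 3 * z i = Real.pi + I * (ql i + qr i) := by
        push_cast at heq
        linear_combination heq
      have hN := hO.N3 hz
      exact ⟨hN.sfp, hN.sfr, hO.node hz⟩
    · rw [hf] at hO
      simp only [if_true] at hO ⊢
      have hz : 3 * z i = Real.pi + I * (qr i + ql i) := by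
        push_cast at heq
        linear_combination heq
      have hN := hO.N3 hz
      exact ⟨hN.sfr, hN.sfp, hO.node' hz⟩
  by_cases h4 : a i = 4 ∧ i ≠ 0 ∧ i ≠ m
  · -- four half twists
    obtain ⟨ha4, hi0, him⟩ := h4
    have ht : tyG m r i = Ty.zn := tyG_four (by omega) hi0 him
    have hn3 : ¬ (r i).natAbs = 3 := by omega
    have hk : kF m r i = -(Real.pi * I / 2) := by
      unfold kF
      rw [ht]
      exact if_neg hn3
    have ho : oF m r fl z ql qr i = zz4 (qB' fl ql qr i) (qO' fl ql qr i) (z i) := by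
      unfold oF
      rw [ht]
      exact if_neg hn3
    have hO := h.bx.four i (by omega) (by omega) ha4
    rw [ha4] at heq
    rw [hk, ht, ha4, ho]
    unfold qB' qO'
    have hz : 4 * z i = Real.pi + I * (ql i + qr i) := by
      push_cast at heq
      linear_combination heq
    have hN := hO.N4 hz
    cases hf : fl i
    · simp only [Bool.false_eq_true, if_false]
      exact ⟨hN.sfp, hN.sfr, hO.node hz⟩
    · simp only [if_true]
      exact ⟨hN.sfp, hN.sfr, hO.symm.node' (by rw [hz]; ring)⟩
  · -- integration variable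
    have hc : 5 ≤ a i ∨ (a i = 4 ∧ (i = 0 ∨ i = m)) := by
      by_cases h5 : 5 ≤ a i
      · exact Or.inl h5
      · right
        have ha4 : a i = 4 := by omega
        refine ⟨ha4, ?_⟩
        by_contra hcon
        push Not at hcon
        exact h4 ⟨ha4, hcon.1, hcon.2⟩
    have ht : tyG m r i = Ty.vn := by
      apply tyG_vn (by omega)
      intro h5
      rcases hc with h6 | h6
      · omega
      · exact h6.2
    have hk : kF m r i = 0 := by
      unfold kF
      rw [ht]
    have ho : oF m r fl z ql qr i = z i / Real.pi := by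
      unfold oF
      rw [ht]
    have hl : SF (ql i) (z i) := by
      rcases Nat.eq_zero_or_pos i with h0 | h0
      · have := h.crt.l0
        rw [h0] at z0 z1 ⊢
        rw [this]
        exact SF_zero z0.1 z0.2 z1
      · obtain ⟨k, rfl⟩ : ∃ k, i = k + 1 := ⟨i - 1, by omega⟩
        obtain ⟨b1, b2⟩ := h.bx.vl k (by omega) (by
          rcases hc with h6 | ⟨h6, h7⟩
          · exact Or.inl h6
          · refine Or.inr ⟨h6, ?_⟩
            omega)
        exact SF_v (h.sdl k (by omega)).slot b1 b2
    have hr : SF (qr i) (z i) := by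
      rcases Nat.lt_or_ge i m with h0 | h0
      · obtain ⟨b1, b2⟩ := h.bx.vr i h0 (by
          rcases hc with h6 | ⟨h6, h7⟩
          · exact Or.inl h6
          · refine Or.inr ⟨h6, ?_⟩
            omega)
        exact SF_v (h.sdr i h0).slot b1 b2
      · have him : i = m := by omega
        have := h.crt.rR
        rw [him] at z0 z1 ⊢
        rw [this]
        exact SF_zero z0.1 z0.2 z1
    rw [hk, ht, ho]
    exact ⟨hl, hr, hl.node hr heq _⟩

/-- The nodes. -/
theorem HG.node (h : HG m a S fl z ql qr r K) (i : ℕ) (hi : i ≤ m) :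
    NodeF (r i) (tyG m r i) (fl i) (ocG m r fl z ql qr i) (sg (r i) (sy (ql i) (z i)))
      (sg (r i) (sy (qr i) (z i))) (vcG r z i) (kcG m r i) := by
  have h1 := (h.frame i hi).2.2
  have h2 := h.abs i hi
  have h3 := h.r_ne i hi
  by_cases hn : r i < 0
  · have e0 : r i = -(a i : ℤ) := by omega
    have e1 : (r i).sign = -1 := Int.sign_eq_neg_one_of_neg hn
    have e2 : ocG m r fl z ql qr i = oF m r fl z ql qr i := by
      unfold ocG oF sg vcG
      cases tyG m r i
      · rfl
      · simp only [if_pos hn]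
      · simp only [if_pos hn]
    have e3 : kcG m r i = kF m r i := by
      unfold kcG kF
      rw [e1]
      cases tyG m r i
      · push_cast
        ring
      · push_cast
        split_ifs <;> ring
      · rfl
    have e4 : sg (r i) (sy (ql i) (z i)) = sy (ql i) (z i) := if_pos hn
    have e5 : sg (r i) (sy (qr i) (z i)) = sy (qr i) (z i) := if_pos hn
    have e6 : vcG r z i = z i / Real.pi := if_pos hn
    rw [e2, e3, e4, e5, e6]
    rw [← e0] at h1
    exact h1
  · have e0 : r i = - -(a i : ℤ) := by omega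
    have e1 : (r i).sign = 1 := Int.sign_eq_one_of_pos (by omega)
    have e2 : ocG m r fl z ql qr i = sO (tyG m r i) (oF m r fl z ql qr i) := by
      unfold ocG oF sg vcG sO
      cases tyG m r i
      · simp
      · simp only [if_neg hn]
      · simp only [if_neg hn]
    have e3 : kcG m r i = conj (kF m r i) := by
      unfold kcG kF
      rw [e1]
      cases tyG m r i
      · simp only [map_neg, map_div₀, map_mul, conj_ofReal, conj_I, map_ofNat, Int.cast_one]
        ring
      · simp only
        split_ifs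
        · simp only [map_neg, map_div₀, map_mul, conj_ofReal, conj_I, map_ofNat, Int.cast_one]
          ring
        · simp only [map_neg, map_div₀, map_mul, conj_ofReal, conj_I, map_ofNat, Int.cast_one]
          ring
      · simp
    have e4 : sg (r i) (sy (ql i) (z i)) = conj (sy (ql i) (z i)) := if_neg hn
    have e5 : sg (r i) (sy (qr i) (z i)) = conj (sy (qr i) (z i)) := if_neg hn
    have e6 : vcG r z i = -conj (z i / Real.pi) := if_neg hn
    rw [e2, e3, e4, e5, e6]
    have := h1.conj
    rw [← e0] at this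
    exact this

/-- The slots of the nodes. -/
theorem HG.ye_l (h : HG m a S fl z ql qr r K) (i : ℕ) (hi : i ≤ m) :
    ye K.yc i = sg (r i) (sy (ql i) (z i)) := by
  unfold ye
  rcases Nat.eq_zero_or_pos i with h0 | h0
  · rw [dif_neg (by omega), h0, h.crt.l0,
      sy_zero (h.crt.zre 0 (by omega)).1 (h.crt.zre 0 (by omega)).2 (h.crt.zim 0 (by omega))]
    unfold sg
    split_ifs
    · rfl
    · rw [map_div₀, map_one, map_ofNat]
  · rw [dif_pos ⟨h0, hi⟩]
    have := h.yc_next ⟨i - 1, by omega⟩
    rw [this]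
    have e : i - 1 + 1 = i := by omega
    simp only [e]

theorem HG.ye_r (h : HG m a S fl z ql qr r K) (i : ℕ) (hi : i ≤ m) :
    ye K.yc (i + 1) = sg (r i) (sy (qr i) (z i)) := by
  unfold ye
  rcases Nat.lt_or_ge i m with h0 | h0
  · rw [dif_pos ⟨by omega, by omega⟩, h.yc]
    rfl
  · have e : i = m := by omega
    rw [dif_neg (by omega), e, h.crt.rR,
      sy_zero (h.crt.zre m le_rfl).1 (h.crt.zre m le_rfl).2 (h.crt.zim m le_rfl)]
    unfold sg
    split_ifs
    · rfl
    · rw [map_div₀, map_one, map_ofNat]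

theorem HG.nd (h : HG m a S fl z ql qr r K) (i : Fin (m + 1)) :
    NodeF ((chG m r fl).c i) ((chG m r fl).ty i) ((chG m r fl).fl i) (K.oc i) (ye K.yc i)
      (ye K.yc (i + 1)) (vcG r z i) (kcG m r i) := by
  have hi : (i : ℕ) ≤ m := by
    have := i.isLt
    omega
  rw [h.ye_l i hi, h.ye_r i hi, h.oc]
  exact h.node i hi

/-! ### The equations of the edges -/

/-- The variable of a vertex, transported. -/
noncomputable def vs (s : ℤ) (w : ℂ) : ℂ := if s < 0 then w else -conj w

theorem vcG_eq (i : ℕ) : vcG r z i = vs (r i) (z i / Real.pi) := rfl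

/-- The derivative of a slot. -/
theorem slot_der {s : Bool} {c q w : ℂ} (h : SF q w) (hd : Sd s c q w)
    (hk : -(Real.pi / 4) < (kp s c).arg ∧ (kp s c).arg < Real.pi / 4) (t : ℤ) :
    2 * hh (sg t (sy q w) + 1 / 2) - he (sg t (sy q w) - vs t (w / Real.pi)) -
      he (sg t (sy q w) + vs t (w / Real.pi)) = sg t (2 * (log (kp s c) - log (cos w))) := by
  have key := h.id hd hk
  unfold sg vs
  by_cases ht : t < 0
  · rw [if_pos ht, if_pos ht, if_pos ht]
    exact key
  · have hre := h.sl.sy_re
    have hlt := hd.re_lt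
    rw [if_neg ht, if_neg ht, if_neg ht, ← key]
    have hab : |(sy q w).re| < 1 / 2 := by
      rw [abs_lt]
      constructor <;> linarith
    rw [half_conj', hh_conj _ (strip_half hab).1 (strip_half hab).2,
      show conj (sy q w) - -conj (w / Real.pi) = conj (sy q w + w / Real.pi) by
        rw [map_add]; ring,
      show conj (sy q w) + -conj (w / Real.pi) = conj (sy q w - w / Real.pi) by
        rw [map_sub]; ring, G.he_conj' h.dm, G.he_conj' h.dp]
    simp only [map_sub, map_mul, map_ofNat]
    ring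

theorem sg_mul2 (t : ℤ) (u w : ℂ) : sg t (2 * (u - w)) = 2 * (sg t u - sg t w) := by
  unfold sg
  split_ifs
  · rfl
  · simp only [map_sub, map_mul, map_ofNat]

/-- The equation of an edge. -/
theorem HG.edge (h : HG m a S fl z ql qr r K) (j : Fin m) :
    (2 * hh (K.yc j + 1 / 2) - he (K.yc j - vcG r z j) - he (K.yc j + vcG r z j)) +
      (2 * hh (K.yc j + 1 / 2) - he (K.yc j - vcG r z (j + 1)) -
        he (K.yc j + vcG r z (j + 1))) = 0 := by
  have hj := j.isLt
  have f1 := (h.frame j hj.le).2.1
  have f2 := (h.frame (j + 1) hj).1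
  have e1 := slot_der f1 (h.sdr j hj) (h.karg _ _ hj) (r j)
  have e2 := slot_der f2 (h.sdl j hj) (h.karg _ _ hj.le) (r (j + 1))
  rw [← vcG_eq] at e1 e2
  rw [← h.yc_next j] at e2
  have e3 : K.yc j = sg (r j) (sy (qr j) (z j)) := by
    rw [h.yc]
    rfl
  rw [← e3] at e1
  rw [e1, e2, sg_mul2, sg_mul2]
  have c1 := h.crt.arg j hj.le
  have c2 := h.crt.arg (j + 1) hj
  have hpi := Real.pi_pos
  have k1 : log (kp (S j) (cos (z (j + 1)))) = kp (S j) (log (cos (z (j + 1)))) := by
    cases S j
    · rw [kp_false, kp_false, log_conj _ (by linarith only [c2.2, c1.2, c1.1])]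
    · rw [kp_true, kp_true]
  have k2 : log (kp (S j) (cos (z j))) = kp (S j) (log (cos (z j))) := by
    cases S j
    · rw [kp_false, kp_false, log_conj _ (by linarith only [c1.2, c1.1])]
    · rw [kp_true, kp_true]
  have k3 : log (cos (z (j + 1))) = kp (S j) (kp (S j) (log (cos (z (j + 1))))) := by
    cases S j
    · rw [kp_false, kp_false, conj_conj]
    · rw [kp_true, kp_true]
  rw [k1, k2, h.sg_next j hj]
  have k4 : sg (r (j + 1)) (log (cos (z (j + 1)))) = sg (r j) (kp (S j) (log (cos (z (j + 1))))) := by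
    conv_lhs => rw [k3]
    rw [h.sg_next j hj]
  rw [k4]
  ring

/-! ### The critical equations -/

theorem geo_ye_update {m : ℕ} (y : Fin m → ℂ) (j : Fin m) (w : ℂ) (n : ℕ) :
    ye (Function.update y j w) n = if n = j + 1 then w else ye y n := by
  unfold ye
  have hj := j.isLt
  by_cases h : 0 < n ∧ n ≤ m
  · rw [dif_pos h, dif_pos h]
    by_cases h2 : n = j + 1
    · have e : (⟨n - 1, by omega⟩ : Fin m) = j := Fin.ext (by simp only; omega)
      rw [if_pos h2, e, Function.update_self]
    · have e : (⟨n - 1, by omega⟩ : Fin m) ≠ j := fun h3 => h2 (by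
        have := congrArg Fin.val h3
        simp only at this
        omega)
      rw [if_neg h2, Function.update_of_ne e]
  · rw [dif_neg h, dif_neg h, if_neg (by omega)]

theorem geo_ye_succ {m : ℕ} (y : Fin m → ℂ) (j : Fin m) : ye y ((j : ℕ) + 1) = y j := by
  unfold ye
  have hj := j.isLt
  rw [dif_pos ⟨by omega, by omega⟩]
  congr 1

/-- The critical point. -/
theorem HG.crtC (h : HG m a S fl z ql qr r K) : Crt (chG m r fl) K := by
  constructor
  · intro j
    have hj := j.isLt
    have hyc := h.yc_re j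
    have hab : |(K.yc j).re| < 1 / 2 := by
      rw [abs_lt]
      constructor <;> linarith
    have H1 : HasDerivAt (fun w => ∑ j', 4 * ff (Function.update K.yc j w j' + 1 / 2))
        (∑ j' : Fin m, if j' = j then 4 * hh (K.yc j + 1 / 2) else 0) (K.yc j) := by
      refine HasDerivAt.fun_sum fun j' _ => ?_
      by_cases hjj : j' = j
      · rw [if_pos hjj, hjj]
        have e : (fun w => 4 * ff (Function.update K.yc j w j + 1 / 2)) =
            fun w => 4 * ff (w + 1 / 2) := by
          funext w
          rw [Function.update_self]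
        rw [e]
        have h4 : HasDerivAt (fun w : ℂ => w + 1 / 2) 1 (K.yc j) :=
          (hasDerivAt_id _).add_const _
        have h5 := HasDerivAt.comp (K.yc j)
          (ff_hasDerivAt _ (strip_half hab).1 (strip_half hab).2) h4
        rw [mul_one] at h5
        exact h5.const_mul 4
      · rw [if_neg hjj]
        have e : (fun w => 4 * ff (Function.update K.yc j w j' + 1 / 2)) =
            fun _ => 4 * ff (K.yc j' + 1 / 2) := by
          funext w
          rw [Function.update_of_ne hjj]
        rw [e]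
        exact hasDerivAt_const _ _
    set A := -he (K.yc j - vcG r z j) - he (K.yc j + vcG r z j) with hA
    set B := -he (K.yc j - vcG r z (j + 1)) - he (K.yc j + vcG r z (j + 1)) with hB
    have H2 : HasDerivAt (fun w => ∑ i : Fin (m + 1), pN ((chG m r fl).c i) ((chG m r fl).ty i)
        ((chG m r fl).fl i) (K.oc i) (ye (Function.update K.yc j w) i)
          (ye (Function.update K.yc j w) (i + 1)))
        (∑ i : Fin (m + 1), ((if i = j.castSucc then A else 0) +
          (if i = j.succ then B else 0))) (K.yc j) := by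
      refine HasDerivAt.fun_sum fun i _ => ?_
      have hnd := h.nd i
      by_cases h1 : i = j.castSucc
      · have hne : i ≠ j.succ := by
          rw [h1]
          intro h0
          have := congrArg Fin.val h0
          simp at this
        have hi : (i : ℕ) = j := by rw [h1]; simp
        rw [if_pos h1, if_neg hne, add_zero]
        have e : (fun w => pN ((chG m r fl).c i) ((chG m r fl).ty i)
            ((chG m r fl).fl i) (K.oc i) (ye (Function.update K.yc j w) i)
              (ye (Function.update K.yc j w) (i + 1))) =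
            fun w => pN ((chG m r fl).c i) ((chG m r fl).ty i)
              ((chG m r fl).fl i) (K.oc i) (ye K.yc i) w := by
          funext w
          rw [geo_ye_update, geo_ye_update, if_neg (by omega), if_pos (by omega)]
        rw [e]
        have h3 := hnd.db
        rw [hi, geo_ye_succ] at h3
        rw [hi]
        exact h3
      · rw [if_neg h1, zero_add]
        by_cases h2 : i = j.succ
        · have hi : (i : ℕ) = j + 1 := by rw [h2]; simp
          rw [if_pos h2]
          have e : (fun w => pN ((chG m r fl).c i) ((chG m r fl).ty i)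
              ((chG m r fl).fl i) (K.oc i) (ye (Function.update K.yc j w) i)
                (ye (Function.update K.yc j w) (i + 1))) =
              fun w => pN ((chG m r fl).c i) ((chG m r fl).ty i)
                ((chG m r fl).fl i) (K.oc i) w (ye K.yc (i + 1)) := by
            funext w
            rw [geo_ye_update, geo_ye_update, if_pos hi, if_neg (by omega)]
          rw [e]
          have h3 := hnd.da
          rw [hi, geo_ye_succ] at h3
          rw [hi]
          exact h3
        · rw [if_neg h2]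
          have g1 : (i : ℕ) ≠ j := fun h0 => h1 (Fin.ext (by simp [h0]))
          have g2 : (i : ℕ) ≠ j + 1 := fun h0 => h2 (Fin.ext (by simp [h0]))
          have e : (fun w => pN ((chG m r fl).c i) ((chG m r fl).ty i)
              ((chG m r fl).fl i) (K.oc i) (ye (Function.update K.yc j w) i)
                (ye (Function.update K.yc j w) (i + 1))) =
              fun _ => pN ((chG m r fl).c i) ((chG m r fl).ty i)
                ((chG m r fl).fl i) (K.oc i) (ye K.yc i) (ye K.yc (i + 1)) := by
            funext w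
            rw [geo_ye_update, geo_ye_update, if_neg g2, if_neg (by omega)]
          rw [e]
          exact hasDerivAt_const _ _
    have H3 := H1.add H2
    refine HasDerivAt.congr_deriv (f := fun w => (chG m r fl).W K.oc (Function.update K.yc j w))
      H3 ?_
    rw [Finset.sum_ite_eq' Finset.univ j, if_pos (Finset.mem_univ _), Finset.sum_add_distrib,
      Finset.sum_ite_eq' Finset.univ j.castSucc, if_pos (Finset.mem_univ _),
      Finset.sum_ite_eq' Finset.univ j.succ, if_pos (Finset.mem_univ _)]
    rw [hA, hB]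
    linear_combination h.edge j
  · intro i hi
    have H2 : HasDerivAt (fun w => ∑ i' : Fin (m + 1), pN ((chG m r fl).c i')
        ((chG m r fl).ty i') ((chG m r fl).fl i') (Function.update K.oc i w i') (ye K.yc i')
          (ye K.yc (i' + 1))) (∑ _i' : Fin (m + 1), 0) (K.oc i) := by
      refine HasDerivAt.fun_sum fun i' _ => ?_
      by_cases h1 : i' = i
      · subst h1
        have e : (fun w => pN ((chG m r fl).c i') ((chG m r fl).ty i') ((chG m r fl).fl i')
            (Function.update K.oc i' w i') (ye K.yc i') (ye K.yc (i' + 1))) =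
            fun w => pN ((chG m r fl).c i') ((chG m r fl).ty i') ((chG m r fl).fl i')
              w (ye K.yc i') (ye K.yc (i' + 1)) := by
          funext w
          rw [Function.update_self]
        rw [e]
        exact (h.nd i').dz hi
      · have e : (fun w => pN ((chG m r fl).c i') ((chG m r fl).ty i') ((chG m r fl).fl i')
            (Function.update K.oc i w i') (ye K.yc i') (ye K.yc (i' + 1))) =
            fun _ => pN ((chG m r fl).c i') ((chG m r fl).ty i') ((chG m r fl).fl i')
              (K.oc i') (ye K.yc i') (ye K.yc (i' + 1)) := by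
          funext w
          rw [Function.update_of_ne h1]
        rw [e]
        exact hasDerivAt_const _ _
    have H3 := (hasDerivAt_const (K.oc i) (∑ j, 4 * ff (K.yc j + 1 / 2))).add H2
    refine HasDerivAt.congr_deriv (f := fun w => (chG m r fl).W (Function.update K.oc i w) K.yc)
      H3 ?_
    rw [Finset.sum_const_zero, add_zero]

/-! ### Ranges -/

theorem HG.vc_im (h : HG m a S fl z ql qr r K) (i : ℕ) (hi : i ≤ m) : 0 < (vcG r z i).im := by
  have hpi := Real.pi_pos
  have h1 := h.crt.zim i hi
  unfold vcG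
  split_ifs
  · rw [v_im]
    positivity
  · rw [neg_im, conj_im, neg_neg, v_im]
    positivity

theorem HG.vc_re (h : HG m a S fl z ql qr r K) (i : ℕ) (hi : i ≤ m) :
    |(vcG r z i).re| < 1 / 2 := by
  have hpi := Real.pi_pos
  have h1 := h.crt.zre i hi
  have h2 : |(z i / Real.pi).re| < 1 / 2 := by
    rw [v_re, abs_lt, lt_div_iff₀ hpi, div_lt_iff₀ hpi]
    constructor <;> linarith
  unfold vcG
  split_ifs
  · exact h2
  · rw [neg_re, conj_re, abs_neg]
    exact h2

theorem HG.oc_eq_vn (h : HG m a S fl z ql qr r K) (i : Fin (m + 1))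
    (hi : (chG m r fl).ty i = Ty.vn) : K.oc i = vcG r z i := by
  rw [h.oc]
  change tyG m r i = Ty.vn at hi
  show ocG m r fl z ql qr i = _
  unfold ocG
  rw [hi]

/-- The own variables. -/
theorem HG.oc_vn (h : HG m a S fl z ql qr r K) (i : Fin (m + 1)) (hi : (chG m r fl).ty i = Ty.vn) :
    0 < (K.oc i).im ∧ |(K.oc i).re| < 1 / 2 := by
  have h2 : (i : ℕ) ≤ m := by
    have := i.isLt
    omega
  rw [h.oc_eq_vn i hi]
  exact ⟨h.vc_im i h2, h.vc_re i h2⟩

theorem HG.oc_zn (h : HG m a S fl z ql qr r K) (i : Fin (m + 1)) (hi : (chG m r fl).ty i = Ty.zn) :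
    |(K.oc i).re| < 1 / 2 := ((h.nd i).rzn hi).2.2

/-- The arguments of `fe` are in the domain. -/
theorem HG.rg (h : HG m a S fl z ql qr r K) : Rg (chG m r fl) K := by
  constructor
  · intro i hi
    have hfd := (h.nd i).fd
    have hr := (h.nd i).rcl hi
    rw [hi] at hfd
    exact ⟨hfd, hr⟩
  · intro i hi
    have hfd := (h.nd i).fd
    obtain ⟨r1, r2, r3⟩ := (h.nd i).rzn hi
    rw [hi] at hfd
    exact ⟨hfd.1, r1, hfd.2, r2⟩
  · intro i hi b hb
    have hfd := (h.nd i).fd
    obtain ⟨r1, r2, r3, r4⟩ := (h.nd i).rvn hi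
    rw [hi] at hfd
    obtain ⟨f1, f2, f3, f4⟩ := hfd
    rcases hb with hb | hb
    · rw [hb]
      exact ⟨f1, r1, f2, r2⟩
    · rw [Set.mem_singleton_iff.1 hb]
      exact ⟨f3, r3, f4, r4⟩

/-! ### The value -/

theorem fe_half {v : ℂ} (h : 0 < v.im) : fe (1 / 2 - v) + fe (1 / 2 + v) = 0 := by
  have h1 : (1 / 2 - v).im < 0 := by
    rw [sub_im]
    norm_num
    exact h
  have h2 : 0 < (1 / 2 + v).im := by
    rw [add_im]
    norm_num
    exact h
  have e : exp (-(2 * Real.pi * I * (1 / 2 - v))) = exp (2 * Real.pi * I * (1 / 2 + v)) := by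
    rw [show 2 * Real.pi * I * (1 / 2 + v) = -(2 * Real.pi * I * (1 / 2 - v)) + 2 * Real.pi * I by
      ring, exp_add, exp_two_pi_mul_I, mul_one]
  unfold fe
  rw [if_neg (by linarith only [h1]), if_pos h1, if_pos h2, e]
  have hI := Complex.two_pi_I_ne_zero
  rw [div_neg, ← sub_eq_neg_add, ← sub_div]
  have : -Pool.Agent.H63.VC5.dilog (exp (2 * Real.pi * I * (1 / 2 + v))) + (Real.pi : ℂ) ^ 2 *
      ((1 / 2 + v) ^ 2 - (1 / 2 + v) + 1 / 6) -
      (-Pool.Agent.H63.VC5.dilog (exp (2 * Real.pi * I * (1 / 2 + v))) + (Real.pi : ℂ) ^ 2 *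
      ((1 / 2 - v) ^ 2 - (1 / 2 - v) + 1 / 6)) = 0 := by
    ring
  rw [this, zero_div]

theorem he_half {v : ℂ} (h : 0 < v.im) : he (1 / 2 - v) = he (1 / 2 + v) := by
  have h1 : (1 / 2 - v).im < 0 := by
    rw [sub_im]
    norm_num
    exact h
  have h2 : 0 < (1 / 2 + v).im := by
    rw [add_im]
    norm_num
    exact h
  have e : exp (-(2 * Real.pi * I * (1 / 2 - v))) = exp (2 * Real.pi * I * (1 / 2 + v)) := by
    rw [show 2 * Real.pi * I * (1 / 2 + v) = -(2 * Real.pi * I * (1 / 2 - v)) + 2 * Real.pi * I by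
      ring, exp_add, exp_two_pi_mul_I, mul_one]
  unfold he
  rw [if_neg (by linarith only [h1]), if_pos h1, if_pos h2, e]
  ring

/-- Sums over the slots. -/
theorem sum_slots {m : ℕ} (f : Fin (m + 1) → ℂ → ℂ) (y : Fin m → ℂ)
    (h0 : f 0 (1 / 2) = 0) (h1 : f (Fin.last m) (1 / 2) = 0) :
    ∑ i : Fin (m + 1), (f i (ye y i) + f i (ye y (i + 1))) =
      ∑ j : Fin m, (f j.castSucc (y j) + f j.succ (y j)) := by
  rw [Finset.sum_add_distrib, Finset.sum_add_distrib, add_comm]
  congr 1
  · rw [Fin.sum_univ_castSucc]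
    have e : ye y ((Fin.last m : Fin (m + 1)) + 1) = 1 / 2 := by
      unfold ye
      rw [dif_neg (by simp)]
    rw [e, h1, add_zero]
    refine Finset.sum_congr rfl fun j _ => ?_
    rw [Fin.val_castSucc, geo_ye_succ]
  · rw [Fin.sum_univ_succ]
    have e : ye y ((0 : Fin (m + 1)) : ℕ) = 1 / 2 := by
      unfold ye
      rw [dif_neg (by simp)]
    rw [e, h0, zero_add]
    refine Finset.sum_congr rfl fun j _ => ?_
    rw [Fin.val_succ, geo_ye_succ]

/-- The critical value. -/
theorem HG.W (h : HG m a S fl z ql qr r K) : (chG m r fl).W K.oc K.yc =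
    WVG m r z qr + ∑ i : Fin (m + 1), kcG m r i := by
  have e1 : (chG m r fl).W K.oc K.yc = (∑ j, 4 * ff (K.yc j + 1 / 2)) +
      ∑ i : Fin (m + 1), (pV ((r i : ℝ) / 2) (vcG r z i) (ye K.yc i) (ye K.yc (i + 1)) +
        kcG m r i) := by
    unfold Ch.W
    congr 1
    exact Finset.sum_congr rfl fun i _ => (h.nd i).val
  have e2 := sum_slots (fun i w => -fe (w - vcG r z i) - fe (w + vcG r z i)) K.yc
    (by
      have := fe_half (h.vc_im 0 (Nat.zero_le _))
      simp only [Fin.val_zero]
      linear_combination -this)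
    (by
      have := fe_half (h.vc_im m le_rfl)
      simp only [Fin.val_last]
      linear_combination -this)
  have e3 : WVG m r z qr = ∑ j : Fin m, ((2 * ff (K.yc j + 1 / 2) -
      fe (K.yc j - vcG r z j.castSucc) - fe (K.yc j + vcG r z j.castSucc)) +
        (2 * ff (K.yc j + 1 / 2) - fe (K.yc j - vcG r z j.succ) -
          fe (K.yc j + vcG r z j.succ))) +
      ∑ i : Fin (m + 1), wr ((r i : ℝ) / 2) (vcG r z i) := by
    rw [h.yc]
    rfl
  rw [e1, e3, Finset.sum_add_distrib, ← add_assoc]
  congr 1
  have e4 : ∑ i : Fin (m + 1), pV ((r i : ℝ) / 2) (vcG r z i) (ye K.yc i) (ye K.yc (i + 1)) =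
      ∑ i : Fin (m + 1), wr ((r i : ℝ) / 2) (vcG r z i) +
        ∑ i : Fin (m + 1), ((-fe (ye K.yc i - vcG r z i) - fe (ye K.yc i + vcG r z i)) +
          (-fe (ye K.yc (i + 1) - vcG r z i) - fe (ye K.yc (i + 1) + vcG r z i))) := by
    rw [← Finset.sum_add_distrib]
    refine Finset.sum_congr rfl fun i _ => ?_
    unfold pV
    ring
  rw [e4, e2]
  have e5 : ∑ j : Fin m, ((2 * ff (K.yc j + 1 / 2) -
      fe (K.yc j - vcG r z j.castSucc) - fe (K.yc j + vcG r z j.castSucc)) +
        (2 * ff (K.yc j + 1 / 2) - fe (K.yc j - vcG r z j.succ) -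
          fe (K.yc j + vcG r z j.succ))) = (∑ j, 4 * ff (K.yc j + 1 / 2)) +
      ∑ j : Fin m, ((-fe (K.yc j - vcG r z j.castSucc) - fe (K.yc j + vcG r z j.castSucc)) +
        (-fe (K.yc j - vcG r z j.succ) - fe (K.yc j + vcG r z j.succ))) := by
    rw [← Finset.sum_add_distrib]
    refine Finset.sum_congr rfl fun j _ => ?_
    ring
  rw [e5]
  ring

theorem HG.G (h : HG m a S fl z ql qr r K) :
    (chG m r fl).G K.oc K.yc = ((chG m r fl).W K.oc K.yc).re := by
  unfold Ch.G Ch.W
  rw [add_re, re_sum, re_sum]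
  congr 1
  · refine Finset.sum_congr rfl fun j _ => ?_
    have hyc := h.yc_re j
    have hab : |(K.yc j).re| < 1 / 2 := by
      rw [abs_lt]
      constructor <;> linarith
    rw [Rf_eq_ff (strip_half hab).1 (strip_half hab).2,
      show (4 : ℂ) = ((4 : ℝ) : ℂ) by norm_num, re_ofReal_mul]
  · exact Finset.sum_congr rfl fun i _ => (h.nd i).g

theorem kcG_re (i : ℕ) : (kcG m r i).re = 0 := by
  have e : ∀ x : ℝ, ((x : ℂ) * I).re = 0 := by
    intro x
    rw [re_ofReal_mul, I_re, mul_zero]
  unfold kcG
  split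
  · rw [show ((r i).sign : ℂ) * Real.pi * I / 2 = (((r i).sign * Real.pi / 2 : ℝ) : ℂ) * I by
      push_cast; ring]
    exact e _
  · split_ifs
    · rw [show -(((r i).sign : ℂ) * Real.pi * I / 4) =
        ((-((r i).sign * Real.pi / 4) : ℝ) : ℂ) * I by push_cast; ring]
      exact e _
    · rw [show ((r i).sign : ℂ) * Real.pi * I / 2 = (((r i).sign * Real.pi / 2 : ℝ) : ℂ) * I by
        push_cast; ring]
      exact e _
  · rfl

/-- The equation of a vertex. -/
theorem HG.vert (h : HG m a S fl z ql qr r K) (i : ℕ) (hi : i ≤ m) :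
    2 * Real.pi * I * (2 * ((r i : ℝ) / 2 : ℝ) * vcG r z i + 1) +
      (he (ye K.yc i - vcG r z i) - he (ye K.yc i + vcG r z i)) +
      (he (ye K.yc (i + 1) - vcG r z i) - he (ye K.yc (i + 1) + vcG r z i)) = 0 := by
  obtain ⟨f1, f2, -⟩ := h.frame i hi
  have key := f1.dv f2 (h.crt.eq i hi)
  have h2 := h.abs i hi
  rw [h.ye_l i hi, h.ye_r i hi, vcG_eq]
  unfold sg vs
  by_cases hn : r i < 0
  · have e0 : (r i : ℂ) = -(a i : ℂ) := by
      have : r i = -(a i : ℤ) := by omega
      rw [this]
      push_cast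
      ring
    simp only [if_pos hn]
    push_cast
    rw [e0]
    exact key
  · have e0 : (r i : ℂ) = (a i : ℂ) := by
      have : r i = (a i : ℤ) := by omega
      rw [this]
      push_cast
      ring
    have k := congrArg conj key
    simp only [if_neg hn]
    rw [show conj (sy (ql i) (z i)) - -conj (z i / Real.pi) = conj (sy (ql i) (z i) + z i / Real.pi)
        by rw [map_add]; ring,
      show conj (sy (ql i) (z i)) + -conj (z i / Real.pi) = conj (sy (ql i) (z i) - z i / Real.pi)
        by rw [map_sub]; ring,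
      show conj (sy (qr i) (z i)) - -conj (z i / Real.pi) = conj (sy (qr i) (z i) + z i / Real.pi)
        by rw [map_add]; ring,
      show conj (sy (qr i) (z i)) + -conj (z i / Real.pi) = conj (sy (qr i) (z i) - z i / Real.pi)
        by rw [map_sub]; ring,
      G.he_conj' f1.dm, G.he_conj' f1.dp, G.he_conj' f2.dm, G.he_conj' f2.dp]
    simp only [map_add, map_sub, map_mul, map_neg, map_div₀, map_ofNat, map_one, map_zero,
      conj_I, conj_ofReal, map_natCast] at k
    push_cast
    rw [e0]
    simp only [map_div₀, conj_ofReal]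
    linear_combination -k

theorem HG.critV (h : HG m a S fl z ql qr r K) :
    CritV (fun i : Fin (m + 1) => (r i : ℝ) / 2) K.yc (fun i : Fin (m + 1) => vcG r z i) := by
  refine ⟨fun j => ⟨by linarith only [(h.yc_re j).1], (h.yc_re j).2⟩, ?_, ?_, ?_, ?_⟩
  · intro j
    obtain ⟨f1, f2, f3, f4⟩ := (h.nd j.castSucc).vd
    rw [Fin.val_castSucc, geo_ye_succ] at f3 f4
    exact ⟨f3, f4⟩
  · intro j
    obtain ⟨f1, f2, f3, f4⟩ := (h.nd j.succ).vd
    rw [Fin.val_succ, geo_ye_succ] at f1 f2
    exact ⟨f1, f2⟩
  · intro j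
    have e := h.edge j
    show ((2 * hh (K.yc j + 1 / 2) - he (K.yc j - vcG r z j) - he (K.yc j + vcG r z j)) +
      (2 * hh (K.yc j + 1 / 2) - he (K.yc j - vcG r z (j + 1)) -
        he (K.yc j + vcG r z (j + 1)))).im = 0
    rw [e, zero_im]
  · intro i
    have hi : (i : ℕ) ≤ m := by
      have := i.isLt
      omega
    have e := h.vert i hi
    set f : ℂ → ℂ := fun w => he (w - vcG r z i) - he (w + vcG r z i) with hf
    have hd : f (1 / 2) = 0 := by
      show he (1 / 2 - vcG r z i) - he (1 / 2 + vcG r z i) = 0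
      rw [he_half (h.vc_im i hi), sub_self]
    have e1 : ∑ j ∈ inc (Fin.castSucc (n := m)) Fin.succ i, vsP (K.yc j) (vcG r z i) =
        f (ye K.yc i) + f (ye K.yc (i + 1)) := by
      have s1 : ∑ j ∈ inc (Fin.castSucc (n := m)) Fin.succ i, vsP (K.yc j) (vcG r z i) =
          ∑ j : Fin m, ((if j.castSucc = i then f (K.yc j) else 0) +
            (if j.succ = i then f (K.yc j) else 0)) := by
        unfold inc
        rw [Finset.sum_filter]
        refine Finset.sum_congr rfl fun j _ => ?_
        by_cases h1 : j.castSucc = i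
        · have h2 : ¬ j.succ = i := fun h0 => by
            rw [← h1] at h0
            have := congrArg Fin.val h0
            simp at this
          rw [if_pos (Or.inl h1), if_pos h1, if_neg h2, add_zero]
          rfl
        · by_cases h2 : j.succ = i
          · rw [if_pos (Or.inr h2), if_neg h1, if_pos h2, zero_add]
            rfl
          · rw [if_neg (by tauto), if_neg h1, if_neg h2, add_zero]
      have s2 : ∑ j : Fin m, (if j.castSucc = i then f (K.yc j) else 0) =
          f (ye K.yc (i + 1)) := by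
        induction i using Fin.lastCases with
        | last =>
          have : ye K.yc ((Fin.last m : Fin (m + 1)) + 1) = 1 / 2 := by
            unfold ye
            rw [dif_neg (by simp)]
          rw [this, hd]
          refine Finset.sum_eq_zero fun j _ => if_neg ?_
          exact (Fin.castSucc_lt_last j).ne
        | cast k =>
          rw [Fin.val_castSucc, geo_ye_succ]
          simp [Fin.castSucc_inj]
      have s3 : ∑ j : Fin m, (if j.succ = i then f (K.yc j) else 0) = f (ye K.yc i) := by
        induction i using Fin.cases with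
        | zero =>
          have : ye K.yc ((0 : Fin (m + 1)) : ℕ) = 1 / 2 := by
            unfold ye
            rw [dif_neg (by simp)]
          rw [this, hd]
          refine Finset.sum_eq_zero fun j _ => if_neg ?_
          exact Fin.succ_ne_zero j
        | succ k =>
          rw [Fin.val_succ, geo_ye_succ]
          simp [Fin.succ_inj]
      rw [s1, Finset.sum_add_distrib, s2, s3, add_comm]
    rw [e1]
    have e2 : dwr ((r i : ℝ) / 2) (vcG r z i) + (f (ye K.yc i) + f (ye K.yc (i + 1))) = 0 := by
      unfold dwr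
      rw [hf]
      linear_combination e
    rw [e2, zero_im]

/-- The critical value is the volume. -/
theorem HG.vol (h : HG m a S fl z ql qr r K) :
    IsGreatest (structureVolumes (conwayH ((List.range (m + 1)).map r)))
      (2 * Real.pi * ((chG m r fl).W K.oc K.yc).re) := by
  have key := h.crt.vol r h.abs h.sgn (fun i : Fin (m + 1) => (r i : ℝ) / 2) K.yc
    (fun i : Fin (m + 1) => vcG r z i) h.critV ?_ ?_
  · have e : ((chG m r fl).W K.oc K.yc).re = (WV (fun i : Fin (m + 1) => (r i : ℝ) / 2) K.yc
        (fun i : Fin (m + 1) => vcG r z i)).re := by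
      rw [h.W, add_re, re_sum, Finset.sum_eq_zero (fun i _ => kcG_re _), add_zero, h.yc]
      rfl
    rw [e]
    exact key
  · intro i
    have hp := pi_ne
    unfold vcG
    by_cases hn : r i < 0
    · rw [if_pos hn, if_pos hn]
      congr 1
      field_simp
    · rw [if_neg hn, if_neg hn, ← exp_conj]
      congr 1
      simp only [map_mul, conj_I, map_ofNat, map_div₀, conj_ofReal]
      field_simp
  · intro j
    have hj := j.isLt
    have e1 := (h.sdr j hj).expY
    rw [h.yc]
    show exp (2 * Real.pi * I * sg (r j) (sy (qr j) (z j))) = _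
    unfold sg
    by_cases hn : r j < 0
    · rw [if_pos hn, if_pos hn, e1]
      rfl
    · rw [if_neg hn, if_neg hn]
      have : 2 * Real.pi * I * conj (sy (qr j) (z j)) =
          -conj (2 * Real.pi * I * sy (qr j) (z j)) := by
        simp only [map_mul, conj_I, conj_ofReal, map_ofNat]
        ring
      rw [this, exp_neg, exp_conj, e1]
      rfl

end Pool.Agent.S5
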