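import Pool.Agent.S5.ListM

/-!
# Stage 3b, block G5: what the lists of vertices say about the special `2`'s

`AdmS` adds to `Adm`: a special `2` is either one of a pair (its opposite sign neighbour is a special `2`
too), or it comes from a run of length `2`; a `3` between two same sign edges has a `2` as a neighbour
only on the right, and then it is the first one of a pair.
-/

set_option autoImplicit false

namespace Pool.Agent.S5

open Pool.Agent.H1TB

/-- `1` if there is a same sign edge to the left of the vertex `i`. -/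
def eL (S : ℕ → Bool) (i : ℕ) : ℕ := if 0 < i ∧ S (i - 1) = true then 1 else 0

/-- `1` if there is a same sign edge to the right of the vertex `i`. -/
def eR (R : ℕ) (S : ℕ → Bool) (i : ℕ) : ℕ := if i < R ∧ S i = true then 1 else 0

/-- Admissible mixed chains, with all that the absorption rule says about the special `2`'s. -/
structure AdmS (R : ℕ) (a : ℕ → ℕ) (S : ℕ → Bool) : Prop extends Adm R a S where
  /-- same sign edge on the left of the special `2` -/
  spl : ∀ i, i + 1 < R → a (i + 1) = 2 → S i = true →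
    (i + 2 < R ∧ a (i + 2) = 2 ∧ S (i + 2) = true) ∨
      (3 + eL S i ≤ a i ∧ 2 + eR R S (i + 2) ≤ a (i + 2) ∧
        a (i + 2) + 1 + eL S i ≤ a i + eR R S (i + 2))
  /-- same sign edge on the right of the special `2` -/
  spr : ∀ i, i + 1 < R → a (i + 1) = 2 → S (i + 1) = true →
    (0 < i ∧ a i = 2 ∧ S (i - 1) = true) ∨
      (3 + eR R S (i + 2) ≤ a (i + 2) ∧ 2 + eL S i ≤ a i ∧
        a i + 1 + eR R S (i + 2) ≤ a (i + 2) + eL S i)
  /-- `3` between same sign edges: no `2` on the left -/
  s3l : ∀ i, i + 1 < R → S i = true → S (i + 1) = true → a (i + 1) = 3 → a i ≠ 2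
  /-- `3` between same sign edges: a `2` on the right is the first one of a pair -/
  s3r : ∀ i, i + 1 < R → S i = true → S (i + 1) = true → a (i + 1) = 3 → a (i + 2) = 2 →
    i + 3 < R ∧ S (i + 2) = false ∧ a (i + 3) = 2 ∧ S (i + 3) = true
  /-- special `2` with a same sign edge to an end `3`: one of a pair, or the chain `3, 2, 2` -/
  e3l : S 0 = true → a 0 = 3 → a 1 = 2 → R = 2 ∨ (3 ≤ R ∧ a 2 = 2 ∧ S 2 = true)
  /-- the same at the other end -/
  e3r : ∀ i, i + 1 = R → S i = true → a R = 3 → a i = 2 →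
    2 ≤ i ∧ a (i - 1) = 2 ∧ S (i - 2) = true

/-- No `3` between two same sign edges to `2`'s. -/
theorem AdmS.no2 {R : ℕ} {a : ℕ → ℕ} {S : ℕ → Bool} (h : AdmS R a S) (i : ℕ) (hi : i + 2 ≤ R) :
    ¬ (S i = true ∧ S (i + 1) = true ∧ a i = 2 ∧ a (i + 1) = 3 ∧ a (i + 2) = 2) :=
  fun ⟨h1, h2, h3, h4, _⟩ => h.s3l i (by omega) h1 h2 h4 h3

theorem eR_congr {R i : ℕ} {S S' : ℕ → Bool} (hS : ∀ i, i < R → S' i = S i) :
    eR R S' i = eR R S i := by
  unfold eR
  by_cases h : i < R
  · rw [hS i h]
  · rw [if_neg (fun h' => h h'.1), if_neg (fun h' => h h'.1)]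

theorem eL_congr {R i : ℕ} {S S' : ℕ → Bool} (hS : ∀ i, i < R → S' i = S i) (hi : i ≤ R) :
    eL S' i = eL S i := by
  unfold eL
  by_cases h : 0 < i
  · rw [hS (i - 1) (by omega)]
  · rw [if_neg (fun h' => h h'.1), if_neg (fun h' => h h'.1)]

theorem AdmS.congr {R : ℕ} {a a' : ℕ → ℕ} {S S' : ℕ → Bool} (h : AdmS R a S)
    (ha : ∀ i, i ≤ R → a' i = a i) (hS : ∀ i, i < R → S' i = S i) : AdmS R a' S' := by
  refine ⟨h.toAdm.congr ha hS, ?_, ?_, ?_, ?_, ?_, ?_⟩
  · intro i hi h0 h1
    rw [ha (i + 1) (by omega)] at h0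
    rw [hS i (by omega)] at h1
    rcases h.spl i hi h0 h1 with ⟨k1, k2, k3⟩ | k
    · exact Or.inl ⟨k1, by rw [ha _ (by omega)]; exact k2, by rw [hS _ k1]; exact k3⟩
    · right
      rw [eL_congr hS (by omega), eR_congr hS, ha i (by omega), ha (i + 2) (by omega)]
      exact k
  · intro i hi h0 h1
    rw [ha (i + 1) (by omega)] at h0
    rw [hS (i + 1) (by omega)] at h1
    rcases h.spr i hi h0 h1 with ⟨k1, k2, k3⟩ | k
    · exact Or.inl ⟨k1, by rw [ha _ (by omega)]; exact k2, by rw [hS _ (by omega)]; exact k3⟩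
    · right
      rw [eL_congr hS (by omega), eR_congr hS, ha i (by omega), ha (i + 2) (by omega)]
      exact k
  · intro i hi h0 h1 h2
    rw [hS i (by omega)] at h0
    rw [hS (i + 1) (by omega)] at h1
    rw [ha (i + 1) (by omega)] at h2
    rw [ha i (by omega)]
    exact h.s3l i hi h0 h1 h2
  · intro i hi h0 h1 h2 h3
    rw [hS i (by omega)] at h0
    rw [hS (i + 1) (by omega)] at h1
    rw [ha (i + 1) (by omega)] at h2
    rw [ha (i + 2) (by omega)] at h3
    obtain ⟨k1, k2, k3, k4⟩ := h.s3r i hi h0 h1 h2 h3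
    exact ⟨k1, by rw [hS _ (by omega)]; exact k2, by rw [ha _ (by omega)]; exact k3,
      by rw [hS _ (by omega)]; exact k4⟩
  · intro h0 h1 h2
    have hR := h.hR
    rw [hS 0 (by omega)] at h0
    rw [ha 0 (by omega)] at h1
    rw [ha 1 (by omega)] at h2
    rcases h.e3l h0 h1 h2 with k | ⟨k1, k2, k3⟩
    · exact Or.inl k
    · exact Or.inr ⟨k1, by rw [ha _ (by omega)]; exact k2, by rw [hS _ (by omega)]; exact k3⟩
  · intro i hi h0 h1 h2
    rw [hS i (by omega)] at h0
    rw [ha R le_rfl] at h1
    rw [ha i (by omega)] at h2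
    obtain ⟨k1, k2, k3⟩ := h.e3r i hi h0 h1 h2
    exact ⟨k1, by rw [ha _ (by omega)]; exact k2, by rw [hS _ (by omega)]; exact k3⟩

namespace L

theorem eL_sl (T : ℕ → Tok) (i : ℕ) : eL (fun j => (T j).s) i = bn (sl T i) := by
  unfold eL
  rcases i with _ | i
  · rw [if_neg (by omega)]
    rfl
  · show (if 0 < i + 1 ∧ (T (i + 1 - 1)).s = true then 1 else 0) = bn (T i).s
    rw [Nat.add_sub_cancel]
    cases (T i).s <;> simp [bn]

theorem eR_s (T : ℕ → Tok) {R : ℕ} (hRs : (T R).s = false) {i : ℕ} (hi : i ≤ R) :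
    eR R (fun j => (T j).s) i = bn (T i).s := by
  unfold eR
  rcases Nat.lt_or_ge i R with h | h
  · cases hs : (T i).s <;> simp [bn, h, hs]
  · have : i = R := by omega
    subst this
    rw [if_neg (fun h' => by omega), hRs]
    rfl

theorem Tie.get : ∀ {T : List Tok}, Tie T → ∀ (i : ℕ) (hi : i < T.length),
    (T[i].ty = .ka 2 → T.length = i + 2) ∧
      ∀ h2 : T.length = i + 2, T[i].ty = .la 2 → T[i + 1].b ≠ 2
  | [], _, _, hi => absurd hi (by simp)
  | x :: T, h, 0, _ => by
    refine ⟨fun h1 => ?_, fun h2 h1 => ?_⟩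
    · rw [List.length_cons, h.1 h1]
    · rw [List.length_cons] at h2
      obtain ⟨y, rfl⟩ := List.length_eq_one_iff.1 (show T.length = 1 by omega)
      exact h.2.1 h1 y rfl
  | x :: T, h, i + 1, hi => by
    have hi' : i < T.length := by simpa using hi
    obtain ⟨k1, k2⟩ := Tie.get h.2.2 i hi'
    refine ⟨fun h1 => ?_, fun h2 h1 => ?_⟩
    · rw [List.length_cons, k1 h1]
    · exact k2 (by simpa using h2) h1

theorem adm_fnS {T : ℕ → Tok} {R : ℕ} (h0 : (T 0).ty = .o) (hR : (T R).ty = .o)
    (hRs : (T R).s = false) (hR1 : 1 ≤ R)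
    (h : ∀ i, i < R → Nx (T i) (T (i + 1))) (hk : ∀ i, i ≤ R → (T i).ty = .ka 2 → i + 1 = R)
    (hla : ∀ i, i + 1 = R → (T i).ty = .la 2 → (T R).b ≠ 2) :
    AdmS R (ct T) (fun i => (T i).s) := by
  have hv := vd_of h0 hR hR1 h
  have hneR : ∀ i, i ≤ R → (T i).ty ≠ .o → i < R := by
    intro i hi hi2
    refine lt_of_le_of_ne hi ?_
    rintro rfl
    exact hi2 hR
  have hne0 : ∀ i, (T i).ty ≠ .o → 1 ≤ i := by
    intro i hi
    rcases i with _ | i
    · exact absurd h0 hi
    · omega
  refine ⟨adm_fn h0 hR hRs hR1 h, ?_, ?_, ?_, ?_, ?_, ?_⟩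
  · intro i hi h2 hs
    rw [eL_sl, eR_s T hRs (by omega)]
    have h1 := hv (i + 1) (by omega)
    have hl : sl T (i + 1) = true := hs
    unfold ct at h2
    rw [hl] at h1 h2
    rcases two_lf h1 h2 with ht | ⟨p, ht⟩
    · left
      have hn := (h (i + 1) (by omega)).2.2
      rw [ht] at h1
      obtain ⟨hb, hs1, -⟩ := h1
      rw [ht, hs1] at hn
      have h3 := hv (i + 2) (by omega)
      have hl2 : sl T (i + 2) = false := hs1
      have hbe : (T (i + 2)).ty = .be := by
        rw [show i + 1 + 1 = i + 2 from rfl] at hn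
        generalize (T (i + 2)).ty = t at *
        cases t <;> simp_all
      have hlt := hneR (i + 2) (by omega) (by rw [hbe]; simp)
      rw [hbe, hl2] at h3
      obtain ⟨b3, s3, -⟩ := h3
      refine ⟨hlt, ?_, s3⟩
      unfold ct
      rw [hl2, b3, s3]
      rfl
    · right
      have hn := (h (i + 1) (by omega)).2.2
      rw [ht] at h1
      obtain ⟨hb, hs1, -⟩ := h1
      rw [ht, hs1] at hn
      have hp := (h i (by omega)).2.2
      rw [ht, hs] at hp
      have hl2 : sl T (i + 2) = false := hs1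
      have h4 := hv i (by omega)
      have h5 := hv (i + 2) (by omega)
      have e1 : (T i).b = p ∧ (T i).ty = .o := by
        generalize (T i).ty = t at *
        cases t <;> simp_all
      have e2 : (T (i + 2)).b ≤ p ∧ (T (i + 2)).ty = .o := by
        rw [show i + 1 + 1 = i + 2 from rfl] at hn
        generalize (T (i + 2)).ty = t at *
        cases t <;> simp_all
      rw [e1.2] at h4
      rw [e2.2] at h5
      have h4' : 2 ≤ (T i).b := h4
      have h5' : 2 ≤ (T (i + 2)).b := h5
      unfold ct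
      rw [hl2, hs, bn_true, bn_false]
      omega
  · intro i hi h2 hs
    rw [eL_sl, eR_s T hRs (by omega)]
    have h1 := hv (i + 1) (by omega)
    unfold ct at h2
    rw [hs] at h1 h2
    rcases two_rt h1 h2 with ht | ⟨p, ht⟩
    · left
      have hn := (h i (by omega)).2.2
      rw [ht] at h1
      obtain ⟨hb, -, hl⟩ := h1
      have hl' : (T i).s = false := hl
      rw [ht, hl'] at hn
      have h3 := hv i (by omega)
      have hal : (T i).ty = .al := by
        generalize (T i).ty = t at *
        cases t <;> simp_all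
      have hlt := hne0 i (by rw [hal]; simp)
      rw [hal] at h3
      obtain ⟨b3, s3, l3⟩ := h3
      obtain ⟨j, rfl⟩ : ∃ j, i = j + 1 := ⟨i - 1, by omega⟩
      refine ⟨by omega, ?_, l3⟩
      unfold ct
      rw [l3, b3, s3]
      rfl
    · right
      have hn := (h (i + 1) (by omega)).2.2
      rw [ht] at h1
      obtain ⟨hb, -, hl⟩ := h1
      have hl' : (T i).s = false := hl
      rw [ht, hs] at hn
      have hp := (h i (by omega)).2.2
      rw [ht, hl'] at hp
      have hl2 : sl T (i + 2) = true := hs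
      have h4 := hv i (by omega)
      have h5 := hv (i + 2) (by omega)
      have e1 : (T i).b = p ∧ (T i).ty = .o := by
        generalize (T i).ty = t at *
        cases t <;> simp_all
      have e2 : p ≤ (T (i + 2)).b ∧ (T (i + 2)).ty = .o := by
        rw [show i + 1 + 1 = i + 2 from rfl] at hn
        generalize (T (i + 2)).ty = t at *
        cases t <;> simp_all
      rw [e1.2] at h4
      have h4' : 2 ≤ (T i).b := h4
      unfold ct
      rw [hl2, hl', bn_true, bn_false]
      omega
  · intro i hi hs hs1 h3 h2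
    have h1 := hv (i + 1) (by omega)
    have hl : sl T (i + 1) = true := hs
    unfold ct at h3
    rw [hl, hs1] at h1 h3
    have hn := (h i (by omega)).2.2
    rw [hs] at hn
    have h4 := hv i (by omega)
    unfold ct at h2
    rw [hs] at h4 h2
    rcases three_both h1 h3 with k1 | k1 <;> rcases two_rt h4 h2 with k2 | ⟨p, k2⟩ <;>
      rw [k1, k2] at hn <;> simp_all
  · intro i hi hs hs1 h3 h2
    have h1 := hv (i + 1) (by omega)
    have hl : sl T (i + 1) = true := hs
    unfold ct at h3
    rw [hl, hs1] at h1 h3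
    have hn := (h (i + 1) (by omega)).2.2
    rw [hs1] at hn
    have h4 := hv (i + 2) (by omega)
    have hl2 : sl T (i + 2) = true := hs1
    unfold ct at h2
    rw [hl2] at h4 h2
    have hal : (T (i + 2)).ty = .al := by
      rw [show i + 1 + 1 = i + 2 from rfl] at hn
      rcases three_both h1 h3 with k1 | k1 <;> rcases two_lf h4 h2 with k2 | ⟨p, k2⟩ <;>
        rw [k1, k2] at hn <;> simp_all
    rw [hal] at h4
    obtain ⟨b4, s4, -⟩ := h4
    have hlt := hneR (i + 2) (by omega) (by rw [hal]; simp)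
    have hn2 := (h (i + 2) hlt).2.2
    rw [hal, s4] at hn2
    have hbe : (T (i + 3)).ty = .be := by
      rw [show i + 2 + 1 = i + 3 from rfl] at hn2
      generalize (T (i + 3)).ty = t at *
      cases t <;> simp_all
    have hlt3 := hneR (i + 3) (by omega) (by rw [hbe]; simp)
    have h5 := hv (i + 3) (by omega)
    have hl3 : sl T (i + 3) = false := s4
    rw [hbe, hl3] at h5
    obtain ⟨b5, s5, -⟩ := h5
    refine ⟨hlt3, s4, ?_, s5⟩
    unfold ct
    rw [hl3, b5, s5]
    rfl
  · intro hs h3 h2
    have h1 := hv 1 hR1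
    have hl : sl T 1 = true := hs
    have hb0 : (T 0).b = 2 := by
      have e : ct T 0 = (T 0).b + bn false + bn (T 0).s := rfl
      rw [show (T 0).s = true from hs, bn_true, bn_false] at e
      omega
    unfold ct at h2
    rw [hl] at h1 h2
    rcases two_lf h1 h2 with ht | ⟨p, ht⟩
    · right
      have hlt1 := hneR 1 hR1 (by rw [ht]; simp)
      have hn := (h 1 hlt1).2.2
      rw [ht] at h1
      obtain ⟨hb, hs1, -⟩ := h1
      rw [ht, hs1] at hn
      have h4 := hv 2 (by omega)
      have hl2 : sl T 2 = false := hs1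
      have hbe : (T 2).ty = .be := by
        rw [show 1 + 1 = 2 from rfl] at hn
        generalize (T 2).ty = t at *
        cases t <;> simp_all
      have hlt := hneR 2 (by omega) (by rw [hbe]; simp)
      rw [hbe, hl2] at h4
      obtain ⟨b3, s3, -⟩ := h4
      refine ⟨hlt, ?_, s3⟩
      unfold ct
      rw [hl2, b3, s3]
      rfl
    · left
      have hp := (h 0 (by omega)).2.2
      rw [show (T 0).s = true from hs, h0, hb0, show 0 + 1 = 1 from rfl, ht] at hp
      have hp2 : 2 = p := hp
      subst hp2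
      have := hk 1 hR1 ht
      omega
  · intro i hi hs h3 h2
    have h1 := hv i (by omega)
    have hlR : sl T R = true := by
      rw [← hi]
      exact hs
    have hbR : (T R).b = 2 := by
      unfold ct at h3
      rw [hlR, hRs, bn_true, bn_false] at h3
      omega
    unfold ct at h2
    rw [show (T i).s = true from hs] at h1 h2
    rcases two_rt h1 h2 with ht | ⟨p, ht⟩
    · have h5 := hne0 i (by rw [ht]; simp)
      obtain ⟨j, rfl⟩ : ∃ j, i = j + 1 := ⟨i - 1, by omega⟩
      have hn := (h j (by omega)).2.2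
      rw [ht] at h1
      obtain ⟨hb, -, hl⟩ := h1
      have hl' : (T j).s = false := hl
      rw [ht, hl'] at hn
      have h4 := hv j (by omega)
      have hal : (T j).ty = .al := by
        generalize (T j).ty = t at *
        cases t <;> simp_all
      have hlt := hne0 j (by rw [hal]; simp)
      rw [hal] at h4
      obtain ⟨b3, s3, l3⟩ := h4
      obtain ⟨k, rfl⟩ : ∃ k, j = k + 1 := ⟨j - 1, by omega⟩
      refine ⟨by omega, ?_, l3⟩
      rw [show k + 1 + 1 - 1 = k + 1 by omega]
      unfold ct
      rw [l3, b3, s3]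
      rfl
    · exfalso
      have h5 := hne0 i (by rw [ht]; simp)
      obtain ⟨j, rfl⟩ : ∃ j, i = j + 1 := ⟨i - 1, by omega⟩
      have hn := (h (j + 1) (by omega)).2.2
      rw [ht, show (T (j + 1)).s = true from hs, hi, hR, hbR] at hn
      have hn' : p ≤ 2 := hn
      have h4 := (h j (by omega)).2.2
      rw [ht] at h1
      obtain ⟨hb, -, hl⟩ := h1
      have hl' : (T j).s = false := hl
      rw [ht, hl'] at h4
      have h6 := hv j (by omega)
      have e1 : (T j).b = p ∧ (T j).ty = .o := by
        generalize (T j).ty = t at *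
        cases t <;> simp_all
      rw [e1.2] at h6
      have h7 : 2 ≤ (T j).b := h6
      have hp2 : p = 2 := by omega
      subst hp2
      exact hla _ hi ht hbR

end L

open L in
/-- **Every list is the list of an admissible mixed chain.** -/
theorem exists_admS {a : List ℕ} {p : ℕ} {l : List ℕ} (ha : a = p :: l) (hl : l ≠ [])
    (h1 : ∀ x ∈ a, 1 ≤ x) (hp : 2 ≤ p) (hq : ∀ x ∈ a.getLast?, 2 ≤ x) {ε : ℤ}
    (hε : ε = 1 ∨ ε = -1) : ∃ (R : ℕ) (r : ℕ → ℤ),
      AdmS R (fun i => (r i).natAbs) (fun i => decide (0 < r i * r (i + 1))) ∧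
      conwayH ((List.range (R + 1)).map r) = a ∧ (r 0).sign = ε := by
  subst ha
  obtain ⟨T, hp2, hc, he, ⟨s, T', hT⟩, hlast, htie⟩ := exists_good l.length p l rfl hp
    (fun x hx => h1 x (List.mem_cons_of_mem _ hx)) (fun x hx => hq x (by
      obtain ⟨y, l', rfl⟩ := List.exists_cons_of_ne_nil hl
      rw [List.getLast?_cons_cons]
      exact hx))
  have hlen : 2 ≤ T.length := by
    rw [hT] at he hlast ⊢
    cases T' with
    | nil =>
      have hs := (hlast ⟨.o, p, s⟩ (by simp)).2
      simp only at hs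
      subst hs
      simp only [expand, Bool.false_eq_true, if_false, List.cons.injEq, true_and] at he
      exact absurd he.symm hl
    | cons y T'' => simp
  obtain ⟨R, hR⟩ : ∃ R, T.length = R + 1 := ⟨T.length - 1, by omega⟩
  set f : ℕ → Tok := fun i => T.getD i default with hf
  have hfi : ∀ i (hi : i < T.length), f i = T[i] := fun i hi => List.getD_eq_getElem _ _ hi
  have hn : ∀ i, i < R → Nx (f i) (f (i + 1)) := by
    intro i hi
    rw [hfi i (by omega), hfi (i + 1) (by omega)]
    exact List.isChain_iff_getElem.1 hc i (by omega)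
  have hb : ∀ x ∈ T, 1 ≤ x.b := by
    intro x hx
    obtain ⟨i, hi, rfl⟩ := List.getElem_of_mem hx
    rcases Nat.lt_or_ge i R with h2 | h2
    · have h3 := (hn i h2).1
      rw [hfi i hi] at h3
      exact okb_pos h3
    · obtain ⟨j, rfl⟩ : ∃ j, i = j + 1 := ⟨i - 1, by omega⟩
      have h3 := (hn j (by omega)).2.1
      rw [hfi (j + 1) hi] at h3
      exact okb_pos h3
  have hlastT : T.getLast? = some (f R) := by
    rw [List.getLast?_eq_getElem?, hR, Nat.add_sub_cancel, hfi R (by omega)]
    exact List.getElem?_eq_getElem (by omega)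
  have hfR := hlast (f R) (by rw [hlastT]; rfl)
  have hf0 : (f 0).ty = .o := by
    rw [hf, hT]
    rfl
  have hk : ∀ i, i ≤ R → (f i).ty = .ka 2 → i + 1 = R := by
    intro i hi h5
    rw [hfi i (by omega)] at h5
    have h6 := (htie.get i (by omega)).1 h5
    omega
  have hla : ∀ i, i + 1 = R → (f i).ty = .la 2 → (f R).b ≠ 2 := by
    intro i hi h5
    subst hi
    rw [hfi i (by omega)] at h5
    rw [hfi (i + 1) (by omega)]
    exact (htie.get i (by omega)).2 (by omega) h5
  have hadm := adm_fnS hf0 hfR.1 hfR.2 (by omega) hn hk hla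
  set r : ℕ → ℤ := fun i => (rl ε 0 T).getD i 0 with hr
  have hrl : (List.range (R + 1)).map r = rl ε 0 T := by
    apply List.ext_getElem
    · rw [List.length_map, List.length_range, rl_length, hR]
    · intro i h2 h3
      rw [List.getElem_map, List.getElem_range, hr]
      exact List.getD_eq_getElem _ _ h3
  refine ⟨R, r, hadm.congr ?_ ?_, ?_, ?_⟩
  · intro i hi
    simp only [hr]
    rw [rl_abs T ε 0 i hε (by omega)]
    unfold ct
    rcases i with _ | i
    · rw [if_pos rfl]
      rfl
    · rw [if_neg (by omega)]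
      rfl
  · intro i hi
    have h2 := rl_sign T ε 0 i hε (by omega) hb
    by_cases h3 : (f i).s = true
    · rw [h3]
      exact decide_eq_true (h2.2 h3)
    · rw [Bool.not_eq_true] at h3
      rw [h3]
      refine decide_eq_false fun h4 => ?_
      have h5 : (f i).s = true := h2.1 h4
      rw [h3] at h5
      simp at h5
  · rw [hrl]
    unfold conwayH
    rw [conwayHAux_rl T ε 0 hε hb (fun x hx => (hlast x hx).2), he]
  · simp only [hr]
    rw [hT, rl, List.getD_cons_zero]
    have h2 : (0 : ℤ) < ((p + 0 + bn s : ℕ) : ℤ) := by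
      have : 0 < p + 0 + bn s := by omega
      exact_mod_cast this
    rcases hε with rfl | rfl
    · rw [one_mul]
      exact Int.sign_eq_one_of_pos h2
    · rw [neg_one_mul, Int.sign_neg, Int.sign_eq_one_of_pos h2]

open Pool.Agent.S4 in
/-- **Every list is the list of an admissible mixed chain**, with the absorption relation and the
equality of the continued fractions. -/
theorem exists_admS' {m : ℕ} (hm : 1 ≤ m) {a : Fin (m + 1) → ℕ} (h1 : ∀ i, 1 ≤ a i)
    (h0 : 2 ≤ a 0) (hl : 2 ≤ a (Fin.last m)) {ε : ℤ} (hε : ε = 1 ∨ ε = -1) :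
    ∃ (R : ℕ) (r : ℕ → ℤ),
      AdmS R (fun i => (r i).natAbs) (fun i => decide (0 < r i * r (i + 1))) ∧
      conwayH ((List.range (R + 1)).map r) = List.ofFn a ∧ (r 0).sign = ε ∧
      (∃ s : ℤ, Abs (List.ofFn fun i : Fin (m + 1) => ε * (-1) ^ (i : ℕ) * (a i : ℤ))
        ((List.range (R + 1)).map r) s) ∧
      mcf (List.ofFn fun i : Fin (m + 1) => ε * (-1) ^ (i : ℕ) * (a i : ℤ)) =
        mcf ((List.range (R + 1)).map r) := by
  obtain ⟨n, rfl⟩ : ∃ n, m = n + 1 := ⟨m - 1, by omega⟩
  have hmem : ∀ x ∈ List.ofFn a, 1 ≤ x := by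
    intro x hx
    obtain ⟨i, rfl⟩ := (List.mem_ofFn' _ _).mp hx
    exact h1 i
  obtain ⟨R, r, hA, hc, hs⟩ := exists_admS (List.ofFn_succ (f := a)) (by simp) hmem h0
    (fun x hx => by
      rw [List.getLast?_eq_getElem?, List.length_ofFn, Nat.add_sub_cancel,
        List.getElem?_eq_getElem (by simp)] at hx
      simp only [List.getElem_ofFn, Option.mem_def, Option.some.injEq] at hx
      subst hx
      exact hl) hε
  have hcons : (List.range (R + 1)).map r = r 0 :: (List.range R).map (fun i => r (i + 1)) :=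
    HX_range r R
  have hne : ∀ x ∈ (List.range (R + 1)).map r, x ≠ 0 := by
    intro x hx
    obtain ⟨i, hi, rfl⟩ := List.mem_map.1 hx
    have := hA.ha i (by have := List.mem_range.1 hi; omega)
    intro h
    simp only [h, Int.natAbs_zero] at this
    omega
  have hge : ∀ x ∈ conwayH ((List.range (R + 1)).map r), 1 ≤ x := by
    rw [hc]
    exact hmem
  refine ⟨R, r, hA, hc, hs, ?_, ?_⟩
  · obtain ⟨s, h⟩ := abs_conwayH hcons hne hge
    rw [hc, hs, alt_ofFn] at h
    exact ⟨s, h⟩
  · have h := mcf_conwayH hcons hne hge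
    rw [hc, hs, alt_ofFn] at h
    exact h

end Pool.Agent.S5
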