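import Pool.Agent.H25.RK.DGI
import Pool.Agent.H63.GO.MTaylor
import Pool.Agent.H63.VC.Cross
import Pool.Agent.H63.VC.EndB
import Pool.Agent.H63.VC.Riem
import Pool.Agent.H63.VC.SlowL
import Pool.Agent.H63.VC.SlowU
import Pool.Agent.H63.VC11.Brac11
import Pool.Agent.H63.VC4.Checks
import Pool.Agent.H63.VC6.Final6
import Pool.Agent.H63.VC8.QcLL8
import Pool.Agent.S3.Asm.Def
import Pool.Agent.S3.CV.Defs
import Pool.Agent.S3.FinL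
import Pool.Agent.S4.B.Types
import Pool.Agent.S4.F.Fin1
import Pool.Agent.S4.F.Np1

/-!
# Stage 3b, colored `SU(n)` invariants: from the asymptotics of the mixed chain to the statement
-/

set_option autoImplicit false

namespace Pool.Agent.S5

open Complex Filter Topology
open Pool.Agent.H63.VC (structureVolumes)

open Pool.Agent.H63.VC11 (coloredSU diagram)
open Pool.Agent.S3
open Pool.Agent.S4 (mcf OkL exr nn JG4 fin4 C4 C4_spec tendsto_np1)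

/-- The relation between the annuli `r` and the link `C(a)`. -/
def Rel {p m : ℕ} (r : Fin (p + 1) → ℤ) (a : Fin (m + 1) → ℕ) (ε : ℤ) : Prop :=
  ∃ k : ℤ, (mcf (List.ofFn fun i => 2 * r i))⁻¹ -
    (mcf (List.ofFn fun i : Fin (m + 1) => ε * (-1) ^ (i : ℕ) * (a i : ℤ)))⁻¹ = k

/-- The statement about the list `a` and the sign `ε`. -/
def StmtN (m : ℕ) (a : Fin (m + 1) → ℕ) (ε : ℤ) : Prop :=
  ∃ V C : ℝ, IsGreatest (structureVolumes (List.ofFn a)) V ∧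
    (∃ Z : ℂ, CV.IsComplexVolume (List.ofFn a) (decide (ε = -1)) Z ∧
      ∃ k : ℤ, Z = I * (V + C * I) + k * (Real.pi : ℂ) ^ 2) ∧
    (∃ (p : ℕ) (r : Fin (p + 1) → ℤ), (∀ i, r i ≠ 0) ∧ Rel r a ε) ∧
    ∀ n g : ℕ, 2 ≤ n → 1 ≤ g → g < n → ∀ (p : ℕ) (r : Fin (p + 1) → ℤ), (∀ i, r i ≠ 0) →
      Rel r a ε →
      ∃ J : ℕ → ℂ,
        (∀ N : ℕ, n ≤ N → Tendsto (fun q => coloredSU (diagram Fin.castSucc r) n N q)
          (𝓝[≠] exp (Real.pi * I / (N + g))) (𝓝 (J N))) ∧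
        (∃ L : ℕ → ℂ, (∀ᶠ N : ℕ in atTop, exp (L N) = J N) ∧
          Tendsto (fun N : ℕ => 2 * (Real.pi : ℂ) * L N / (N + 1)) atTop (𝓝 (V + C * I))) ∧
        Tendsto (fun N : ℕ => 2 * (Real.pi : ℂ) * log (J N) / (N + 1)) atTop (𝓝 (V : ℂ)) ∧
        ∃ κ : ℂ, κ ≠ 0 ∧ Tendsto (fun N : ℕ => J N /
          ((((N : ℝ) + g) ^ (2 * (n : ℝ) - 5 / 2) : ℝ) *
            exp ((N + g) * (V + C * I) / (2 * Real.pi)))) atTop (𝓝 κ)

/-- The final statement from the asymptotics of the state sum of a mixed chain `c`. -/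
theorem stmtN_of_lim {m R : ℕ} {a : Fin (m + 1) → ℕ} {ε : ℤ} {c : Fin (R + 1) → ℤ}
    (hca : mcf (List.ofFn c) =
      mcf (List.ofFn fun i : Fin (m + 1) => ε * (-1) ^ (i : ℕ) * (a i : ℤ)))
    (htypes : ∀ (p : ℕ) (r : Fin (p + 1) → ℤ), (∀ i, r i ≠ 0) →
      (∃ k : ℤ, (mcf (List.ofFn fun i => 2 * r i))⁻¹ - (mcf (List.ofFn c))⁻¹ = k) →
      ∃ P : Fin (R + 1) → Bool, OkL 0 (List.ofFn fun i => (P i, c i)) ∧
        List.ofFn r = exr 0 (List.ofFn fun i => (P i, c i)))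
    (W : ℂ) (hV : IsGreatest (structureVolumes (List.ofFn a)) (2 * Real.pi * W.re))
    (hZ : ∃ Z : ℂ, CV.IsComplexVolume (List.ofFn a) (decide (ε = -1)) Z ∧
      ∃ k : ℤ, Z = 2 * Real.pi * I * W + (Real.pi : ℂ) ^ 2 / 2 * (∑ i, (c i : ℂ)) +
        k * (Real.pi : ℂ) ^ 2)
    (hann : ∃ (p : ℕ) (r : Fin (p + 1) → ℤ), (∀ i, r i ≠ 0) ∧ Rel r a ε)
    (hlim : ∀ n h : ℕ, 2 ≤ n → 1 ≤ h → 2 * h ≤ n → ∀ P : Fin (R + 1) → Bool,
      OkL 0 (List.ofFn fun i => (P i, c i)) → ∃ κ0 : ℂ, κ0 ≠ 0 ∧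
      Tendsto (fun M : ℕ => (∏ i : Fin (R + 1), (-1 : ℂ) ^ (M + nn n (P i) + 1)) *
        JG4 P (fun i => (c i : ℝ) / 2) n h M /
        ((((M : ℝ) ^ (3 / 2 * ((R : ℝ) + 1) + R / 2) : ℝ) : ℂ) * exp (M * W))) atTop (𝓝 κ0)) :
    StmtN m a ε := by
  obtain ⟨Z, hZ, k', hk'⟩ := hZ
  obtain ⟨k, hk⟩ := C4_spec c W Finset.univ
  refine ⟨2 * Real.pi * W.re, C4 c W Finset.univ, hV, ⟨Z, hZ, k' - k, ?_⟩, hann, ?_⟩
  · rw [hk, hk']
    push_cast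
    ring
  intro n g hn hg hgn p r hr0 hr
  obtain ⟨P, hP, hPr⟩ := htypes p r hr0 (by rw [hca]; exact hr)
  obtain ⟨κ0, hκ0, hl⟩ := hlim n (min g (n - g)) hn (by omega) (by omega) P hP
  obtain ⟨J, hJ, ⟨L, hL, hL2⟩, hlog, hκ⟩ :=
    fin4 P c hP r hPr hn hg hgn W Finset.univ hκ0 hl
  exact ⟨J, hJ, ⟨L, hL, tendsto_np1 hL2⟩, tendsto_np1 hlog, hκ⟩

end Pool.Agent.S5
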