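import Pool.Agent.H63.GO.AAll
import Pool.Agent.H63.GO.ALm
import Pool.Agent.H63.GO.FarNum
import Pool.Agent.H63.GO.FlipB
import Pool.Agent.H63.GO.FlipC
import Pool.Agent.H63.GO.KLoc
import Pool.Agent.H63.GO.MSide
import Pool.Agent.H63.GO.NegNum
import Pool.Agent.H63.GO.TBlk
import Pool.Agent.H63.GV.TLim
import Pool.Agent.H63.TC.Main
import Pool.Agent.S5.FinN
import Pool.Agent.S5.N.Typ

/-!
# Stage 3b: the figure eight knot
-/

set_option autoImplicit false

namespace Pool.Agent.S5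

open Complex Filter Topology
open Pool.Agent.H63.VC (structureVolumes)
open Pool.Agent.S4 (mcf OkL exr hs)

theorem eight_list {ε : ℤ} (hε : ε = 1 ∨ ε = -1) (P0 P1 : Bool)
    (h : OkL 0 [(P0, 2 * ε), (P1, -(2 * ε))]) :
    exr 0 [(P0, 2 * ε), (P1, -(2 * ε))] = [ε, -ε] := by
  rcases hε with rfl | rfl
  · cases P0
    · cases P1
      · rfl
      · exfalso
        have h1 : (2 : ℤ) ∣ 2 * 1 - 0 - (-(2 * 1) : ℤ).sign := h.1
        revert h1
        decide
    · cases P1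
      · exfalso
        have h1 : (2 : ℤ) ∣ -(2 * 1) - (2 * 1 : ℤ).sign - 0 := h.2.2.1
        revert h1
        decide
      · exact absurd rfl (h.2.1 _ _)
  · cases P0
    · cases P1
      · rfl
      · exfalso
        have h1 : (2 : ℤ) ∣ 2 * -1 - 0 - (-(2 * -1) : ℤ).sign := h.1
        revert h1
        decide
    · cases P1
      · exfalso
        have h1 : (2 : ℤ) ∣ -(2 * -1) - (2 * -1 : ℤ).sign - 0 := h.2.2.1
        revert h1
        decide
      · exact absurd rfl (h.2.1 _ _)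

/-- **The statement about the figure eight knot.** -/
theorem stmtN_22 {ε : ℤ} (hε : ε = 1 ∨ ε = -1) : StmtN 1 ![2, 2] ε := by
  have hee : ε * ε = 1 := by rcases hε with rfl | rfl <;> norm_num
  have h0 : ε ≠ 0 := by rcases hε with rfl | rfl <;> norm_num
  obtain ⟨V, C, hV, ⟨Z, hZ, hk⟩, hmain⟩ := Pool.Agent.H63.TC.fin_all ε (-ε) (neg_ne_zero.2 h0)
    (Or.inr (by rw [mul_neg, hee]))
  have hc : Pool.Agent.H63.VC4.conway [ε, -ε] = [2, 2] := by rcases hε with rfl | rfl <;> rfl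
  have ha : List.ofFn (![2, 2] : Fin 2 → ℕ) = [2, 2] := rfl
  rw [hc] at hV hZ
  have hdec : decide (ε < 0) = decide (ε = -1) := by rcases hε with rfl | rfl <;> rfl
  rw [hdec] at hZ
  have hcf : (List.ofFn fun i : Fin (1 + 1) => ε * (-1) ^ (i : ℕ) * ((![2, 2] : Fin 2 → ℕ) i : ℤ)) =
      [2 * ε, -(2 * ε)] := by
    rcases hε with rfl | rfl <;> rfl
  have hl2 : (List.ofFn fun i : Fin (1 + 1) => 2 * (![ε, -ε] : Fin 2 → ℤ) i) =
      [2 * ε, -(2 * ε)] := by
    rcases hε with rfl | rfl <;> rfl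
  refine ⟨V, C, by rw [ha]; exact hV, ⟨Z, ?_, hk⟩, ⟨1, ![ε, -ε], ?_, 0, ?_⟩, ?_⟩
  · rw [ha]
    obtain ⟨l, z, w, j, p, q, hw, hw0, h1, h2, h3, hj, hj2, h4, h5⟩ := hZ
    exact ⟨l, z, w, j, p, q, hw0, Or.inl ⟨hw, hj, hj2⟩, h1, h2, h3, h4, h5⟩
  · intro i
    match i with
    | 0 => exact h0
    | 1 => exact neg_ne_zero.2 h0
  · rw [hcf, hl2]
    simp
  · intro n g hn hg hgn p r hr0 hr
    obtain ⟨k, hk2⟩ := hr
    rw [hcf] at hk2
    have hb : List.ofFn (![2 * ε, -(2 * ε)] : Fin (1 + 1) → ℤ) = [2 * ε, -(2 * ε)] := rfl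
    have hmx : Mx (List.ofFn (![2 * ε, -(2 * ε)] : Fin (1 + 1) → ℤ)) := by
      rw [hb]
      refine ⟨?_, ?_, ?_⟩
      · rcases hε with rfl | rfl <;> norm_num
      · intro h1
        exfalso
        nlinarith
      · show 2 ≤ |-(2 * ε)|
        rcases hε with rfl | rfl <;> norm_num
    obtain ⟨P, hP, hPr⟩ := types_mx ![2 * ε, -(2 * ε)] hmx r hr0 ⟨k, by rw [hb]; exact hk2⟩
    have hl : (List.ofFn fun i : Fin (1 + 1) => (P i, (![2 * ε, -(2 * ε)] : Fin 2 → ℤ) i)) =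
        [(P 0, 2 * ε), (P 1, -(2 * ε))] := rfl
    rw [hl] at hP hPr
    rw [eight_list hε _ _ hP] at hPr
    have hlen := congrArg List.length hPr
    rw [List.length_ofFn] at hlen
    have hp : p = 1 := by simpa using hlen
    subst hp
    have hr2 : r = ![ε, -ε] := by
      apply List.ofFn_injective
      rw [hPr]
      rfl
    subst hr2
    obtain ⟨J, hJ, hL, hlog, hκ⟩ := hmain n g hn hg (by omega)
    exact ⟨J, fun N _ => hJ N, hL, hlog, hκ⟩

/-- The statement about a list which is `[2, 2]`. -/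
theorem stmtN_of_22 {m : ℕ} {a : Fin (m + 1) → ℕ} (h : List.ofFn a = [2, 2]) {ε : ℤ}
    (hε : ε = 1 ∨ ε = -1) : StmtN m a ε := by
  have hlen := congrArg List.length h
  rw [List.length_ofFn] at hlen
  have hm : m = 1 := by simpa using hlen
  subst hm
  have ha : a = ![2, 2] := by
    apply List.ofFn_injective
    rw [h]
    rfl
  subst ha
  exact stmtN_22 hε

end Pool.Agent.S5
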