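import Pool.Agent.H25.RK.DGI
import Pool.Agent.H63.GO.MTaylor
import Pool.Agent.H63.VC.Cross
import Pool.Agent.H63.VC6.Final6
import Pool.Agent.S3.Asm.Def
import Pool.Agent.S3.CV.Defs
import Pool.Agent.S3.FinL
import Pool.Agent.S5.X.AbsH

/-!
# Stage 3b: from the asymptotics of the mixed chain to the alternating diagram
-/

set_option autoImplicit false

namespace Pool.Agent.S5

open Complex Pool.Agent.H63.VC Pool.Agent.H63.VC7 Pool.Agent.H63.VC10 Pool.Agent.H1TB Pool.Agent.S3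
open Filter Topology

/-- The statement about the list `a`, the sign `ε` and the framing `e`. -/
def Stmt (m : ℕ) (a : Fin (m + 1) → ℕ) (ε e : ℤ) : Prop :=
  ∃ V C : ℝ, IsGreatest (structureVolumes (List.ofFn a)) V ∧
    (∃ Z : ℂ, CV.IsComplexVolume (List.ofFn a) (decide (ε = -1)) Z ∧
      ∃ k : ℤ, Z = I * (V + C * I) + k * (Real.pi : ℂ) ^ 2) ∧
    ∃ J : ℕ → ℂ,
      (∀ N : ℕ, Tendsto (fun q => coloredJones
        (diagram Fin.castSucc (fun i : Fin (m + 1) => ε * (-1) ^ (i : ℕ) * (a i : ℤ))) e N q)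
        (𝓝[≠] exp (Real.pi * I / ((N + 1 : ℕ) : ℂ))) (𝓝 (J N))) ∧
      (∃ L : ℕ → ℂ, (∀ᶠ N : ℕ in atTop, exp (L N) = J N) ∧
        Tendsto (fun N : ℕ => 2 * (Real.pi : ℂ) * L N / (N + 1)) atTop (𝓝 (V + C * I))) ∧
      Tendsto (fun N : ℕ => 2 * (Real.pi : ℂ) * log (J N) / (N + 1)) atTop (𝓝 (V : ℂ)) ∧
      ∃ κ : ℂ, κ ≠ 0 ∧ Tendsto (fun N : ℕ => J N /
        ((((N : ℝ) + 1) ^ (3 / 2 : ℝ) : ℝ) *
          exp ((N + 1) * (V + C * I) / (2 * Real.pi)))) atTop (𝓝 κ)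

/-- The final statement from the asymptotics of the state sum of a mixed chain `c`. -/
theorem stmt_of_lim {m R : ℕ} {a : Fin (m + 1) → ℕ} {c : Fin (R + 1) → ℤ}
    (hca : conwayH (List.ofFn c) = List.ofFn a) (ha : ∀ i, 1 ≤ a i) (hc : ∀ i, c i ≠ 0)
    (W : ℂ) (n : ℕ) {κ0 : ℂ} (hκ0 : κ0 ≠ 0)
    (hlim : Tendsto (fun M : ℕ => ((-1 : ℂ) ^ (M + 1)) ^ n *
      JG (Fin.castSucc (n := R)) Fin.succ (fun i => (c i : ℝ) / 2) M /
      ((((M : ℝ) ^ (3 / 2 * ((R : ℝ) + 1) + R / 2) : ℝ) : ℂ) * exp (M * W))) atTop (𝓝 κ0))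
    (hV : IsGreatest (structureVolumes (List.ofFn a)) (2 * Real.pi * W.re))
    (hZ : ∃ Z : ℂ, CV.IsComplexVolume (List.ofFn a) (decide ((c 0).sign = -1)) Z ∧
      ∃ k : ℤ, Z = 2 * Real.pi * I * W + (Real.pi : ℂ) ^ 2 / 2 * (∑ i, (c i : ℂ)) +
        k * (Real.pi : ℂ) ^ 2) (e : ℤ) : Stmt m a (c 0).sign e := by
  obtain ⟨s, hs⟩ := coloredJones_alt hca ha hc
  obtain ⟨C, ⟨k, hk⟩, J, hJ, hL, hlog, hκ⟩ := fin_of_lim c W n hκ0 hlim (e + s)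
  refine ⟨2 * Real.pi * W.re, C, hV, ?_, J, ?_, ?_, ?_, ?_⟩
  · obtain ⟨Z, hZ, k', hk'⟩ := hZ
    refine ⟨Z, hZ, k' - k, ?_⟩
    rw [hk, hk']
    push_cast
    ring
  · intro N
    refine (hJ N).congr' ?_
    filter_upwards [Fin10_gen_ev _ N] with q hq
    exact (hs q N hq e).symm
  · exact hL
  · exact hlog
  · exact hκ

end Pool.Agent.S5
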