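import Pool.Agent.S5.I.InqH
import Pool.Agent.S5.Ctx
import Pool.Agent.S5.BxV

/-!
# Stage 3b: the statements about the critical points and the classes of nodes

`OpenB T`, `OpenN T`: all statements that the proof needs about the critical points and the nodes.
-/

set_option autoImplicit false

namespace Pool.Agent.S5

open Complex
open Pool.Agent.S5.E (Vt aF nlF nrF nF Zr)
open Pool.Agent.S5.G (O3 O4 zz3 zz4 sy)

/-- The facts about the critical points. -/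
structure OpenB (T : Vt → Vt → E.B2.Rg) : Prop where
  harg : ∀ (R : ℕ) (a : ℕ → ℕ) (S : ℕ → Bool), AdmS R a S → ∀ z,
    Zr true (aF R a) (nlF R S) (nrF R S) (E.gC (aF R a) (nlF R S) (nrF R S)) 1 z →
      ∀ i, aF R a i = 2 → -(cos (z i)).im < (cos (z i)).re
  tab : ∀ (R : ℕ) (a : ℕ → ℕ) (S : ℕ → Bool), AdmS R a S → ∀ z,
    Zr true (aF R a) (nlF R S) (nrF R S) (E.gC (aF R a) (nlF R S) (nrF R S)) 1 z →
      E.Tab T (nF R a) (nlF R S) (nrF R S) z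
  o3 : ∀ (R : ℕ) (a : ℕ → ℕ) (S : ℕ → Bool) (z ql qr : ℕ → ℂ) (zF : Fin (R + 1) → ℂ),
    Pre T R a S z ql qr zF → ∀ i, i ≤ R → a i = 3 →
      O3 (qB' (flO R a S) ql qr i) (qO' (flO R a S) ql qr i)
  o4 : ∀ (R : ℕ) (a : ℕ → ℕ) (S : ℕ → Bool) (z ql qr : ℕ → ℂ) (zF : Fin (R + 1) → ℂ),
    Pre T R a S z ql qr zF → ∀ i, 0 < i → i < R → a i = 4 → O4 (ql i) (qr i)
  y : ∀ (R : ℕ) (a : ℕ → ℕ) (S : ℕ → Bool) (r : ℕ → ℤ) (z ql qr : ℕ → ℂ)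
    (zF : Fin (R + 1) → ℂ), Pre T R a S z ql qr zF →
      HG R a S (flO R a S) z ql qr r (KO R a S r z ql qr) →
        ∀ i, i < R → |(sy (qr i) (z i)).im| ≤ 3 / 20
  z3 : ∀ (R : ℕ) (a : ℕ → ℕ) (S : ℕ → Bool) (r : ℕ → ℤ) (z ql qr : ℕ → ℂ)
    (zF : Fin (R + 1) → ℂ), Pre T R a S z ql qr zF →
    HG R a S (flO R a S) z ql qr r (KO R a S r z ql qr) → ∀ i, i ≤ R → a i = 3 →
      |(zz3 (qB' (flO R a S) ql qr i) (qO' (flO R a S) ql qr i) (z i)).im| ≤ 3 / 20 ∧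
      |(zz3 (qB' (flO R a S) ql qr i) (qO' (flO R a S) ql qr i) (z i)).re| < z1O R a S i
  z4 : ∀ (R : ℕ) (a : ℕ → ℕ) (S : ℕ → Bool) (r : ℕ → ℤ) (z ql qr : ℕ → ℂ)
    (zF : Fin (R + 1) → ℂ), Pre T R a S z ql qr zF →
    HG R a S (flO R a S) z ql qr r (KO R a S r z ql qr) → ∀ i, 0 < i → i < R → a i = 4 →
      |(zz4 (qB' (flO R a S) ql qr i) (qO' (flO R a S) ql qr i) (z i)).im| ≤ 3 / 20 ∧
      |(zz4 (qB' (flO R a S) ql qr i) (qO' (flO R a S) ql qr i) (z i)).re| < z1O R a S i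

/-- The variable of a node with three half twists, in the frame of the node. -/
noncomputable def zT (R : ℕ) (a : ℕ → ℕ) (S : ℕ → Bool) (z ql qr : ℕ → ℂ) (i : ℕ) : ℂ :=
  zz3 (qB' (flO R a S) ql qr i) (qO' (flO R a S) ql qr i) (z i)

/-- The variable of an inner node with four half twists, in the frame of the node. -/
noncomputable def zQ (R : ℕ) (a : ℕ → ℕ) (S : ℕ → Bool) (z ql qr : ℕ → ℂ) (i : ℕ) : ℂ :=
  zz4 (qB' (flO R a S) ql qr i) (qO' (flO R a S) ql qr i) (z i)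

/-- The statement about a node with two half twists. -/
def CL (R : ℕ) (a : ℕ → ℕ) (S : ℕ → Bool) (z ql qr : ℕ → ℂ) (i : ℕ) : Prop :=
  VClH (ntG R a i) (slL R a S z ql i) (slR R a S z qr i)

/-- The statement about a node with three half twists. -/
def Z3 (R : ℕ) (a : ℕ → ℕ) (S : ℕ → Bool) (z ql qr : ℕ → ℂ) (i : ℕ) : Prop :=
  VZ (Ez3 (slB R a S (flO R a S) z ql qr i).ys (zT R a S z ql qr i)
      (slO R a S (flO R a S) z ql qr i).ys) (ntG R a i) (z1O R a S i) (zT R a S z ql qr i)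
    (slB R a S (flO R a S) z ql qr i) (slO R a S (flO R a S) z ql qr i)

/-- The statement about an inner node with four half twists. -/
def Z4 (R : ℕ) (a : ℕ → ℕ) (S : ℕ → Bool) (z ql qr : ℕ → ℂ) (i : ℕ) : Prop :=
  VZ (Ez4 (slB R a S (flO R a S) z ql qr i).ys (zQ R a S z ql qr i)
      (slO R a S (flO R a S) z ql qr i).ys) (ntG R a i) (z1O R a S i) (zQ R a S z ql qr i)
    (slB R a S (flO R a S) z ql qr i) (slO R a S (flO R a S) z ql qr i)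

/-- The statement about the left slot of a node with an integration variable. -/
def VSL (R : ℕ) (a : ℕ → ℕ) (S : ℕ → Bool) (z ql : ℕ → ℂ) (i : ℕ) : Prop :=
  VS (ntG R a i) (x1O a i) (z i / Real.pi) (slL R a S z ql i)

/-- The statement about the right slot of a node with an integration variable. -/
def VSR (R : ℕ) (a : ℕ → ℕ) (S : ℕ → Bool) (z qr : ℕ → ℂ) (i : ℕ) : Prop :=
  VS (ntG R a i) (x1O a i) (z i / Real.pi) (slR R a S z qr i)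

/-- The statements about the nodes. -/
structure OpenN (T : Vt → Vt → E.B2.Rg) : Prop where
  /-- INNER 2 -/
  i2 : ∀ (R : ℕ) (a : ℕ → ℕ) (S : ℕ → Bool) (r : ℕ → ℤ) (z ql qr : ℕ → ℂ)
    (zF : Fin (R + 1) → ℂ), Ctx T R a S r z ql qr zF →
      ∀ i, i + 1 < R → a (i + 1) = 2 → CL R a S z ql qr (i + 1)
  /-- END 2 -/
  e2l : ∀ (R : ℕ) (a : ℕ → ℕ) (S : ℕ → Bool) (r : ℕ → ℤ) (z ql qr : ℕ → ℂ)
    (zF : Fin (R + 1) → ℂ), Ctx T R a S r z ql qr zF → a 0 = 2 → CL R a S z ql qr 0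
  e2r : ∀ (R : ℕ) (a : ℕ → ℕ) (S : ℕ → Bool) (r : ℕ → ℤ) (z ql qr : ℕ → ℂ)
    (zF : Fin (R + 1) → ℂ), Ctx T R a S r z ql qr zF →
      ∀ i, i + 1 = R → a (i + 1) = 2 → CL R a S z ql qr (i + 1)
  /-- INNER 3 -/
  i3 : ∀ (R : ℕ) (a : ℕ → ℕ) (S : ℕ → Bool) (r : ℕ → ℤ) (z ql qr : ℕ → ℂ)
    (zF : Fin (R + 1) → ℂ), Ctx T R a S r z ql qr zF →
      ∀ i, i + 1 < R → a (i + 1) = 3 → Z3 R a S z ql qr (i + 1)
  /-- END 3 -/
  e3l : ∀ (R : ℕ) (a : ℕ → ℕ) (S : ℕ → Bool) (r : ℕ → ℤ) (z ql qr : ℕ → ℂ)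
    (zF : Fin (R + 1) → ℂ), Ctx T R a S r z ql qr zF → a 0 = 3 → Z3 R a S z ql qr 0
  e3r : ∀ (R : ℕ) (a : ℕ → ℕ) (S : ℕ → Bool) (r : ℕ → ℤ) (z ql qr : ℕ → ℂ)
    (zF : Fin (R + 1) → ℂ), Ctx T R a S r z ql qr zF →
      ∀ i, i + 1 = R → a (i + 1) = 3 → Z3 R a S z ql qr (i + 1)
  /-- INNER 4 -/
  i4 : ∀ (R : ℕ) (a : ℕ → ℕ) (S : ℕ → Bool) (r : ℕ → ℤ) (z ql qr : ℕ → ℂ)
    (zF : Fin (R + 1) → ℂ), Ctx T R a S r z ql qr zF →
      ∀ i, i + 1 < R → a (i + 1) = 4 → Z4 R a S z ql qr (i + 1)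
  /-- END 4 -/
  e4l : ∀ (R : ℕ) (a : ℕ → ℕ) (S : ℕ → Bool) (r : ℕ → ℤ) (z ql qr : ℕ → ℂ)
    (zF : Fin (R + 1) → ℂ), Ctx T R a S r z ql qr zF → a 0 = 4 → VSR R a S z qr 0
  e4r : ∀ (R : ℕ) (a : ℕ → ℕ) (S : ℕ → Bool) (r : ℕ → ℤ) (z ql qr : ℕ → ℂ)
    (zF : Fin (R + 1) → ℂ), Ctx T R a S r z ql qr zF →
      ∀ i, i + 1 = R → a (i + 1) = 4 → VSL R a S z ql (i + 1)
  /-- five or more half twists -/
  vr : ∀ (R : ℕ) (a : ℕ → ℕ) (S : ℕ → Bool) (r : ℕ → ℤ) (z ql qr : ℕ → ℂ)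
    (zF : Fin (R + 1) → ℂ), Ctx T R a S r z ql qr zF →
      ∀ i, i < R → 5 ≤ a i → VSR R a S z qr i
  vl : ∀ (R : ℕ) (a : ℕ → ℕ) (S : ℕ → Bool) (r : ℕ → ℤ) (z ql qr : ℕ → ℂ)
    (zF : Fin (R + 1) → ℂ), Ctx T R a S r z ql qr zF →
      ∀ i, i < R → 5 ≤ a (i + 1) → VSL R a S z ql (i + 1)

theorem oF_three {R : ℕ} {a : ℕ → ℕ} {S : ℕ → Bool} {r : ℕ → ℤ} {z ql qr : ℕ → ℂ} {i : ℕ}
    (h : (r i).natAbs = 3) : oF R r (flO R a S) z ql qr i = zT R a S z ql qr i := by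
  unfold oF
  rw [tyG_three h]
  exact if_pos h

theorem oF_four {R : ℕ} {a : ℕ → ℕ} {S : ℕ → Bool} {r : ℕ → ℤ} {z ql qr : ℕ → ℂ} {i : ℕ}
    (h : (r i).natAbs = 4) (h0 : i ≠ 0) (h1 : i ≠ R) :
    oF R r (flO R a S) z ql qr i = zQ R a S z ql qr i := by
  unfold oF
  rw [tyG_four h h0 h1]
  exact if_neg (by omega)

end Pool.Agent.S5
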