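import Pool.Agent.H63.VC.Asym
import Pool.Agent.H63.VC.EndB
import Pool.Agent.H63.VC.Riem
import Pool.Agent.H63.VC.SlowL
import Pool.Agent.H63.VC.SlowU
import Pool.Agent.H63.VC3.CritB
import Pool.Agent.H63.VC3.Upper
import Pool.Agent.H63.VC4.KBN
import Pool.Agent.H63.VC4.UpperN
import Pool.Agent.H63.VC5.Defs
import Pool.Agent.H63.VC5.FFdilog
import Pool.Agent.H63.VC6.LocU
import Pool.Agent.H63.VC6.SlotU
import Pool.Agent.H63.VC7.Link
import Pool.Agent.H63.VC7.QcLL
import Pool.Agent.S3.Gr1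

/-!
# The tangent lines of `Rf` on horizontal segments
-/

set_option autoImplicit false

namespace Pool.Agent.S5

open Pool.Agent.H63.VC3 Pool.Agent.S3 Complex MeasureTheory Filter Topology Set

theorem Lg_mono_re {s t t' : ℝ} (h0 : 0 < t) (h1 : t ≤ t') (h2 : t' ≤ 1 / 2) :
    Lg s t ≤ Lg s t' := by
  have hpi := Real.pi_pos
  have hs : 0 < Real.sin (Real.pi * t) := Real.sin_pos_of_pos_of_lt_pi (by positivity) (by nlinarith)
  have hm : Real.sin (Real.pi * t) ≤ Real.sin (Real.pi * t') :=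
    Real.sin_le_sin_of_le_of_le_pi_div_two (by nlinarith) (by nlinarith) (by nlinarith)
  have e1 := norm_sin_pi_sq t s
  have e2 := norm_sin_pi_sq t' s
  have hsh := sq_nonneg (Real.sinh (Real.pi * s))
  have hn : 0 < ‖sin (Real.pi * ((t : ℂ) + s * I))‖ := by
    have h3 : 0 < ‖sin (Real.pi * ((t : ℂ) + s * I))‖ ^ 2 := by
      rw [e1]
      positivity
    rcases (norm_nonneg (sin (Real.pi * ((t : ℂ) + s * I)))).lt_or_eq with h | h
    · exact h
    · rw [← h] at h3
      norm_num at h3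
  have hle : ‖sin (Real.pi * ((t : ℂ) + s * I))‖ ≤ ‖sin (Real.pi * ((t' : ℂ) + s * I))‖ := by
    rw [← sq_le_sq₀ (norm_nonneg _) (norm_nonneg _), e1, e2]
    nlinarith
  unfold Lg
  apply Real.log_le_log
  · rw [norm_mul, norm_ofNat]
    positivity
  · rw [norm_mul, norm_mul, norm_ofNat]
    linarith

/-- `Rf` lies above its tangent lines on horizontal segments in the left half of the strip. -/
theorem Rf_tangent {s x x0 : ℝ} (h0 : 0 ≤ x) (h1 : x ≤ 1 / 2) (h2 : 0 < x0) (h3 : x0 ≤ 1 / 2) :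
    Lg s x0 * (x - x0) ≤ Rf ((x : ℂ) + s * I) - Rf ((x0 : ℂ) + s * I) := by
  have e : ∫ t in x0..x, Lg s t = Rf ((x : ℂ) + s * I) - Rf ((x0 : ℂ) + s * I) :=
    Lg_integral s x0 x
  rw [← e]
  have hc : ∫ _t in x0..x, Lg s x0 = Lg s x0 * (x - x0) := by
    rw [intervalIntegral.integral_const, smul_eq_mul]
    ring
  rw [← hc]
  rcases le_total x0 x with h | h
  · apply intervalIntegral.integral_mono_on h (by simp) (Lg_integrable _ _ _)
    intro t ht
    exact Lg_mono_re h2 ht.1 (ht.2.trans h1)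
  · rw [intervalIntegral.integral_symm, intervalIntegral.integral_symm x x0]
    apply neg_le_neg
    apply intervalIntegral.integral_mono_on_of_le_Ioo h (Lg_integrable _ _ _) (by simp)
    intro t ht
    exact Lg_mono_re (lt_of_le_of_lt h0 ht.1) ht.2.le h3

end Pool.Agent.S5
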