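import Pool.Agent.S5.MainH
import Pool.Agent.S5.LastD

/-!
# Stage 3b: the chain from the statements about the classes of nodes
-/

set_option autoImplicit false

namespace Pool.Agent.S5

open Complex
open Pool.Agent.S5.E (Vt aF nlF nrF nF Zr)
open Pool.Agent.S5.G (O3 O4 zz3 zz4 sy)

/-- **The chain.** -/
theorem chain_all {T : Vt → Vt → E.B2.Rg} (B : OpenB T) (N : OpenN T) (R : ℕ) (r : ℕ → ℤ)
    (hA : AdmS R (fun i => (r i).natAbs) (fun i => decide (0 < r i * r (i + 1))))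
    (hne : ¬(R = 1 ∧ (r 0).natAbs = 2 ∧ (r 1).natAbs = 2)) : Chain R r := by
  have hR := hA.hR
  generalize ha : (fun i => (r i).natAbs) = a at hA
  generalize hS : (fun i => decide (0 < r i * r (i + 1))) = S at hA
  have hri : ∀ i, (r i).natAbs = a i := fun i => by rw [← ha]
  obtain ⟨z, ql, qr, zF, sol⟩ := exists_sol hA.toAdm (B.harg R a S hA)
  have pre : Pre T R a S z ql qr zF :=
    ⟨hA, by rw [← hri 0, ← hri 1]; exact hne, sol, B.tab R a S hA zF sol.zr⟩
  have hbx : BxG R a S (flO R a S) z ql qr := sol.bx hA.toAdm (fun _ => flO_zero R a S)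
    (fun _ => flO_last hR a S) (B.o3 R a S z ql qr zF pre) (B.o4 R a S z ql qr zF pre)
  have hg : HG R a S (flO R a S) z ql qr r (KO R a S r z ql qr) :=
    HG_of sol.crt hbx (fun i _ => hri i) (fun i _ => by rw [← hS]; simp)
  have hcb : CBd R a S z ql qr := ⟨B.y R a S r z ql qr zF pre hg, B.z3 R a S r z ql qr zF pre hg,
    B.z4 R a S r z ql qr zF pre hg, sol.v⟩
  have ctx : Ctx T R a S r z ql qr zF := ⟨pre, hg, hcb⟩
  have hn : ∀ i, i ≤ R → Complex.normSq (cos (z i)) ≤ 2 := fun i hi => by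
    have e : z i = zF ⟨i, by omega⟩ := sol.ez ⟨i, by omega⟩
    have h1 := (sol.zr.own ⟨i, by omega⟩).hi
    rw [← e] at h1
    have h2 : (cos (z i)).re ^ 2 + (-(cos (z i)).im) ^ 2 = Complex.normSq (cos (z i)) := by
      rw [Complex.normSq_apply]
      ring
    rw [h2] at h1
    norm_num [E.rOwn] at h1
    linarith
  subst ha
  subst hS
  refine chain_of_nodesH hR sol.crt hbx hcb hn fun i => ?_
  have hi : (i : ℕ) ≤ R := by
    have := i.isLt
    omega
  have h2 := sol.crt.ha i hi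
  rcases (show (r i).natAbs = 2 ∨ (r i).natAbs = 3 ∨ (r i).natAbs = 4 ∨ 5 ≤ (r i).natAbs by omega)
    with hai | hai | hai | hai
  · -- two half twists
    refine hg.nd_clH hi hai ?_ _
    rcases Nat.eq_zero_or_pos (i : ℕ) with h0 | h0
    · rw [h0]
      exact N.e2l _ _ _ _ _ _ _ _ ctx (by rw [← h0]; exact hai)
    · obtain ⟨k, hk⟩ : ∃ k, (i : ℕ) = k + 1 := ⟨(i : ℕ) - 1, by omega⟩
      rw [hk] at hai hi ⊢
      rcases Nat.lt_or_ge (k + 1) R with h1 | h1
      · exact N.i2 _ _ _ _ _ _ _ _ ctx k h1 hai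
      · exact N.e2r _ _ _ _ _ _ _ _ ctx k (by omega) hai
  · -- three half twists
    have hz : zx R r (KO R (fun i => (r i).natAbs) (fun i => decide (0 < r i * r (i + 1))) r
        z ql qr) i = z1O R (fun i => (r i).natAbs) (fun i => decide (0 < r i * r (i + 1))) i := by
      unfold zx
      rw [if_neg (by rw [tyG_three hai]; simp)]
      rfl
    rw [hz]
    refine (hg.nd_z3 hi hai ?_).toH
    rw [oF_three hai]
    rcases Nat.eq_zero_or_pos (i : ℕ) with h0 | h0
    · rw [h0]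
      exact N.e3l _ _ _ _ _ _ _ _ ctx (by rw [← h0]; exact hai)
    · obtain ⟨k, hk⟩ : ∃ k, (i : ℕ) = k + 1 := ⟨(i : ℕ) - 1, by omega⟩
      rw [hk] at hai hi ⊢
      rcases Nat.lt_or_ge (k + 1) R with h1 | h1
      · exact N.i3 _ _ _ _ _ _ _ _ ctx k h1 hai
      · exact N.e3r _ _ _ _ _ _ _ _ ctx k (by omega) hai
  · -- four half twists
    by_cases he : (i : ℕ) = 0 ∨ (i : ℕ) = R
    · have hz : zx R r (KO R (fun i => (r i).natAbs) (fun i => decide (0 < r i * r (i + 1))) r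
          z ql qr) i = x1O (fun i => (r i).natAbs) i := by
        unfold zx
        rw [if_pos (tyG_vn (by omega) (by omega))]
        rfl
      rw [hz]
      refine (hg.nd_v hi (Or.inr ⟨hai, he⟩) (fun h0 => ?_) (fun h0 => ?_)).toH
      · obtain ⟨k, hk⟩ : ∃ k, (i : ℕ) = k + 1 := ⟨(i : ℕ) - 1, by omega⟩
        rw [hk] at hai ⊢
        exact N.e4r _ _ _ _ _ _ _ _ ctx k (by omega) hai
      · have h1 : (i : ℕ) = 0 := by omega
        rw [h1]
        exact N.e4l _ _ _ _ _ _ _ _ ctx (by rw [← h1]; exact hai)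
    · push Not at he
      have hz : zx R r (KO R (fun i => (r i).natAbs) (fun i => decide (0 < r i * r (i + 1))) r
          z ql qr) i = z1O R (fun i => (r i).natAbs) (fun i => decide (0 < r i * r (i + 1))) i := by
        unfold zx
        rw [if_neg (by rw [tyG_four hai he.1 he.2]; simp)]
        rfl
      rw [hz]
      refine (hg.nd_z4 (by omega) (by omega) hai ?_).toH
      rw [oF_four hai he.1 he.2]
      obtain ⟨k, hk⟩ : ∃ k, (i : ℕ) = k + 1 := ⟨(i : ℕ) - 1, by omega⟩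
      rw [hk] at hai ⊢
      exact N.i4 _ _ _ _ _ _ _ _ ctx k (by omega) hai
  · -- more half twists
    have hz : zx R r (KO R (fun i => (r i).natAbs) (fun i => decide (0 < r i * r (i + 1))) r
        z ql qr) i = x1O (fun i => (r i).natAbs) i := by
      unfold zx
      rw [if_pos (tyG_vn (by omega) (by omega))]
      rfl
    rw [hz]
    refine (hg.nd_v hi (Or.inl hai) (fun h0 => ?_) (fun h0 => N.vr _ _ _ _ _ _ _ _ ctx _ h0 hai)).toH
    obtain ⟨k, hk⟩ : ∃ k, (i : ℕ) = k + 1 := ⟨(i : ℕ) - 1, by omega⟩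
    rw [hk] at hai ⊢
    exact N.vl _ _ _ _ _ _ _ _ ctx k (by omega) hai

/-- **The statement about all lists, from the open statements.** -/
theorem main_of {T : Vt → Vt → E.B2.Rg} (B : OpenB T) (N : OpenN T) {m : ℕ} (hm : 1 ≤ m)
    {a : Fin (m + 1) → ℕ} (h1 : ∀ i, 1 ≤ a i) (h0 : 2 ≤ a 0) (hl : 2 ≤ a (Fin.last m)) {ε : ℤ}
    (hε : ε = 1 ∨ ε = -1) : StmtN m a ε :=
  pack_all (chain_all B N) hm h1 h0 hl hε

end Pool.Agent.S5
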