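import Pool.Agent.H1TB.HingeH
import Pool.Agent.H63.VC.Asym
import Pool.Agent.H63.VC.EndB
import Pool.Agent.H63.VC.Riem
import Pool.Agent.H63.VC.SlowL
import Pool.Agent.H63.VC.SlowU
import Pool.Agent.H63.VC.Small
import Pool.Agent.H63.VC.VolA
import Pool.Agent.H63.VC3.StepDefs
import Pool.Agent.H63.VC4.GeoDefs
import Pool.Agent.S5.Adm

/-!
# Stage 3b, block G5: the mixed chain of a list

Every list of positive integers of length at least `2` with ends at least `2` is `conwayH` of an
admissible mixed chain (`exists_adm`). In a run of `L` entries `1`, some are absorbed (`x`), the others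
are kept (`o`): `x` for `L = 1`; `o x`, `x o` for `L = 2`, the kept one next to the smaller neighbour;
for `L ≥ 3`, `x (o o x)^k`, `x o x (o o x)^k`, `x o x o x (o o x)^k`.
-/

set_option autoImplicit false

namespace Pool.Agent.S5

open Pool.Agent.H1TB

theorem Adm.congr {R : ℕ} {a a' : ℕ → ℕ} {S S' : ℕ → Bool} (h : Adm R a S)
    (ha : ∀ i, i ≤ R → a' i = a i) (hS : ∀ i, i < R → S' i = S i) : Adm R a' S' := by
  have hR := h.hR
  refine ⟨hR, ?_, ?_, ?_, ?_, ?_, ?_, ?_, ?_⟩
  · intro i hi
    rw [ha i hi]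
    exact h.ha i hi
  · intro h0
    rw [hS 0 (by omega)] at h0
    rw [ha 0 (by omega)]
    exact h.hfst h0
  · intro i hi h0
    rw [hS i (by omega)] at h0
    rw [ha (i + 1) (by omega)]
    exact h.hlst i hi h0
  · intro i hi h0 h1
    rw [hS i (by omega)] at h0
    rw [hS (i + 1) (by omega)] at h1
    rw [ha (i + 1) (by omega)]
    exact h.hmid i hi h0 h1
  · intro i hi h0 h1
    rw [ha (i + 1) (by omega)] at h0
    rw [hS i (by omega)] at h1
    rw [ha (i + 2) (by omega), ha i (by omega)]
    exact h.hspl i hi h0 h1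
  · intro i hi h0 h1
    rw [ha (i + 1) (by omega)] at h0
    rw [hS (i + 1) (by omega)] at h1
    rw [ha (i + 2) (by omega), ha i (by omega)]
    exact h.hspr i hi h0 h1
  · intro i hi h0 h1 h2
    rw [hS i (by omega)] at h0
    rw [ha i (by omega)] at h1
    rw [ha (i + 1) (by omega)] at h2
    obtain ⟨⟨k1, k2, k3⟩, k4, k5, k6⟩ := h.hss i hi h0 h1 h2
    exact ⟨⟨k1, by rw [ha _ (by omega)]; exact k2, by rw [hS _ (by omega)]; exact k3⟩,
      k4, by rw [ha _ (by omega)]; exact k5, by rw [hS _ (by omega)]; exact k6⟩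
  · rintro i hi ⟨h0, h1, h2, h3, h4, h5, h6⟩
    rw [hS _ (by omega)] at h0 h1 h2 h3
    rw [ha _ (by omega)] at h4 h5 h6
    exact h.no3 i hi ⟨h0, h1, h2, h3, h4, h5, h6⟩

namespace L

/-- The types of the vertices: `o` an entry of the list which is at least `2`; the others are the kept
entries `1`: `al be` the pair in `o o x`, `si ta` the first and the second of `x o x o x` (or `ta` the
one of `x o x`), `ka p`, `la p` the one of a run of length `2`. -/
inductive Ty
  | o | al | be | si | ta | ka (p : ℕ) | la (p : ℕ)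

/-- A vertex: type, entry of the list, and whether the edge to the right is a same sign edge. -/
structure Tok where
  ty : Ty
  b : ℕ
  s : Bool

instance : Inhabited Tok := ⟨⟨.o, 0, false⟩⟩

/-- The entries of the list which belong to a vertex. -/
def okb : Ty → ℕ → Prop
  | .o, b => 2 ≤ b
  | _, b => b = 1

/-- The allowed successions. -/
def Nx (x y : Tok) : Prop :=
  okb x.ty x.b ∧ okb y.ty y.b ∧
  match x.ty, x.s, y.ty with
  | .o, false, .o => True
  | .o, false, .la p => x.b = p
  | .o, true, .o => True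
  | .o, true, .ka p => x.b = p
  | .o, true, .al => True
  | .o, true, .si => True
  | .o, true, .ta => True
  | .ka p, false, .o => y.b ≤ p
  | .la p, true, .o => p ≤ y.b
  | .al, false, .be => True
  | .be, true, .o => True
  | .be, true, .al => True
  | .si, true, .ta => True
  | .ta, true, .o => True
  | .ta, true, .al => True
  | _, _, _ => False

/-- The list of a list of vertices. -/
def expand : List Tok → List ℕ
  | [] => []
  | x :: T => x.b :: (if x.s then 1 :: expand T else expand T)

/-- `0` or `1`. -/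
def bn (s : Bool) : ℕ := if s then 1 else 0

@[simp] theorem bn_true : bn true = 1 := rfl

@[simp] theorem bn_false : bn false = 0 := rfl

/-- The chain of a list of vertices, `d = 1` if the left edge is a same sign edge, `ε` the sign. -/
def rl : ℤ → ℕ → List Tok → List ℤ
  | _, _, [] => []
  | ε, d, x :: T => ε * ((x.b + d + bn x.s : ℕ) : ℤ) :: rl (if x.s then ε else -ε) (bn x.s) T

theorem rl_length : ∀ (T : List Tok) (ε : ℤ) (d : ℕ), (rl ε d T).length = T.length
  | [], _, _ => rfl
  | x :: T, ε, d => by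
    rw [rl, List.length_cons, List.length_cons, rl_length T]

/-- All vertices are at least `1` with a same sign edge, which is all we need for `conwayH`. -/
theorem conwayHAux_rl : ∀ (T : List Tok) (ε : ℤ) (d : ℕ), (ε = 1 ∨ ε = -1) → (∀ x ∈ T, 1 ≤ x.b) →
    (∀ x ∈ T.getLast?, x.s = false) → conwayHAux d (rl ε d T) = expand T
  | [], _, _, _, _, _ => by simp [rl, expand, conwayHAux]
  | [x], ε, d, hε, hb, hl => by
    have hs : x.s = false := hl x (by simp)
    have e1 : (ε * ((x.b + d + 0 : ℕ) : ℤ)).natAbs = x.b + d + 0 := by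
      rcases hε with rfl | rfl
      · rw [one_mul, Int.natAbs_natCast]
      · rw [neg_one_mul, Int.natAbs_neg, Int.natAbs_natCast]
    simp only [rl, expand, conwayHAux, hs, bn_false, e1, Bool.false_eq_true, if_false]
    congr 1
    omega
  | x :: y :: T, ε, d, hε, hb, hl => by
    have hx := hb x (by simp)
    have hy := hb y (by simp)
    have hε' : ((if x.s then ε else -ε) = 1 ∨ (if x.s then ε else -ε) = -1) := by
      rcases hε with rfl | rfl <;> cases x.s <;> simp
    have ih := conwayHAux_rl (y :: T) (if x.s then ε else -ε) (bn x.s) hε'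
      (fun z hz => hb z (List.mem_cons_of_mem _ hz)) (fun z hz => hl z (by
        rw [List.getLast?_cons_cons]
        exact hz))
    rw [rl]
    rw [rl] at ih ⊢
    rw [conwayHAux]
    have hee : ε * ε = 1 := by rcases hε with rfl | rfl <;> norm_num
    have e1 : (ε * ((x.b + d + bn x.s : ℕ) : ℤ)).natAbs = x.b + d + bn x.s := by
      rcases hε with rfl | rfl
      · rw [one_mul, Int.natAbs_natCast]
      · rw [neg_one_mul, Int.natAbs_neg, Int.natAbs_natCast]
    cases hs : x.s with
    | true =>
      rw [hs] at ih e1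
      simp only [bn_true, if_true] at ih e1 ⊢
      rw [if_pos, ih, e1]
      · conv_rhs => rw [expand, hs, if_pos rfl]
        congr 1
        omega
      · have : (ε * ((x.b + d + 1 : ℕ) : ℤ)) * (ε * ((y.b + 1 + bn y.s : ℕ) : ℤ)) =
            (ε * ε) * (((x.b + d + 1 : ℕ) : ℤ) * ((y.b + 1 + bn y.s : ℕ) : ℤ)) := by ring
        rw [this, hee, one_mul]
        positivity
    | false =>
      rw [hs] at ih e1
      simp only [bn_false, Bool.false_eq_true, if_false] at ih e1 ⊢
      rw [if_neg, ih, e1]
      · conv_rhs => rw [expand, hs, if_neg (by simp)]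
        congr 1
        omega
      · have : (ε * ((x.b + d + 0 : ℕ) : ℤ)) * (-ε * ((y.b + 0 + bn y.s : ℕ) : ℤ)) =
            -((ε * ε) * (((x.b + d + 0 : ℕ) : ℤ) * ((y.b + 0 + bn y.s : ℕ) : ℤ))) := by ring
        rw [this, hee, one_mul, not_lt]
        have : (0 : ℤ) ≤ ((x.b + d + 0 : ℕ) : ℤ) * ((y.b + 0 + bn y.s : ℕ) : ℤ) := by positivity
        omega

/-- Same sign edge on the left. -/
def sl (T : ℕ → Tok) : ℕ → Bool
  | 0 => false
  | i + 1 => (T i).s

/-- The number of half twists. -/
def ct (T : ℕ → Tok) (i : ℕ) : ℕ := (T i).b + bn (sl T i) + bn (T i).s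

/-- What the type says about the vertex. -/
def Vd : Ty → ℕ → Bool → Bool → Prop
  | .o, b, _, _ => 2 ≤ b
  | .al, b, s, l => b = 1 ∧ s = false ∧ l = true
  | .be, b, s, l => b = 1 ∧ s = true ∧ l = false
  | .si, b, s, l => b = 1 ∧ s = true ∧ l = true
  | .ta, b, s, l => b = 1 ∧ s = true ∧ l = true
  | .ka _, b, s, l => b = 1 ∧ s = false ∧ l = true
  | .la _, b, s, l => b = 1 ∧ s = true ∧ l = false

/-- The edge to the left of a vertex. -/
def Lf : Ty → Bool → Prop
  | .o, _ => True
  | .be, s => s = false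
  | .la _, s => s = false
  | _, s => s = true

/-- The edge to the right of a vertex. -/
def Rt : Ty → Bool → Prop
  | .o, _ => True
  | .al, s => s = false
  | .ka _, s => s = false
  | _, s => s = true

theorem Nx.lf {x y : Tok} (h : Nx x y) : Lf y.ty x.s := by
  obtain ⟨xt, xb, xs⟩ := x
  obtain ⟨yt, yb, ys⟩ := y
  have h1 := h.2.2
  clear h
  cases xt <;> cases xs <;> cases yt <;> simp_all [Lf]

theorem Nx.rt {x y : Tok} (h : Nx x y) : Rt x.ty x.s := by
  obtain ⟨xt, xb, xs⟩ := x
  obtain ⟨yt, yb, ys⟩ := y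
  have h1 := h.2.2
  clear h
  cases xt <;> cases xs <;> cases yt <;> simp_all [Rt]

theorem vd_mk {t : Ty} {b : ℕ} {s l : Bool} (hb : okb t b) (hl : Lf t l) (hs : Rt t s) :
    Vd t b s l := by
  cases t <;> simp_all [okb, Lf, Rt, Vd]

section fn

variable {T : ℕ → Tok} {R : ℕ}

theorem vd_of (h0 : (T 0).ty = .o) (hR : (T R).ty = .o) (hR1 : 1 ≤ R)
    (h : ∀ i, i < R → Nx (T i) (T (i + 1))) (i : ℕ) (hi : i ≤ R) :
    Vd (T i).ty (T i).b (T i).s (sl T i) := by
  have hb : okb (T i).ty (T i).b := by
    rcases Nat.lt_or_ge i R with h1 | h1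
    · exact (h i h1).1
    · obtain ⟨j, rfl⟩ : ∃ j, i = j + 1 := ⟨i - 1, by omega⟩
      exact (h j (by omega)).2.1
  refine vd_mk hb ?_ ?_
  · rcases i with _ | j
    · rw [h0]
      trivial
    · exact (h j (by omega)).lf
  · rcases Nat.lt_or_ge i R with h1 | h1
    · exact (h i h1).rt
    · rw [show i = R by omega, hR]
      trivial

/-- A vertex with the value `2` and a same sign edge on the right. -/
theorem two_rt {t : Ty} {b : ℕ} {l : Bool} (h : Vd t b true l) (h2 : b + bn l + bn true = 2) :
    t = .be ∨ ∃ p, t = .la p := by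
  cases t <;> cases l <;> simp_all [Vd, bn]

/-- A vertex with the value `2` and a same sign edge on the left. -/
theorem two_lf {t : Ty} {b : ℕ} {s : Bool} (h : Vd t b s true) (h2 : b + bn true + bn s = 2) :
    t = .al ∨ ∃ p, t = .ka p := by
  cases t <;> cases s <;> simp_all [Vd, bn]

/-- A vertex with the value `3` and same sign edges on both sides. -/
theorem three_both {t : Ty} {b : ℕ} (h : Vd t b true true) (h2 : b + bn true + bn true = 3) :
    t = .si ∨ t = .ta := by
  cases t <;> simp_all [Vd, bn]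

theorem adm_fn (h0 : (T 0).ty = .o) (hR : (T R).ty = .o) (hRs : (T R).s = false) (hR1 : 1 ≤ R)
    (h : ∀ i, i < R → Nx (T i) (T (i + 1))) : Adm R (ct T) (fun i => (T i).s) := by
  have hv := vd_of h0 hR hR1 h
  have hge : ∀ i, i ≤ R → 2 ≤ ct T i := by
    intro i hi
    have h1 := hv i hi
    unfold ct
    generalize (T i).ty = t at *
    generalize (T i).b = b at *
    generalize (T i).s = s at *
    generalize sl T i = l at *
    cases t <;> cases s <;> cases l <;> simp_all [Vd, bn]
    all_goals omega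
  have hne0 : ∀ i, (T i).ty ≠ .o → 1 ≤ i := by
    intro i hi
    rcases i with _ | i
    · exact absurd h0 hi
    · omega
  have hneR : ∀ i, i ≤ R → (T i).ty ≠ .o → i < R := by
    intro i hi hi2
    refine lt_of_le_of_ne hi ?_
    rintro rfl
    exact hi2 hR
  refine ⟨hR1, hge, ?_, ?_, ?_, ?_, ?_, ?_, ?_⟩
  · intro hs
    have h1 := hv 0 (by omega)
    rw [h0, hs] at h1
    unfold ct
    rw [hs, bn_true]
    have : 2 ≤ (T 0).b := h1
    omega
  · intro i hi hs
    have h1 := hv (i + 1) (by omega)
    rw [hi, hR] at h1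
    unfold ct
    have h2 : sl T (i + 1) = true := hs
    rw [h2, bn_true, hi]
    have : 2 ≤ (T R).b := h1
    omega
  · intro i hi hs hs1
    have h1 := hv (i + 1) (by omega)
    have h2 : sl T (i + 1) = true := hs
    rw [h2, hs1] at h1
    unfold ct
    rw [h2, hs1]
    generalize (T (i + 1)).ty = t at *
    generalize (T (i + 1)).b = b at *
    cases t <;> simp_all [Vd, bn]
    all_goals omega
  · intro i hi h2 hs
    have h1 := hv (i + 1) (by omega)
    have hl : sl T (i + 1) = true := hs
    unfold ct at h2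
    rw [hl] at h1 h2
    rcases two_lf h1 h2 with ht | ⟨p, ht⟩
    · -- successor is `be`
      have hn := (h (i + 1) (by omega)).2.2
      rw [ht] at h1
      obtain ⟨hb, hs1, -⟩ := h1
      rw [ht, hs1] at hn
      have h3 := hv (i + 2) (by omega)
      have e : ct T (i + 2) = 2 := by
        have hl2 : sl T (i + 2) = false := hs1
        unfold ct
        rw [hl2] at h3 ⊢
        rw [show i + 1 + 1 = i + 2 from rfl] at hn
        generalize (T (i + 2)).ty = t at *
        generalize (T (i + 2)).b = b at *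
        generalize (T (i + 2)).s = s at *
        cases t <;> simp_all [Vd, bn]
      rw [e]
      exact hge i (by omega)
    · have hn := (h (i + 1) (by omega)).2.2
      rw [ht] at h1
      obtain ⟨hb, hs1, -⟩ := h1
      rw [ht, hs1] at hn
      have hp := (h i (by omega)).2.2
      rw [ht, hs] at hp
      have hl2 : sl T (i + 2) = false := hs1
      have e1 : (T i).b = p := by
        generalize (T i).ty = t at *
        cases t <;> simp_all
      have e2 : (T (i + 2)).b ≤ p := by
        rw [show i + 1 + 1 = i + 2 from rfl] at hn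
        generalize (T (i + 2)).ty = t at *
        cases t <;> simp_all
      unfold ct
      rw [hl2, hs, bn_true, bn_false]
      have : bn (T (i + 2)).s ≤ 1 := by
        cases (T (i + 2)).s <;> simp
      omega
  · intro i hi h2 hs
    have h1 := hv (i + 1) (by omega)
    unfold ct at h2
    rw [hs] at h1 h2
    rcases two_rt h1 h2 with ht | ⟨p, ht⟩
    · have hn := (h i (by omega)).2.2
      rw [ht] at h1
      obtain ⟨hb, -, hl⟩ := h1
      have hl' : (T i).s = false := hl
      rw [ht, hl'] at hn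
      have h3 := hv i (by omega)
      have e : ct T i = 2 := by
        unfold ct
        rw [hl'] at h3 ⊢
        generalize (T i).ty = t at *
        generalize (T i).b = b at *
        generalize sl T i = s at *
        cases t <;> simp_all [Vd, bn]
      rw [e]
      exact hge _ (by omega)
    · have hn := (h (i + 1) (by omega)).2.2
      rw [ht] at h1
      obtain ⟨hb, -, hl⟩ := h1
      have hl' : (T i).s = false := hl
      rw [ht, hs] at hn
      have hp := (h i (by omega)).2.2
      rw [ht, hl'] at hp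
      have hl2 : sl T (i + 2) = true := hs
      have e1 : (T i).b = p := by
        generalize (T i).ty = t at *
        cases t <;> simp_all
      have e2 : p ≤ (T (i + 2)).b := by
        rw [show i + 1 + 1 = i + 2 from rfl] at hn
        generalize (T (i + 2)).ty = t at *
        cases t <;> simp_all
      unfold ct
      rw [hl2, hl', bn_true, bn_false]
      have : bn (sl T i) ≤ 1 := by
        cases sl T i <;> simp
      omega
  · intro i hi hs h2 h3
    have hl : sl T (i + 1) = true := hs
    have h4 := hv i (by omega)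
    have h5 := hv (i + 1) hi
    unfold ct at h2 h3
    rw [hs] at h4 h2
    rw [hl] at h5 h3
    have hn := (h i (by omega)).2.2
    rw [hs] at hn
    have hal : (T i).ty = .be ∧ (T (i + 1)).ty = .al := by
      rcases two_rt h4 h2 with k1 | ⟨p, k1⟩ <;> rcases two_lf h5 h3 with k2 | ⟨p', k2⟩ <;>
        rw [k1, k2] at hn <;> simp_all
    obtain ⟨k1, k2⟩ := hal
    rw [k1] at h4
    rw [k2] at h5
    obtain ⟨b1, -, l1⟩ := h4
    obtain ⟨b2, s2, -⟩ := h5
    obtain ⟨j, rfl⟩ : ∃ j, i = j + 1 := ⟨i - 1, by have := hne0 i (by rw [k1]; simp); omega⟩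
    have l1' : (T j).s = false := l1
    have hn1 := (h j (by omega)).2.2
    rw [k1, l1'] at hn1
    have k3 : (T j).ty = .al := by
      generalize (T j).ty = t at *
      cases t <;> simp_all
    have h6 := hv j (by omega)
    rw [k3] at h6
    obtain ⟨b3, -, l3⟩ := h6
    obtain ⟨m, rfl⟩ : ∃ m, j = m + 1 := ⟨j - 1, by have := hne0 j (by rw [k3]; simp); omega⟩
    have h7 := hneR (m + 1 + 1 + 1) (by omega) (by rw [k2]; simp)
    have hn2 := (h (m + 1 + 1 + 1) h7).2.2
    rw [k2, s2] at hn2
    have k4 : (T (m + 1 + 1 + 1 + 1)).ty = .be := by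
      generalize (T (m + 1 + 1 + 1 + 1)).ty = t at *
      cases t <;> simp_all
    have h8 := hv (m + 1 + 1 + 1 + 1) (by omega)
    rw [k4] at h8
    obtain ⟨b4, s4, -⟩ := h8
    have h9 := hneR (m + 1 + 1 + 1 + 1) (by omega) (by rw [k4]; simp)
    refine ⟨⟨by omega, ?_, ?_⟩, by omega, ?_, s4⟩
    · show ct T (m + 1) = 2
      unfold ct
      rw [l3, b3, l1']
      rfl
    · exact l3
    · show ct T (m + 1 + 1 + 1 + 1) = 2
      unfold ct
      have : sl T (m + 1 + 1 + 1 + 1) = false := s2
      rw [this, b4, s4]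
      rfl
  · rintro i hi ⟨s0, s1, s2, s3, c1, c2, c3⟩
    have h1 := hv (i + 1) (by omega)
    have h2 := hv (i + 2) (by omega)
    have h3 := hv (i + 3) (by omega)
    have l1 : sl T (i + 1) = true := s0
    have l2 : sl T (i + 2) = true := s1
    have l3 : sl T (i + 3) = true := s2
    unfold ct at c1 c2 c3
    rw [l1, s1] at h1 c1
    rw [l2, s2] at h2 c2
    rw [l3, s3] at h3 c3
    have n1 := (h (i + 1) (by omega)).2.2
    have n2 := (h (i + 2) (by omega)).2.2
    rw [s1] at n1
    rw [s2] at n2
    rw [show i + 1 + 1 = i + 2 from rfl] at n1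
    rw [show i + 2 + 1 = i + 3 from rfl] at n2
    rcases three_both h1 c1 with k1 | k1 <;> rcases three_both h2 c2 with k2 | k2 <;>
      rcases three_both h3 c3 with k3 | k3 <;> rw [k1, k2] at n1 <;> rw [k2, k3] at n2 <;>
      simp_all

end fn

/-! ### Existence -/

/-- The last vertex is an end. -/
def Lst (T : List Tok) : Prop := ∀ x ∈ T.getLast?, x.ty = .o ∧ x.s = false

/-- Runs of length `2` between two `2`'s: the kept `1` is next to the left one only if the right one is
the last entry of the list. -/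
def Tie : List Tok → Prop
  | [] => True
  | x :: T => (x.ty = .ka 2 → T.length = 1) ∧ (x.ty = .la 2 → ∀ y, T = [y] → y.b ≠ 2) ∧ Tie T

theorem Tie.cons {x : Tok} {T : List Tok} (h : Tie T) (h1 : x.ty ≠ .ka 2) (h2 : x.ty ≠ .la 2) :
    Tie (x :: T) := ⟨fun h3 => absurd h3 h1, fun h3 => absurd h3 h2, h⟩

/-- `T` is a list of vertices for `p :: l`, with `p` not absorbed. -/
def Good (T : List Tok) (p : ℕ) (l : List ℕ) : Prop :=
  2 ≤ p ∧ T.IsChain Nx ∧ expand T = p :: l ∧ (∃ s T', T = ⟨.o, p, s⟩ :: T') ∧ Lst T ∧ Tie T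

/-- `T` is a list of vertices for `l` after an absorbed entry inside a long run. -/
def GoodI (T : List Tok) (l : List ℕ) : Prop :=
  T.IsChain Nx ∧ expand T = l ∧ (∃ x T', T = x :: T' ∧ (x.ty = .o ∨ x.ty = .al) ∧ okb x.ty x.b) ∧
    Lst T ∧ Tie T

theorem Lst.cons {x y : Tok} {T : List Tok} (h : Lst (y :: T)) : Lst (x :: y :: T) := by
  intro z hz
  rw [List.getLast?_cons_cons] at hz
  exact h z hz

theorem Good.toI {T : List Tok} {p : ℕ} {l : List ℕ} (h : Good T p l) : GoodI T (p :: l) := by
  obtain ⟨h1, h2, h3, ⟨s, T', rfl⟩, h5⟩ := h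
  exact ⟨h2, h3, ⟨_, _, rfl, Or.inl rfl, h1⟩, h5⟩

theorem goodI_run {T : List Tok} {q : ℕ} {l : List ℕ} (h : Good T q l) (k : ℕ) :
    ∃ T', GoodI T' (List.replicate (3 * k) 1 ++ q :: l) := by
  induction k with
  | zero => exact ⟨T, h.toI⟩
  | succ k ih =>
    obtain ⟨T', h1, h2, ⟨x, T'', rfl, hx, hxb⟩, h4, h5⟩ := ih
    refine ⟨⟨.al, 1, false⟩ :: ⟨.be, 1, true⟩ :: x :: T'', ?_, ?_, ⟨_, _, rfl, Or.inr rfl, rfl⟩,
      h4.cons.cons, (h5.cons (by simp) (by simp)).cons (by simp) (by simp)⟩
    · rw [List.isChain_cons_cons, List.isChain_cons_cons]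
      refine ⟨⟨rfl, rfl, trivial⟩, ⟨rfl, hxb, ?_⟩, h1⟩
      rcases hx with hx | hx <;> rw [hx] <;> trivial
    · rw [expand, expand, h2]
      simp only [Bool.false_eq_true, if_false, if_true]
      rw [show 3 * (k + 1) = 3 * k + 1 + 1 + 1 by ring, List.replicate_succ, List.replicate_succ,
        List.replicate_succ]
      rfl

/-- A same sign edge in front of a list of the kind `GoodI`. -/
theorem goodI_first {T : List Tok} {p : ℕ} (hp : 2 ≤ p) {l : List ℕ} (h : GoodI T l) :
    Good (⟨.o, p, true⟩ :: T) p (1 :: l) := by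
  obtain ⟨h1, h2, ⟨x, T', rfl, hx, hxb⟩, h4, h5⟩ := h
  refine ⟨hp, ?_, by rw [expand, h2]; rfl, ⟨_, _, rfl⟩, h4.cons, h5.cons (by simp) (by simp)⟩
  rw [List.isChain_cons_cons]
  refine ⟨⟨hp, hxb, ?_⟩, h1⟩
  rcases hx with hx | hx <;> rw [hx] <;> trivial

theorem split_ones : ∀ (l : List ℕ), (∀ x ∈ l, 1 ≤ x) → (∀ x ∈ l.getLast?, 2 ≤ x) →
    l = [] ∨ ∃ (L q : ℕ) (l' : List ℕ), l = List.replicate L 1 ++ q :: l' ∧ 2 ≤ q
  | [], _, _ => Or.inl rfl
  | x :: l, h1, h2 => by
    right
    rcases Nat.lt_or_ge 1 x with hx | hx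
    · exact ⟨0, x, l, rfl, hx⟩
    · have hx1 : x = 1 := le_antisymm hx (h1 x (by simp))
      subst hx1
      cases l with
      | nil =>
        have := h2 1 (by simp)
        omega
      | cons y l =>
        rcases split_ones (y :: l) (fun z hz => h1 z (List.mem_cons_of_mem _ hz))
          (fun z hz => h2 z (by rw [List.getLast?_cons_cons]; exact hz)) with h | ⟨L, q, l', h, hq⟩
        · simp at h
        · exact ⟨L + 1, q, l', by rw [h, List.replicate_succ]; rfl, hq⟩

theorem exists_good : ∀ (n : ℕ) (p : ℕ) (l : List ℕ), l.length = n → 2 ≤ p → (∀ x ∈ l, 1 ≤ x) →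
    (∀ x ∈ l.getLast?, 2 ≤ x) → ∃ T, Good T p l := by
  intro n
  induction n using Nat.strong_induction_on with
  | _ n ih =>
    intro p l hn hp h1 h2
    rcases split_ones l h1 h2 with rfl | ⟨L, q, l', rfl, hq⟩
    · refine ⟨[⟨.o, p, false⟩], hp, ?_, rfl, ⟨_, _, rfl⟩, ?_, ⟨by simp, by simp, trivial⟩⟩
      · simp
      · intro x hx
        simp at hx
        subst hx
        exact ⟨rfl, rfl⟩
    · obtain ⟨T, hT⟩ := ih l'.length (by
          rw [← hn]
          simp only [List.length_append, List.length_replicate, List.length_cons]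
          omega) q l' rfl hq
        (fun x hx => h1 x (by simp [hx]))
        (fun x hx => h2 x (by
          rw [List.getLast?_append_of_ne_nil _ (by simp)]
          cases l' with
          | nil => simp at hx
          | cons y l'' =>
            rw [List.getLast?_cons_cons]
            exact hx))
      rcases Nat.lt_or_ge L 3 with hL | hL
      · obtain ⟨hq2, c1, c2, ⟨s, T', rfl⟩, c4, c5⟩ := hT
        interval_cases L
        · refine ⟨⟨.o, p, false⟩ :: ⟨.o, q, s⟩ :: T', hp, ?_, ?_, ⟨_, _, rfl⟩, c4.cons,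
            c5.cons (by simp) (by simp)⟩
          · rw [List.isChain_cons_cons]
            exact ⟨⟨hp, hq, trivial⟩, c1⟩
          · rw [expand, c2]
            rfl
        · exact ⟨_, goodI_first hp (Good.toI ⟨hq2, c1, c2, ⟨s, T', rfl⟩, c4, c5⟩)⟩
        · have hpq' : (p ≤ q ∧ ¬(q = 2 ∧ T' = [])) ∨ (q ≤ p ∧ (p = 2 → T' = [])) := by
            by_cases h5 : p ≤ q
            · by_cases h6 : q = 2 ∧ T' = []
              · exact Or.inr ⟨by omega, fun _ => h6.2⟩
              · exact Or.inl ⟨h5, h6⟩
            · exact Or.inr ⟨by omega, fun h6 => absurd h6 (by omega)⟩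
          rcases hpq' with ⟨hpq, hpt⟩ | ⟨hpq, hpt⟩
          · refine ⟨⟨.o, p, false⟩ :: ⟨.la p, 1, true⟩ :: ⟨.o, q, s⟩ :: T', hp, ?_, ?_,
              ⟨_, _, rfl⟩, c4.cons.cons, Tie.cons ⟨by simp, ?_, c5⟩ (by simp) (by simp)⟩
            · rw [List.isChain_cons_cons, List.isChain_cons_cons]
              exact ⟨⟨hp, rfl, rfl⟩, ⟨rfl, hq, hpq⟩, c1⟩
            · rw [expand, expand, c2]
              rfl
            · intro _ y hy hy2
              obtain ⟨rfl, h6⟩ := List.cons.inj hy
              exact hpt ⟨hy2, h6⟩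
          · refine ⟨⟨.o, p, true⟩ :: ⟨.ka p, 1, false⟩ :: ⟨.o, q, s⟩ :: T', hp, ?_, ?_,
              ⟨_, _, rfl⟩, c4.cons.cons, Tie.cons ⟨?_, by simp, c5⟩ (by simp) (by simp)⟩
            · rw [List.isChain_cons_cons, List.isChain_cons_cons]
              exact ⟨⟨hp, rfl, rfl⟩, ⟨rfl, hq, hpq⟩, c1⟩
            · rw [expand, expand, c2]
              rfl
            · intro h6
              have h7 : p = 2 := by simpa using h6
              rw [hpt h7]
              rfl
      · obtain ⟨k, hk⟩ : ∃ k, L = 3 * k + 1 ∨ L = 3 * k + 3 ∨ L = 3 * k + 5 := by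
          have h3 := Nat.div_add_mod L 3
          have h4 := Nat.mod_lt L (show 0 < 3 by norm_num)
          rcases Nat.lt_or_ge (L % 3) 1 with h5 | h5
          · exact ⟨L / 3 - 1, by omega⟩
          · rcases Nat.lt_or_ge (L % 3) 2 with h6 | h6
            · exact ⟨L / 3, by omega⟩
            · exact ⟨L / 3 - 1, by omega⟩
        obtain ⟨T', hT'⟩ := goodI_run hT k
        rcases hk with rfl | rfl | rfl
        · have h5 := goodI_first hp hT'
          rw [List.replicate_succ]
          exact ⟨_, h5⟩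
        · obtain ⟨c1, c2, ⟨x, T'', rfl, hx, hxb⟩, c4, c5⟩ := hT'
          refine ⟨⟨.o, p, true⟩ :: ⟨.ta, 1, true⟩ :: x :: T'', hp, ?_, ?_, ⟨_, _, rfl⟩,
            c4.cons.cons, (c5.cons (by simp) (by simp)).cons (by simp) (by simp)⟩
          · rw [List.isChain_cons_cons, List.isChain_cons_cons]
            refine ⟨⟨hp, rfl, trivial⟩, ⟨rfl, hxb, ?_⟩, c1⟩
            rcases hx with hx | hx <;> rw [hx] <;> trivial
          · rw [expand, expand, c2, show 3 * k + 3 = 3 * k + 1 + 1 + 1 by ring,
              List.replicate_succ, List.replicate_succ, List.replicate_succ]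
            rfl
        · obtain ⟨c1, c2, ⟨x, T'', rfl, hx, hxb⟩, c4, c5⟩ := hT'
          refine ⟨⟨.o, p, true⟩ :: ⟨.si, 1, true⟩ :: ⟨.ta, 1, true⟩ :: x :: T'', hp, ?_, ?_,
            ⟨_, _, rfl⟩, c4.cons.cons.cons, ((c5.cons (by simp) (by simp)).cons (by simp)
              (by simp)).cons (by simp) (by simp)⟩
          · rw [List.isChain_cons_cons, List.isChain_cons_cons, List.isChain_cons_cons]
            refine ⟨⟨hp, rfl, trivial⟩, ⟨rfl, rfl, trivial⟩, ⟨rfl, hxb, ?_⟩, c1⟩
            rcases hx with hx | hx <;> rw [hx] <;> trivial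
          · rw [expand, expand, expand, c2, show 3 * k + 5 = 3 * k + 1 + 1 + 1 + 1 + 1 by ring,
              List.replicate_succ, List.replicate_succ, List.replicate_succ, List.replicate_succ,
              List.replicate_succ]
            rfl

/-! ### The chain -/

theorem rl_abs : ∀ (T : List Tok) (ε : ℤ) (d i : ℕ), (ε = 1 ∨ ε = -1) → i < T.length →
    ((rl ε d T).getD i 0).natAbs = (T.getD i default).b +
      (if i = 0 then d else bn (T.getD (i - 1) default).s) + bn (T.getD i default).s
  | [], _, _, _, _, hi => by simp at hi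
  | x :: T, ε, d, 0, hε, _ => by
    rw [rl, List.getD_cons_zero, List.getD_cons_zero, if_pos rfl]
    rcases hε with rfl | rfl
    · rw [one_mul, Int.natAbs_natCast]
    · rw [neg_one_mul, Int.natAbs_neg, Int.natAbs_natCast]
  | x :: T, ε, d, i + 1, hε, hi => by
    have hε' : ((if x.s then ε else -ε) = 1 ∨ (if x.s then ε else -ε) = -1) := by
      rcases hε with rfl | rfl <;> cases x.s <;> simp
    rw [rl, List.getD_cons_succ, List.getD_cons_succ, rl_abs T _ _ i hε' (by simpa using hi),
      if_neg (Nat.succ_ne_zero i)]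
    congr 2
    rcases i with _ | i
    · rw [if_pos rfl]
      rfl
    · rw [if_neg (by omega)]
      rfl

theorem rl_sign : ∀ (T : List Tok) (ε : ℤ) (d i : ℕ), (ε = 1 ∨ ε = -1) → i + 1 < T.length →
    (∀ x ∈ T, 1 ≤ x.b) → (0 < (rl ε d T).getD i 0 * (rl ε d T).getD (i + 1) 0 ↔
      (T.getD i default).s = true)
  | [], _, _, _, _, hi, _ => by simp at hi
  | [x], _, _, _, _, hi, _ => by simp at hi
  | x :: y :: T, ε, d, 0, hε, _, hb => by
    have hx := hb x (by simp)
    have hy := hb y (by simp)
    have hee : ε * ε = 1 := by rcases hε with rfl | rfl <;> norm_num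
    rw [rl, rl, List.getD_cons_zero, List.getD_cons_zero, List.getD_cons_succ,
      List.getD_cons_zero]
    have h1 : (0 : ℤ) < ((x.b + d + bn x.s : ℕ) : ℤ) := by
      have : 0 < x.b + d + bn x.s := by omega
      exact_mod_cast this
    have h2 : (0 : ℤ) < ((y.b + bn x.s + bn y.s : ℕ) : ℤ) := by
      have : 0 < y.b + bn x.s + bn y.s := by omega
      exact_mod_cast this
    have h3 := mul_pos h1 h2
    generalize ((x.b + d + bn x.s : ℕ) : ℤ) = u at *
    generalize ((y.b + bn x.s + bn y.s : ℕ) : ℤ) = w at *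
    cases x.s with
    | true =>
      rw [if_pos rfl]
      have : ε * u * (ε * w) = (ε * ε) * (u * w) := by ring
      rw [this, hee, one_mul]
      exact ⟨fun _ => rfl, fun _ => h3⟩
    | false =>
      rw [if_neg (by simp)]
      have : ε * u * (-ε * w) = -((ε * ε) * (u * w)) := by ring
      rw [this, hee, one_mul]
      constructor
      · intro h
        omega
      · intro h
        simp at h
  | x :: y :: T, ε, d, i + 1, hε, hi, hb => by
    have hε' : ((if x.s then ε else -ε) = 1 ∨ (if x.s then ε else -ε) = -1) := by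
      rcases hε with rfl | rfl <;> cases x.s <;> simp
    rw [rl, List.getD_cons_succ, List.getD_cons_succ, List.getD_cons_succ,
      rl_sign (y :: T) _ _ i hε' (by simpa using hi) (fun z hz => hb z (List.mem_cons_of_mem _ hz))]

theorem okb_pos {t : Ty} {b : ℕ} (h : okb t b) : 1 ≤ b := by
  cases t <;> simp_all [okb]
  all_goals omega

end L

open L in
/-- **Every list is the list of an admissible mixed chain.** -/
theorem exists_adm {a : List ℕ} {p : ℕ} {l : List ℕ} (ha : a = p :: l) (hl : l ≠ [])
    (h1 : ∀ x ∈ a, 1 ≤ x) (hp : 2 ≤ p) (hq : ∀ x ∈ a.getLast?, 2 ≤ x) {ε : ℤ}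
    (hε : ε = 1 ∨ ε = -1) : ∃ (R : ℕ) (r : ℕ → ℤ),
      Adm R (fun i => (r i).natAbs) (fun i => decide (0 < r i * r (i + 1))) ∧
      conwayH ((List.range (R + 1)).map r) = a ∧ (r 0).sign = ε := by
  subst ha
  obtain ⟨T, hp2, hc, he, ⟨s, T', hT⟩, hlast, -⟩ := exists_good l.length p l rfl hp
    (fun x hx => h1 x (List.mem_cons_of_mem _ hx)) (fun x hx => hq x (by
      obtain ⟨y, l', rfl⟩ := List.exists_cons_of_ne_nil hl
      rw [List.getLast?_cons_cons]
      exact hx))
  have hlen : 2 ≤ T.length := by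
    rw [hT] at he hlast ⊢
    cases T' with
    | nil =>
      have hs := (hlast ⟨.o, p, s⟩ (by simp)).2
      simp only at hs
      subst hs
      simp only [expand, Bool.false_eq_true, if_false, List.cons.injEq, true_and] at he
      exact absurd he.symm hl
    | cons y T'' => simp
  obtain ⟨R, hR⟩ : ∃ R, T.length = R + 1 := ⟨T.length - 1, by omega⟩
  set f : ℕ → Tok := fun i => T.getD i default with hf
  have hfi : ∀ i (hi : i < T.length), f i = T[i] := fun i hi => List.getD_eq_getElem _ _ hi
  have hn : ∀ i, i < R → Nx (f i) (f (i + 1)) := by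
    intro i hi
    rw [hfi i (by omega), hfi (i + 1) (by omega)]
    exact List.isChain_iff_getElem.1 hc i (by omega)
  have hb : ∀ x ∈ T, 1 ≤ x.b := by
    intro x hx
    obtain ⟨i, hi, rfl⟩ := List.getElem_of_mem hx
    rcases Nat.lt_or_ge i R with h2 | h2
    · have h3 := (hn i h2).1
      rw [hfi i hi] at h3
      exact okb_pos h3
    · obtain ⟨j, rfl⟩ : ∃ j, i = j + 1 := ⟨i - 1, by omega⟩
      have h3 := (hn j (by omega)).2.1
      rw [hfi (j + 1) hi] at h3
      exact okb_pos h3
  have hlastT : T.getLast? = some (f R) := by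
    rw [List.getLast?_eq_getElem?, hR, Nat.add_sub_cancel, hfi R (by omega)]
    exact List.getElem?_eq_getElem (by omega)
  have hfR := hlast (f R) (by rw [hlastT]; rfl)
  have hf0 : (f 0).ty = .o := by
    rw [hf, hT]
    rfl
  have hadm := adm_fn hf0 hfR.1 hfR.2 (by omega) hn
  set r : ℕ → ℤ := fun i => (rl ε 0 T).getD i 0 with hr
  have hrl : (List.range (R + 1)).map r = rl ε 0 T := by
    apply List.ext_getElem
    · rw [List.length_map, List.length_range, rl_length, hR]
    · intro i h2 h3
      rw [List.getElem_map, List.getElem_range, hr]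
      exact List.getD_eq_getElem _ _ h3
  refine ⟨R, r, hadm.congr ?_ ?_, ?_, ?_⟩
  · intro i hi
    simp only [hr]
    rw [rl_abs T ε 0 i hε (by omega)]
    unfold ct
    rcases i with _ | i
    · rw [if_pos rfl]
      rfl
    · rw [if_neg (by omega)]
      rfl
  · intro i hi
    have h2 := rl_sign T ε 0 i hε (by omega) hb
    by_cases h3 : (f i).s = true
    · rw [h3]
      exact decide_eq_true (h2.2 h3)
    · rw [Bool.not_eq_true] at h3
      rw [h3]
      refine decide_eq_false fun h4 => ?_
      have h5 : (f i).s = true := h2.1 h4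
      rw [h3] at h5
      simp at h5
  · rw [hrl]
    unfold conwayH
    rw [conwayHAux_rl T ε 0 hε hb (fun x hx => (hlast x hx).2), he]
  · simp only [hr]
    rw [hT, rl, List.getD_cons_zero]
    have h2 : (0 : ℤ) < ((p + 0 + bn s : ℕ) : ℤ) := by
      have : 0 < p + 0 + bn s := by omega
      exact_mod_cast this
    rcases hε with rfl | rfl
    · rw [one_mul]
      exact Int.sign_eq_one_of_pos h2
    · rw [neg_one_mul, Int.sign_neg, Int.sign_eq_one_of_pos h2]

end Pool.Agent.S5
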