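import Pool.Agent.H63.VC.Cross
import Pool.Agent.H63.VC11.Brac11
import Pool.Agent.H63.VC12.Path12
import Pool.Agent.H63.VC4.Checks
import Pool.Agent.S4.F.Even
import Pool.Agent.S5.List
import Pool.Agent.S5.X.AbsH

/-!
# Stage 3b, block G5: the mixed chain of a list, continued fractions and absorption
-/

set_option autoImplicit false

namespace Pool.Agent.S5

open Pool.Agent.H1TB Pool.Agent.S4

theorem mcf_alt_pos : ∀ (L : List ℕ) (ε : ℤ), (ε = 1 ∨ ε = -1) → L ≠ [] → (∀ x ∈ L, 1 ≤ x) →
    0 < (ε : ℚ) * mcf (alt ε L)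
  | [], _, _, h, _ => absurd rfl h
  | [x], ε, hε, _, h1 => by
    have hx : (1 : ℚ) ≤ x := by exact_mod_cast h1 x (by simp)
    simp only [alt, mcf, inv_zero, sub_zero]
    push_cast
    rcases hε with rfl | rfl <;> push_cast <;> linarith
  | x :: y :: L, ε, hε, _, h1 => by
    have hx : (1 : ℚ) ≤ x := by exact_mod_cast h1 x (by simp)
    have hε' : (-ε = 1 ∨ -ε = -1) := by
      rcases hε with rfl | rfl
      · right; rfl
      · left; rfl
    have ih := mcf_alt_pos (y :: L) (-ε) hε' (by simp) (fun z hz => h1 z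
      (List.mem_cons_of_mem _ hz))
    have h2 := inv_pos.2 ih
    rw [mul_inv] at h2
    rw [alt, mcf]
    push_cast at h2 ⊢
    have hee : (ε : ℚ) * ε = 1 := by rcases hε with rfl | rfl <;> norm_num
    have hi : ((-ε : ℚ))⁻¹ = -ε := by
      rcases hε with rfl | rfl <;> norm_num
    rw [hi] at h2
    have : (ε : ℚ) * (ε * x - (mcf (alt (-ε) (y :: L)))⁻¹) =
        (ε * ε) * x + -ε * (mcf (alt (-ε) (y :: L)))⁻¹ := by ring
    rw [this, hee]
    linarith

theorem mcf_conwayHAux : ∀ (l : List ℤ) (a : ℤ) (d : ℕ), (∀ x ∈ a :: l, x ≠ 0) →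
    (∀ x ∈ conwayHAux d (a :: l), 1 ≤ x) → d ≤ 1 →
    mcf (alt a.sign (conwayHAux d (a :: l))) = mcf ((a - d * a.sign) :: l)
  | [], a, d, h0, h1, hd => by
    have h2 : 1 ≤ a.natAbs - d := h1 _ (by simp [conwayHAux])
    have e : alt a.sign (conwayHAux d [a]) = [a - d * a.sign] := by
      simp only [conwayHAux, alt]
      congr 1
      rw [Nat.cast_sub (by omega), mul_sub, Int.sign_mul_natAbs]
      ring
    rw [e]
  | b :: l, a, d, h0, h1, hd => by
    have ha : a ≠ 0 := h0 a (by simp)
    have hb : b ≠ 0 := h0 b (by simp)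
    have hσ : a.sign = 1 ∨ a.sign = -1 := by
      rcases lt_or_gt_of_ne ha with h | h
      · right
        exact Int.sign_eq_neg_one_of_neg h
      · left
        exact Int.sign_eq_one_of_pos h
    rw [conwayHAux] at h1 ⊢
    by_cases hs : 0 < a * b
    · rw [if_pos hs] at h1 ⊢
      have h2 : 1 ≤ a.natAbs - d - 1 := h1 _ (by simp)
      have h3 := mcf_conwayHAux l b 1 (fun x hx => h0 x (List.mem_cons_of_mem _ hx))
        (fun x hx => h1 x (by simp [hx])) le_rfl
      have h4 := mcf_alt_pos (conwayHAux 1 (b :: l)) a.sign hσ (HX_ne _ _ (by simp))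
        (fun x hx => h1 x (by simp [hx]))
      have hsg : b.sign = a.sign := by
        rcases lt_or_gt_of_ne ha with h | h
        · have hb' : b < 0 := by nlinarith
          rw [Int.sign_eq_neg_one_of_neg h, Int.sign_eq_neg_one_of_neg hb']
        · have hb' : 0 < b := by
            by_contra hc
            nlinarith
          rw [Int.sign_eq_one_of_pos h, Int.sign_eq_one_of_pos hb']
      rw [hsg] at h3
      have e1 : alt a.sign ((a.natAbs - d - 1) :: 1 :: conwayHAux 1 (b :: l)) =
          (a - d * a.sign - a.sign) :: -a.sign :: alt a.sign (conwayHAux 1 (b :: l)) := by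
        rw [alt, alt, neg_neg]
        congr 1
        · rw [Nat.cast_sub (by omega), Nat.cast_sub (by omega), mul_sub, mul_sub,
            Int.sign_mul_natAbs]
          push_cast
          ring
        · congr 1
          push_cast
          ring
      rw [e1]
      simp only [mcf]
      rw [h3] at h4 ⊢
      simp only [mcf] at h4 ⊢
      generalize (mcf l)⁻¹ = w at *
      generalize a.sign = σ at *
      push_cast at h4 ⊢
      have hm : (b : ℚ) - w = ((b : ℚ) - 1 * σ - w) + σ := by ring
      rw [hm]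
      generalize (b : ℚ) - 1 * σ - w = m at *
      rcases hσ with rfl | rfl
      · push_cast at h4 ⊢
        have m0 : m ≠ 0 := by
          rintro rfl
          simp at h4
        have m1 : m + 1 ≠ 0 := by linarith
        have m2 : -1 - m⁻¹ ≠ 0 := by
          have : 0 < m⁻¹ := inv_pos.2 (by linarith)
          linarith
        have e : -1 - m⁻¹ = -((m + 1) / m) := by
          field_simp
          ring
        rw [e, inv_neg, inv_div]
        field_simp
        ring
      · push_cast at h4 ⊢
        have m0 : m ≠ 0 := by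
          rintro rfl
          simp at h4
        have m1 : m + -1 ≠ 0 := by
          have : m < 0 := by linarith
          linarith
        have e : -(-1) - m⁻¹ = (m + -1) / m := by
          field_simp
          ring
        rw [e, inv_div]
        field_simp
        ring
    · rw [if_neg hs] at h1 ⊢
      have h2 : 1 ≤ a.natAbs - d := h1 _ (by simp)
      have h3 := mcf_conwayHAux l b 0 (fun x hx => h0 x (List.mem_cons_of_mem _ hx))
        (fun x hx => h1 x (by simp [hx])) (by omega)
      have hsg : b.sign = -a.sign := by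
        rcases lt_or_gt_of_ne ha with h | h
        · have hb' : 0 < b := by
            by_contra hc
            have hb2 : b < 0 := lt_of_le_of_ne (not_lt.mp hc) hb
            nlinarith
          rw [Int.sign_eq_neg_one_of_neg h, Int.sign_eq_one_of_pos hb']
          norm_num
        · have hb' : b < 0 := by
            by_contra hc
            have hb2 : 0 < b := lt_of_le_of_ne (not_lt.mp hc) (Ne.symm hb)
            nlinarith
          rw [Int.sign_eq_one_of_pos h, Int.sign_eq_neg_one_of_neg hb']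
      have e1 : alt a.sign ((a.natAbs - d) :: conwayHAux 0 (b :: l)) =
          (a - d * a.sign) :: alt b.sign (conwayHAux 0 (b :: l)) := by
        rw [alt, hsg]
        congr 1
        rw [Nat.cast_sub (by omega), mul_sub, Int.sign_mul_natAbs]
        ring
      rw [e1]
      have e3 : b - ((0 : ℕ) : ℤ) * b.sign = b := by
        push_cast
        ring
      rw [e3] at h3
      rw [mcf, h3]
      rfl

/-- The continued fraction of a chain is that of the alternating chain of its list. -/
theorem mcf_conwayH {c : List ℤ} {a : ℤ} {l : List ℤ} (hc : c = a :: l) (h0 : ∀ x ∈ c, x ≠ 0)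
    (h1 : ∀ x ∈ conwayH c, 1 ≤ x) : mcf (alt a.sign (conwayH c)) = mcf c := by
  subst hc
  have h := mcf_conwayHAux l a 0 h0 h1 (by omega)
  have e : a - ((0 : ℕ) : ℤ) * a.sign = a := by
    push_cast
    ring
  rw [e] at h
  exact h

/-- **Every list is the list of an admissible mixed chain**, with the absorption relation and the
equality of the continued fractions. -/
theorem exists_adm' {m : ℕ} (hm : 1 ≤ m) {a : Fin (m + 1) → ℕ} (h1 : ∀ i, 1 ≤ a i)
    (h0 : 2 ≤ a 0) (hl : 2 ≤ a (Fin.last m)) {ε : ℤ} (hε : ε = 1 ∨ ε = -1) :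
    ∃ (R : ℕ) (r : ℕ → ℤ),
      Adm R (fun i => (r i).natAbs) (fun i => decide (0 < r i * r (i + 1))) ∧
      conwayH ((List.range (R + 1)).map r) = List.ofFn a ∧ (r 0).sign = ε ∧
      (∃ s : ℤ, Abs (List.ofFn fun i : Fin (m + 1) => ε * (-1) ^ (i : ℕ) * (a i : ℤ))
        ((List.range (R + 1)).map r) s) ∧
      mcf (List.ofFn fun i : Fin (m + 1) => ε * (-1) ^ (i : ℕ) * (a i : ℤ)) =
        mcf ((List.range (R + 1)).map r) := by
  obtain ⟨n, rfl⟩ : ∃ n, m = n + 1 := ⟨m - 1, by omega⟩
  have hmem : ∀ x ∈ List.ofFn a, 1 ≤ x := by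
    intro x hx
    obtain ⟨i, rfl⟩ := (List.mem_ofFn' _ _).mp hx
    exact h1 i
  obtain ⟨R, r, hA, hc, hs⟩ := exists_adm (List.ofFn_succ (f := a)) (by simp) hmem h0
    (fun x hx => by
      rw [List.getLast?_eq_getElem?, List.length_ofFn, Nat.add_sub_cancel,
        List.getElem?_eq_getElem (by simp)] at hx
      simp only [List.getElem_ofFn, Option.mem_def, Option.some.injEq] at hx
      subst hx
      exact hl) hε
  have hcons : (List.range (R + 1)).map r = r 0 :: (List.range R).map (fun i => r (i + 1)) :=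
    HX_range r R
  have hne : ∀ x ∈ (List.range (R + 1)).map r, x ≠ 0 := by
    intro x hx
    obtain ⟨i, hi, rfl⟩ := List.mem_map.1 hx
    have := hA.ha i (by have := List.mem_range.1 hi; omega)
    intro h
    simp only [h, Int.natAbs_zero] at this
    omega
  have hge : ∀ x ∈ conwayH ((List.range (R + 1)).map r), 1 ≤ x := by
    rw [hc]
    exact hmem
  refine ⟨R, r, hA, hc, hs, ?_, ?_⟩
  · obtain ⟨s, h⟩ := abs_conwayH hcons hne hge
    rw [hc, hs, alt_ofFn] at h
    exact ⟨s, h⟩
  · have h := mcf_conwayH hcons hne hge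
    rw [hc, hs, alt_ofFn] at h
    exact h

/-- The chain of a list other than `[2, 2]` is not the chain of the figure eight knot. -/
theorem adm_ne22 {R : ℕ} {r : ℕ → ℤ}
    (h : Adm R (fun i => (r i).natAbs) (fun i => decide (0 < r i * r (i + 1))))
    (h22 : conwayH ((List.range (R + 1)).map r) ≠ [2, 2]) :
    ¬ (R = 1 ∧ (r 0).natAbs = 2 ∧ (r 1).natAbs = 2) := by
  rintro ⟨rfl, e0, e1⟩
  apply h22
  have hs : ¬ 0 < r 0 * r 1 := by
    intro hs
    have := h.hfst (by simpa using hs)
    omega
  have e : (List.range (1 + 1)).map r = [r 0, r 1] := rfl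
  rw [e, conwayH, conwayHAux, if_neg hs, conwayHAux, e0, e1]

/-- Every two-bridge link is the boundary of a linear plumbing of annuli. -/
theorem exists_annuli {m : ℕ} (a : Fin (m + 1) → ℕ) (h1 : ∀ i, 1 ≤ a i) (h0 : 2 ≤ a 0) {ε : ℤ}
    (hε : ε = 1 ∨ ε = -1) : ∃ (p : ℕ) (r : Fin (p + 1) → ℤ), (∀ i, r i ≠ 0) ∧
      ∃ k : ℤ, (mcf (List.ofFn fun i => 2 * r i))⁻¹ -
        (mcf (List.ofFn fun i : Fin (m + 1) => ε * (-1) ^ (i : ℕ) * (a i : ℤ)))⁻¹ = k := by
  refine exists_even _ fun h => ?_
  rw [← alt_ofFn] at h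
  have hee : (ε : ℚ) * ε = 1 := by rcases hε with rfl | rfl <;> norm_num
  have hε' : (-ε = 1 ∨ -ε = -1) := by
    rcases hε with rfl | rfl
    · right; rfl
    · left; rfl
  have h2 : 2 ≤ (ε : ℚ) * mcf (alt ε (List.ofFn a)) := by
    have ha0 : (2 : ℚ) ≤ a 0 := by exact_mod_cast h0
    rw [List.ofFn_succ, alt, mcf]
    have h3 : 0 ≤ ((-ε : ℤ) : ℚ) * (mcf (alt (-ε) (List.ofFn fun i => a i.succ)))⁻¹ := by
      by_cases hl : (List.ofFn fun i : Fin m => a i.succ) = []
      · rw [hl]
        simp [alt, mcf]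
      · have h4 := mcf_alt_pos _ (-ε) hε' hl (fun x hx => by
          obtain ⟨i, rfl⟩ := (List.mem_ofFn' _ _).mp hx
          exact h1 _)
        have h5 := (inv_pos.2 h4).le
        rw [mul_inv] at h5
        have hi : (((-ε : ℤ) : ℚ))⁻¹ = ((-ε : ℤ) : ℚ) := by
          rcases hε with rfl | rfl <;> norm_num
        rw [hi] at h5
        exact h5
    push_cast at h3 ⊢
    have : (ε : ℚ) * (ε * a 0 - (mcf (alt (-ε) (List.ofFn fun i => a i.succ)))⁻¹) =
        (ε * ε) * a 0 + -ε * (mcf (alt (-ε) (List.ofFn fun i => a i.succ)))⁻¹ := by ring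
    rw [this, hee]
    linarith
  set y := mcf (alt ε (List.ofFn a)) with hy
  have hab : 2 ≤ |y| := by
    rcases hε with rfl | rfl
    · push_cast at h2
      rw [one_mul] at h2
      exact h2.trans (le_abs_self y)
    · push_cast at h2
      exact h2.trans (by rw [neg_one_mul]; exact neg_le_abs y)
  have hy0 : y ≠ 0 := by
    intro h0
    rw [h0, abs_zero] at hab
    norm_num at hab
  have hint : ((y⁻¹).num : ℚ) = y⁻¹ := by
    have := Rat.num_div_den (y⁻¹)
    rw [h, Nat.cast_one, div_one] at this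
    exact this
  have h4 : |y⁻¹| ≤ 1 / 2 := by
    rw [abs_inv, inv_eq_one_div]
    exact one_div_le_one_div_of_le (by norm_num) hab
  rw [← hint] at h4
  have h5 : (y⁻¹).num ≠ 0 := by
    intro h0
    rw [h0] at hint
    exact inv_ne_zero hy0 (by rw [← hint]; simp)
  have h6 : (1 : ℚ) ≤ |((y⁻¹).num : ℚ)| := by
    have := Int.one_le_abs h5
    exact_mod_cast this
  linarith

end Pool.Agent.S5
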