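import Pool.Agent.S5.MainG
import Pool.Agent.S5.Fld.i3
import Pool.Agent.S5.Fld.i4

/-!
# The statement about all lists
-/

set_option autoImplicit false

namespace Pool.Agent.S5

open Pool.Agent.S5.E (Tfin)

/-- The statements about the nodes. -/
theorem openN : OpenN Tfin := openN_of Fld.i3 Fld.i4

/-- **The statement about all lists.** -/
theorem main {m : ℕ} (hm : 1 ≤ m) {a : Fin (m + 1) → ℕ} (h1 : ∀ i, 1 ≤ a i) (h0 : 2 ≤ a 0)
    (hl : 2 ≤ a (Fin.last m)) {ε : ℤ} (hε : ε = 1 ∨ ε = -1) : StmtN m a ε :=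
  main_of openB openN hm h1 h0 hl hε

end Pool.Agent.S5
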