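import Pool.Agent.S5.PackF
import Pool.Agent.S5.I.Ori
import Pool.Agent.S5.S.FinS
import Pool.Agent.S5.N.VnOK

/-!
# Stage 3b: one chain from the solution of the equations and the statements of the nodes
-/

set_option autoImplicit false

namespace Pool.Agent.S5

open Complex Filter Topology
open Pool.Agent.S5.G (CrtM)

/-- The types agree with the numbers of half twists. -/
theorem chG_OK {m : ℕ} (hm : 1 ≤ m) {r : ℕ → ℤ} (h2 : ∀ i, i ≤ m → 2 ≤ (r i).natAbs)
    {fl : ℕ → Bool} (h0 : fl 0 = false) (h1 : fl m = true) : (chG m r fl).OK := by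
  have hab : ∀ i, |r i| = ((r i).natAbs : ℤ) := fun i => Int.abs_eq_natAbs _
  refine ⟨hm, fun i hi => ?_, fun i hi => ?_, fun i hi => ?_, fun _ => h0, fun _ => ?_⟩
  · show |r i| = 2
    have h : tyG m r i = Ty.cl := hi
    unfold tyG at h
    split_ifs at h with k
    rw [hab, k]
    rfl
  · show |r i| = 3 ∨ |r i| = 4
    have h : tyG m r i = Ty.zn := hi
    unfold tyG at h
    split_ifs at h with k k'
    rw [hab]
    rcases k' with k' | k'
    · left
      rw [k']
      rfl
    · right
      rw [k'.1]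
      rfl
  · show 3 ≤ |r i|
    have h : tyG m r i = Ty.vn := hi
    have h3 := h2 i (by have := i.isLt; omega)
    unfold tyG at h
    split_ifs at h with k k'
    rw [hab]
    omega
  · show fl ((Fin.last m : Fin (m + 1)) : ℕ) = true
    rw [Fin.val_last]
    exact h1

/-- **One chain.** -/
theorem chain_of_nodes {R : ℕ} (hR : 1 ≤ R) {r : ℕ → ℤ} {z ql qr : ℕ → ℂ}
    (hcr : CrtM R (fun i => (r i).natAbs) (fun i => decide (0 < r i * r (i + 1))) z ql qr)
    (hbx : BxG R (fun i => (r i).natAbs) (fun i => decide (0 < r i * r (i + 1)))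
      (flO R (fun i => (r i).natAbs) (fun i => decide (0 < r i * r (i + 1)))) z ql qr)
    (hcb : CBd R (fun i => (r i).natAbs) (fun i => decide (0 < r i * r (i + 1))) z ql qr)
    (hn : ∀ i, i ≤ R → Complex.normSq (cos (z i)) ≤ 2)
    (hD : ∀ i : Fin (R + 1), ND R (fun i => (r i).natAbs) (fun i => decide (0 < r i * r (i + 1)))
      (flO R (fun i => (r i).natAbs) (fun i => decide (0 < r i * r (i + 1)))) z ql qr r
      (zx R r (KO R (fun i => (r i).natAbs) (fun i => decide (0 < r i * r (i + 1))) r z ql qr) i)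
      i) : Chain R r := by
  have hG := HG_of (r := r) hcr hbx (fun _ _ => rfl) (fun i _ => by simp)
  have hK := cnOK_of hG hcb
  have hC := chG_OK hR (r := r) (fun i hi => hcr.ha i hi)
    (flO_zero R (fun i => (r i).natAbs) (fun i => decide (0 < r i * r (i + 1))))
    (flO_last hR (fun i => (r i).natAbs) (fun i => decide (0 < r i * r (i + 1))))
  have hI := hG.inq (KO_ok _ _ _ _ _ _ _) hK hD
  have hRg := hG.rg
  have hCr := hG.crtC
  refine chain_of hG hn hC fun n h _ h1 h2 P _ => ?_
  exact Krn.fin hC hK hI hRg hCr _ (krN_ok _ P h1 h2) (krN_lm _ P h1 h2 hC hK hRg)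

end Pool.Agent.S5
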