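import Pool.Agent.S5.Last
import Pool.Agent.S5.Fld.BT
import Pool.Agent.S5.Fld.BO
import Pool.Agent.S5.Fld.YQ
import Pool.Agent.S5.Fld.i2
import Pool.Agent.S5.Fld.e2
import Pool.Agent.S5.Fld.e3T
import Pool.Agent.S5.Fld.e4T
import Pool.Agent.S5.Fld.v5

/-!
# The statements about the critical points and the nodes, from the inner nodes with three and four half
twists
-/

set_option autoImplicit false

namespace Pool.Agent.S5

open Pool.Agent.S5.E (Tfin)

/-- The facts about the critical points. -/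
theorem openB : OpenB Tfin where
  harg := Fld.b_harg
  tab := Fld.b_tab
  o3 := Fld.b_o3
  o4 := Fld.b_o4
  y := Fld.b_y
  z3 := Fld.b_z3
  z4 := Fld.b_z4

/-- The statements about the nodes, from the inner nodes with three and four half twists. -/
theorem openN_of
    (i3 : ∀ (R : ℕ) (a : ℕ → ℕ) (S : ℕ → Bool) (r : ℕ → ℤ) (z ql qr : ℕ → ℂ)
      (zF : Fin (R + 1) → ℂ), Ctx Tfin R a S r z ql qr zF →
        ∀ i, i + 1 < R → a (i + 1) = 3 → Z3 R a S z ql qr (i + 1))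
    (i4 : ∀ (R : ℕ) (a : ℕ → ℕ) (S : ℕ → Bool) (r : ℕ → ℤ) (z ql qr : ℕ → ℂ)
      (zF : Fin (R + 1) → ℂ), Ctx Tfin R a S r z ql qr zF →
        ∀ i, i + 1 < R → a (i + 1) = 4 → Z4 R a S z ql qr (i + 1)) : OpenN Tfin where
  i2 := Fld.i2
  e2l := Fld.e2l
  e2r := Fld.e2r
  i3 := i3
  e3l := fun _ _ _ _ _ _ _ _ h h0 => h.f_e3l h0
  e3r := fun _ _ _ _ _ _ _ _ h _ hi h0 => h.f_e3r hi h0
  i4 := i4
  e4l := fun _ _ _ _ _ _ _ _ h h0 => h.f_e4l h0
  e4r := fun _ _ _ _ _ _ _ _ h _ hi h0 => h.f_e4r hi h0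
  vr := Fld.n_vr
  vl := Fld.n_vl

end Pool.Agent.S5
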