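import Pool.Agent.S5.Main0
import Pool.Agent.S5.I.InqH

/-!
# Stage 3b: one chain, the critical point may be on the piece `H`
-/

set_option autoImplicit false

namespace Pool.Agent.S5

open Complex Filter Topology
open Pool.Agent.S5.G (CrtM)

/-- **One chain.** -/
theorem chain_of_nodesH {R : ℕ} (hR : 1 ≤ R) {r : ℕ → ℤ} {z ql qr : ℕ → ℂ}
    (hcr : CrtM R (fun i => (r i).natAbs) (fun i => decide (0 < r i * r (i + 1))) z ql qr)
    (hbx : BxG R (fun i => (r i).natAbs) (fun i => decide (0 < r i * r (i + 1)))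
      (flO R (fun i => (r i).natAbs) (fun i => decide (0 < r i * r (i + 1)))) z ql qr)
    (hcb : CBd R (fun i => (r i).natAbs) (fun i => decide (0 < r i * r (i + 1))) z ql qr)
    (hn : ∀ i, i ≤ R → Complex.normSq (cos (z i)) ≤ 2)
    (hD : ∀ i : Fin (R + 1), NDH R (fun i => (r i).natAbs) (fun i => decide (0 < r i * r (i + 1)))
      (flO R (fun i => (r i).natAbs) (fun i => decide (0 < r i * r (i + 1)))) z ql qr r
      (zx R r (KO R (fun i => (r i).natAbs) (fun i => decide (0 < r i * r (i + 1))) r z ql qr) i)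
      i) : Chain R r := by
  have hG := HG_of (r := r) hcr hbx (fun _ _ => rfl) (fun i _ => by simp)
  have hK := cnOK_of hG hcb
  have hC := chG_OK hR (r := r) (fun i hi => hcr.ha i hi)
    (flO_zero R (fun i => (r i).natAbs) (fun i => decide (0 < r i * r (i + 1))))
    (flO_last hR (fun i => (r i).natAbs) (fun i => decide (0 < r i * r (i + 1))))
  have hI := hG.inqH (KO_ok _ _ _ _ _ _ _) hK hD
  have hRg := hG.rg
  have hCr := hG.crtC
  refine chain_of hG hn hC fun n h _ h1 h2 P _ => ?_
  exact Krn.fin hC hK hI hRg hCr _ (krN_ok _ P h1 h2) (krN_lm _ P h1 h2 hC hK hRg)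

end Pool.Agent.S5
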