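import Pool.Agent.S5.PackA
import Pool.Agent.S5.FinN
import Pool.Agent.S5.ListS
import Pool.Agent.S5.N.Typ

/-!
# Stage 3b: the statement about a list from the asymptotics of its mixed chain
-/

set_option autoImplicit false

namespace Pool.Agent.S5

open Complex Filter Topology
open Pool.Agent.H63.VC (structureVolumes)
open Pool.Agent.H1TB (conwayH)
open Pool.Agent.S3
open Pool.Agent.S4 (mcf OkL exr nn JG4)

theorem range_map_ofFn (R : ℕ) (r : ℕ → ℤ) :
    (List.range (R + 1)).map r = List.ofFn fun i : Fin (R + 1) => r i := by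
  apply List.ext_getElem
  · simp
  · intro i h1 h2
    rw [List.getElem_map, List.getElem_range, List.getElem_ofFn]

/-- What is needed for one admissible mixed chain `r`: the critical point and the asymptotics. -/
def Chain (R : ℕ) (r : ℕ → ℤ) : Prop :=
  ∃ (z ql qr : ℕ → ℂ) (fl : ℕ → Bool) (K : Cn R),
    HG R (fun i => (r i).natAbs) (fun i => decide (0 < r i * r (i + 1))) fl z ql qr r K ∧
    (∀ i, i ≤ R → Complex.normSq (cos (z i)) ≤ 2) ∧
    ∀ n h : ℕ, 2 ≤ n → 1 ≤ h → 2 * h ≤ n → ∀ P : Fin (R + 1) → Bool,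
      OkL 0 (List.ofFn fun i : Fin (R + 1) => (P i, r i)) → ∃ κ0 : ℂ, κ0 ≠ 0 ∧
      Tendsto (fun M : ℕ => (∏ i : Fin (R + 1), (-1 : ℂ) ^ (M + nn n (P i) + 1)) *
        JG4 P (fun i : Fin (R + 1) => (r i : ℝ) / 2) n h M /
        ((((M : ℝ) ^ (3 / 2 * ((R : ℝ) + 1) + R / 2) : ℝ) : ℂ) *
          exp (M * WVG R r z qr))) atTop (𝓝 κ0)

/-- **The statement about a list from the asymptotics of its mixed chain.** -/
theorem pack {m : ℕ} (hm : 1 ≤ m) {a : Fin (m + 1) → ℕ} (h1 : ∀ i, 1 ≤ a i) (h0 : 2 ≤ a 0)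
    (hl : 2 ≤ a (Fin.last m)) (h22 : List.ofFn a ≠ [2, 2]) {ε : ℤ} (hε : ε = 1 ∨ ε = -1)
    (H : ∀ (R : ℕ) (r : ℕ → ℤ),
      AdmS R (fun i => (r i).natAbs) (fun i => decide (0 < r i * r (i + 1))) →
      ¬(R = 1 ∧ (r 0).natAbs = 2 ∧ (r 1).natAbs = 2) → Chain R r) : StmtN m a ε := by
  obtain ⟨R, r, hA, hc, hs, -, hmc⟩ := exists_admS' hm h1 h0 hl hε
  obtain ⟨z, ql, qr, fl, K, hG, hn, hlim⟩ := H R r hA (adm_ne22 hA.toAdm (by rw [hc]; exact h22))
  have hcv := hG.cv hn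
  have hvol := hG.volG
  rw [hc] at hcv hvol
  have hsg : decide (r 0 < 0) = decide (ε = -1) := by
    rcases hε with he | he
    · have h2 : 0 < r 0 := Int.sign_eq_one_iff_pos.1 (by rw [hs, he])
      have h3 : ¬ r 0 < 0 := by omega
      rw [decide_eq_false h3, he]
      rfl
    · have h2 : r 0 < 0 := Int.sign_eq_neg_one_iff_neg.1 (by rw [hs, he])
      rw [decide_eq_true h2, he]
      rfl
  rw [hsg] at hcv
  rw [range_map_ofFn] at hmc
  refine stmtN_of_lim (c := fun i : Fin (R + 1) => r i) hmc.symm ?_ (WVG R r z qr) hvol hcv ?_ hlim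
  · intro p s hs0 hk
    exact types_adm hA.toAdm s hs0 hk
  · exact exists_annuli a h1 h0 hε

end Pool.Agent.S5
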