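import Pool.Agent.S5.Geo
import Pool.Agent.S5.CV.OfBx

/-!
# Stage 3b: the complex volume of a mixed chain, in terms of the critical point
-/

set_option autoImplicit false

namespace Pool.Agent.S5

open Complex Pool.Agent.H63.VC Pool.Agent.H63.VC3 Pool.Agent.S3 Pool.Agent.S5.G Pool.Agent.H1TB
open Pool.Agent.S3.G (Yy)
open scoped ComplexConjugate BigOperators

theorem exp_tan {w T : ℂ} (h0 : -(1 / 2) < w.re) (h1 : w.re < 1 / 2)
    (h : tan (Real.pi * w) = T) : exp (2 * Real.pi * I * w) = (1 + I * T) / (1 - I * T) := by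
  have hpi := Real.pi_pos
  have hre : ((Real.pi : ℂ) * w).re = Real.pi * w.re := by simp
  have hc : cos ((Real.pi : ℂ) * w) ≠ 0 := by
    intro h2
    have h3 := congrArg Complex.re h2
    rw [(S3.G.cos_split _).1, hre, zero_re] at h3
    have h4 := Real.cos_pos_of_mem_Ioo (x := Real.pi * w.re) ⟨by nlinarith, by nlinarith⟩
    have h5 := mul_pos h4 (Real.cosh_pos ((Real.pi : ℂ) * w).im)
    linarith
  have e1 : exp ((Real.pi : ℂ) * w * I) = cos ((Real.pi : ℂ) * w) * (1 + I * T) := by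
    rw [exp_mul_I, ← h, tan_eq_sin_div_cos]
    field_simp
  have e2 : exp (-((Real.pi : ℂ) * w * I)) = cos ((Real.pi : ℂ) * w) * (1 - I * T) := by
    have h2 := exp_mul_I (-((Real.pi : ℂ) * w))
    rw [neg_mul, cos_neg, sin_neg] at h2
    rw [h2, ← h, tan_eq_sin_div_cos]
    field_simp
    ring
  have hne : 1 - I * T ≠ 0 := by
    intro h2
    rw [h2, mul_zero] at e2
    exact exp_ne_zero _ e2
  rw [eq_div_iff hne]
  have e3 : exp (2 * Real.pi * I * w) * exp (-((Real.pi : ℂ) * w * I)) =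
      exp ((Real.pi : ℂ) * w * I) := by
    rw [← Complex.exp_add]
    congr 1
    ring
  rw [e1, e2] at e3
  have e4 : cos ((Real.pi : ℂ) * w) * (exp (2 * Real.pi * I * w) * (1 - I * T)) =
      cos ((Real.pi : ℂ) * w) * (1 + I * T) := by
    linear_combination e3
  exact mul_left_cancel₀ hc e4

variable {m : ℕ} {a : ℕ → ℕ} {S fl : ℕ → Bool} {z ql qr : ℕ → ℂ} {r : ℕ → ℤ} {K : Cn m}

theorem HG.exp_yc (h : HG m a S fl z ql qr r K) (j : Fin m) :
    exp (2 * Real.pi * I * ycG r z qr j) =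
      if r j < 0 then YrM S z qr j else (conj (YrM S z qr j))⁻¹ := by
  have hre := h.yc_re j
  rw [h.yc] at hre
  have hre' : 0 < (sy (qr j) (z j)).re ∧ (sy (qr j) (z j)).re < 1 / 2 := by
    unfold ycG sg at hre
    split at hre
    · exact hre
    · rwa [conj_re] at hre
  have ht := (h.tanr j j.2).1
  have he := exp_tan (by linarith [hre'.1]) hre'.2 ht
  have hκ : kp (S j) (cos (z (j + 1))) ≠ 0 := kp_ne (S3.G.cos_ne (h.crt.zre (j + 1) j.2))
  have hY : exp (2 * Real.pi * I * sy (qr j) (z j)) = YrM S z qr j := by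
    rw [he]
    unfold YrM Yy
    have e1 : kp (S j) (cos (z (j + 1))) + I * cosh (qr j) =
        kp (S j) (cos (z (j + 1))) * (1 + I * (cosh (qr j) / kp (S j) (cos (z (j + 1))))) := by
      field_simp
    have e2 : kp (S j) (cos (z (j + 1))) - I * cosh (qr j) =
        kp (S j) (cos (z (j + 1))) * (1 - I * (cosh (qr j) / kp (S j) (cos (z (j + 1))))) := by
      field_simp
    rw [e1, e2, mul_div_mul_left _ _ hκ]
  unfold ycG sg
  by_cases h0 : r j < 0
  · rw [if_pos h0, if_pos h0, hY]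
  · rw [if_neg h0, if_neg h0, ← hY, ← exp_conj, ← Complex.exp_neg]
    congr 1
    rw [map_mul, map_mul, map_mul, conj_I, conj_ofReal, Complex.conj_ofNat]
    ring

/-- **The complex volume of a mixed chain.** -/
theorem HG.cv (h : HG m a S fl z ql qr r K)
    (hn : ∀ i, i ≤ m → Complex.normSq (cos (z i)) ≤ 2) :
    ∃ Z : ℂ, S3.CV.IsComplexVolume (conwayH ((List.range (m + 1)).map r)) (decide (r 0 < 0)) Z ∧
      ∃ k : ℤ, Z = 2 * Real.pi * I * WVG m r z qr +
        (Real.pi : ℂ) ^ 2 / 2 * ∑ i : Fin (m + 1), (r i : ℂ) + k * (Real.pi : ℂ) ^ 2 := by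
  refine CV.cv_mixed' h.crt (CV.EdgN.of_bx h.crt h.bx hn) r h.abs h.sgn _ _ ?_ ?_ ?_
  · intro j
    have hre := h.yc_re j
    rw [h.yc] at hre
    exact ⟨by linarith [hre.1], hre.2⟩
  · intro i
    unfold vcG
    split
    · rfl
    · rw [map_div₀, conj_ofReal]
  · exact h.exp_yc

/-- The volume of a mixed chain. -/
theorem HG.volG (h : HG m a S fl z ql qr r K) :
    IsGreatest (structureVolumes (conwayH ((List.range (m + 1)).map r)))
      (2 * Real.pi * (WVG m r z qr).re) := by
  have h1 := h.vol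
  have h2 : ((chG m r fl).W K.oc K.yc).re = (WVG m r z qr).re := by
    rw [h.W, add_re, re_sum]
    have h3 : ∀ i : Fin (m + 1), (kcG m r i).re = 0 := by
      intro i
      unfold kcG
      split
      · simp
      · split
        · simp
        · simp
      · simp
    simp [h3]
  rwa [h2] at h1

end Pool.Agent.S5
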