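import Pool.Agent.S5.PackN
import Pool.Agent.S5.Eight

/-!
# Stage 3b: all hyperbolic two-bridge links
-/

set_option autoImplicit false

namespace Pool.Agent.S5

/-- **The statement about all lists, from the admissible mixed chains.** -/
theorem pack_all (H : ∀ (R : ℕ) (r : ℕ → ℤ),
      AdmS R (fun i => (r i).natAbs) (fun i => decide (0 < r i * r (i + 1))) →
      ¬(R = 1 ∧ (r 0).natAbs = 2 ∧ (r 1).natAbs = 2) → Chain R r)
    {m : ℕ} (hm : 1 ≤ m) {a : Fin (m + 1) → ℕ} (h1 : ∀ i, 1 ≤ a i) (h0 : 2 ≤ a 0)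
    (hl : 2 ≤ a (Fin.last m)) {ε : ℤ} (hε : ε = 1 ∨ ε = -1) : StmtN m a ε := by
  by_cases h22 : List.ofFn a = [2, 2]
  · exact stmtN_of_22 h22 hε
  · exact pack hm h1 h0 hl h22 hε H

end Pool.Agent.S5
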