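import Pool.Agent.S5.Pack
import Pool.Agent.S5.N.LimN

/-!
# Stage 3b: the asymptotics of the sum of the kernels give the asymptotics of the chain
-/

set_option autoImplicit false

namespace Pool.Agent.S5

open Complex Filter Topology
open Pool.Agent.S3
open Pool.Agent.S4 (mcf OkL exr nn JG4)

theorem kap_kcG (m : ℕ) (r : ℕ → ℤ) (i : ℕ) : kap (r i) (tyG m r i) = -kcG m r i := by
  unfold kap kcG
  rcases tyG m r i with _ | _ | _
  · ring
  · by_cases h : (r i).natAbs = 3
    · have h' : |r i| = 3 := by rw [Int.abs_eq_natAbs, h]; rfl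
      simp only [if_pos h, if_pos h']
      ring
    · have h' : ¬ |r i| = 3 := fun h2 => h (by
        rw [Int.abs_eq_natAbs] at h2
        exact_mod_cast h2)
      simp only [if_neg h, if_neg h']
  · simp

/-- The conditions on one chain from the asymptotics of the sums of the kernels, with the critical
value of the potential of the mixed chain. -/
theorem chain_of {R : ℕ} {r : ℕ → ℤ} {z ql qr : ℕ → ℂ} {fl : ℕ → Bool} {K : Cn R}
    (hG : HG R (fun i => (r i).natAbs) (fun i => decide (0 < r i * r (i + 1))) fl z ql qr r K)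
    (hn : ∀ i, i ≤ R → Complex.normSq (cos (z i)) ≤ 2) (hC : (chG R r fl).OK)
    (hJ : ∀ n h : ℕ, 2 ≤ n → 1 ≤ h → 2 * h ≤ n → ∀ P : Fin (R + 1) → Bool,
      OkL 0 (List.ofFn fun i : Fin (R + 1) => (P i, r i)) →
      ∃ A : ℂ, A ≠ 0 ∧ Tendsto (fun M : ℕ => (∏ i, (krN (chG R r fl) P n h).sg i M) *
        (krN (chG R r fl) P n h).J M / ((((M : ℝ) ^ (krN (chG R r fl) P n h).eJ : ℝ) : ℂ) *
          exp (M * (chG R r fl).W K.oc K.yc))) atTop (𝓝 A)) : Chain R r := by
  refine ⟨z, ql, qr, fl, K, hG, hn, ?_⟩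
  intro n h hn2 h1 h2 P hP
  have key := hlim_of_krN hC hP h1 h2 (hJ n h hn2 h1 h2 P hP)
  have e : (chG R r fl).W K.oc K.yc + ∑ i : Fin (R + 1), kap (r i) (tyG R r i) =
      WVG R r z qr := by
    rw [hG.W, Finset.sum_congr rfl fun (i : Fin (R + 1)) _ => kap_kcG R r i,
      Finset.sum_neg_distrib]
    ring
  obtain ⟨κ0, hκ, ht⟩ := key
  refine ⟨κ0, hκ, ?_⟩
  have e' : (chG R r fl).W K.oc K.yc + ∑ i, kap ((chG R r fl).c i) ((chG R r fl).ty i) =
      WVG R r z qr := e
  rw [e'] at ht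
  exact ht

end Pool.Agent.S5
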